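import Pool.Agent.Helper46.Form.QSP

/-!
Consequences of bounds on chief factors and on classes of `p`-subgroups.
-/

namespace Pool.Agent.Helper46.Form

open Formation

/-- minimal normal subgroup -/
def MinNormal {G : Type} [Group G] (M : Subgroup G) : Prop :=
  M.Normal ∧ M ≠ ⊥ ∧ ∀ N : Subgroup G, N.Normal → N ≤ M → N = ⊥ ∨ N = M

lemma exists_minNormal (G : Type) [Group G] [Finite G] [Nontrivial G] :
    ∃ M : Subgroup G, MinNormal M := by
  obtain ⟨M, hM⟩ := exists_minimal_of_wellFoundedLT (fun M : Subgroup G => M.Normal ∧ M ≠ ⊥)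
    ⟨⊤, inferInstance, top_ne_bot⟩
  refine ⟨M, hM.1.1, hM.1.2, fun N hN hNM => ?_⟩
  by_cases h : N = ⊥
  · exact Or.inl h
  · exact Or.inr (le_antisymm hNM (hM.2 ⟨hN, h⟩ hNM))

lemma card_quot_lt {G : Type} [Group G] [Finite G] {M : Subgroup G} (hM : M ≠ ⊥) :
    Nat.card (G ⧸ M) < Nat.card G := by
  rw [Subgroup.card_eq_card_quotient_mul_card_subgroup M]
  exact lt_mul_of_one_lt_right Nat.card_pos ((Subgroup.one_lt_card_iff_ne_bot _).2 hM)

namespace Wr

/-- conjugation by the top group translates single functions -/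
lemma conj_inr_single {K T : Type} [Group K] [Group T] [DecidableEq T] (t x : T) (k : K) :
    (inr t : Wr K T) * inl (Pi.mulSingle x k) * (inr t)⁻¹ = inl (Pi.mulSingle (t * x) k) := by
  refine Wr.ext (funext fun y => ?_) ?_
  · simp only [mul_f, inr_f, one_mul, mul_t, inr_t, inl_t, mul_one, inv_f, inv_one, inl_f]
    by_cases hy : y = t * x
    · subst hy
      rw [Pi.mulSingle_eq_same, inv_mul_cancel_left, Pi.mulSingle_eq_same]
    · rw [Pi.mulSingle_eq_of_ne hy, Pi.mulSingle_eq_of_ne]
      intro h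
      apply hy
      rw [← h]; group
  · simp

theorem minNormal_base {U T : Type} [Group U] [Group T] [Finite U] [Finite T] {M : Subgroup U}
    (hM : MinNormal M) (hc : ¬ M ≤ Subgroup.center U) :
    MinNormal (base M : Subgroup (Wr U T)) := by
  classical
  obtain ⟨hMn, hM0, hmin⟩ := hM
  refine ⟨inferInstance, ?_, ?_⟩
  · intro h
    apply hM0
    rw [Subgroup.eq_bot_iff_forall] at h ⊢
    intro x hx
    have := h (inl fun _ => x) ⟨rfl, fun _ => hx⟩
    exact congrFun (congrArg Wr.f this) 1
  · intro N hN hNM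
    by_cases hN0 : N = ⊥
    · exact Or.inl hN0
    right
    apply le_antisymm hNM
    obtain ⟨w, hwN, hw1⟩ : ∃ w ∈ N, w ≠ 1 := by
      by_contra hcon
      push Not at hcon
      exact hN0 ((Subgroup.eq_bot_iff_forall N).2 hcon)
    have hwt : w.t = 1 := (hNM hwN).1
    obtain ⟨x, hx⟩ : ∃ x, w.f x ≠ 1 := by
      by_contra hcon
      push Not at hcon
      exact hw1 (Wr.ext (funext hcon) hwt)
    have hMc : M ⊓ Subgroup.center U = ⊥ := by
      rcases hmin (M ⊓ Subgroup.center U) inferInstance inf_le_left with h | h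
      · exact h
      · exact absurd (inf_eq_left.1 h) hc
    have hxc : w.f x ∉ Subgroup.center U := by
      intro h
      have : w.f x ∈ M ⊓ Subgroup.center U := ⟨(hNM hwN).2 x, h⟩
      rw [hMc, Subgroup.mem_bot] at this
      exact hx this
    rw [Subgroup.mem_center_iff] at hxc
    push Not at hxc
    obtain ⟨u, hu⟩ := hxc
    let D : Subgroup U := N.comap (inl.comp (MonoidHom.mulSingle (fun _ : T => U) x))
    have hD : ∀ k, k ∈ D ↔ inl (Pi.mulSingle x k) ∈ N := fun k => Iff.rfl
    have hDn : D.Normal := inferInstance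
    have hDM : D ≤ M := by
      intro k hk
      have := (hNM ((hD k).1 hk)).2 x
      simpa using this
    have hk : u * w.f x * u⁻¹ * (w.f x)⁻¹ ∈ D := by
      rw [hD]
      have h1 := N.mul_mem (hN.conj_mem _ hwN (inl (Pi.mulSingle x u))) (N.inv_mem hwN)
      convert h1 using 1
      refine Wr.ext (funext fun y => ?_) ?_
      · simp only [mul_f, mul_t, inl_f, inl_t, inv_f, inv_t, inv_one, one_mul, mul_one, hwt]
        by_cases hy : y = x
        · subst hy
          simp only [Pi.mulSingle_eq_same]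
        · simp only [Pi.mulSingle_eq_of_ne hy]
          simp
      · simp
    have hDM' : D = M := by
      rcases hmin D hDn hDM with h | h
      · exfalso
        rw [h, Subgroup.mem_bot] at hk
        apply hu
        have := congrArg (fun z => z * (w.f x) * u) hk
        simpa [mul_assoc] using this
      · exact h
    intro v hv
    have hvM := hv.2
    have hvt := hv.1
    have : v.f ∈ N.comap (inl : (T → U) →* Wr U T) := by
      apply Subgroup.pi_mem_of_mulSingle_mem
      intro y
      have h1 : v.f y ∈ D := by rw [hDM']; exact hvM y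
      rw [hD] at h1
      have h2 := hN.conj_mem _ h1 (inr (y * x⁻¹))
      rw [conj_inr_single, inv_mul_cancel_right] at h2
      exact h2
    have h3 : inl v.f ∈ N := this
    rwa [inl_of_t_eq_one hvt] at h3

theorem centralizer_base_le {U T : Type} [Group U] [Group T] {M : Subgroup U} (hM : M ≠ ⊥) :
    Subgroup.centralizer ((base M : Subgroup (Wr U T)) : Set (Wr U T)) ≤ base ⊤ := by
  classical
  intro w hw
  rw [mem_base_top]
  by_contra ht
  obtain ⟨m, hm, hm1⟩ : ∃ m ∈ M, m ≠ 1 := by
    by_contra hcon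
    push Not at hcon
    exact hM ((Subgroup.eq_bot_iff_forall M).2 hcon)
  rw [Subgroup.mem_centralizer_iff] at hw
  have h1 := hw (inl (Pi.mulSingle 1 m)) ⟨rfl, fun x => by
    by_cases hx : x = 1
    · subst hx; simpa using hm
    · rw [inl_f, Pi.mulSingle_eq_of_ne hx]; exact M.one_mem⟩
  have h2 := congrFun (congrArg Wr.f h1) 1
  simp only [mul_f, inl_f, Pi.mulSingle_eq_same, inl_t, inv_one, mul_one, one_mul] at h2
  have h3 : (w.t)⁻¹ ≠ 1 := by simpa using ht
  rw [Pi.mulSingle_eq_of_ne h3, mul_one] at h2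
  exact hm1 (by simpa using h2)

lemma index_base_top {U T : Type} [Group U] [Group T] :
    (base ⊤ : Subgroup (Wr U T)).index = Nat.card T := by
  rw [base_top_eq_ker, Subgroup.index_ker, MonoidHom.range_eq_top.2 right_surjective]
  exact Nat.card_congr Subgroup.topEquiv.toEquiv

end Wr

theorem nilpotent_of_wr_mem {V : Formation} {g : ℕ} (hV : ChiefBdd V g) {T : Type} [Group T]
    [Finite T] (hT : g < Nat.card T) (n : ℕ) : ∀ (U : Type) [Group U] [Finite U], Nat.card U = n →
    V.Mem (Wr U T) → Group.IsNilpotent U := by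
  induction n using Nat.strong_induction_on with
  | _ n ih =>
    intro U _ _ hn hU
    rcases subsingleton_or_nontrivial U with h | h
    · infer_instance
    obtain ⟨M, hM⟩ := exists_minNormal U
    have hMn := hM.1
    by_cases hc : M ≤ Subgroup.center U
    · have h1 : Group.IsNilpotent (U ⧸ M) := by
        refine ih (Nat.card (U ⧸ M)) (hn ▸ card_quot_lt hM.2.1) (U ⧸ M) rfl ?_
        exact V.quot (Wr.map (QuotientGroup.mk' M))
          (Wr.map_surjective _ (QuotientGroup.mk'_surjective M)) hU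
      exact Subgroup.isNilpotent_of_ker_le_center (QuotientGroup.mk' M)
        (by rwa [QuotientGroup.ker_mk'])
    · exfalso
      have h1 : MinNormal (Wr.base M : Subgroup (Wr U T)) := Wr.minNormal_base hM hc
      have h2 := hV (Wr U T) hU _ h1.1 h1.2.1 h1.2.2
      have h3 := Subgroup.index_dvd_of_le (Wr.centralizer_base_le (U := U) (T := T) hM.2.1)
      rw [Wr.index_base_top] at h3
      have h4 : (Subgroup.centralizer ((Wr.base M : Subgroup (Wr U T)) : Set (Wr U T))).index ≠ 0 :=
        Subgroup.FiniteIndex.index_ne_zero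
      have h5 := Nat.le_of_dvd (Nat.pos_of_ne_zero h4) h3
      omega

/-- If `Y ≀ T` is nilpotent-by-`V` with `T` large then `Y` is nilpotent by nilpotent. -/
theorem exists_of_wr_mem {V : Formation} {g : ℕ} (hV : ChiefBdd V g) {Y T : Type} [Group Y]
    [Finite Y] [Group T] [Finite T] (hT : g < Nat.card T) (h : (Nil * V).Mem (Wr Y T))
    (hY : ¬ Group.IsNilpotent Y) : ∃ (N : Subgroup Y) (_ : N.Normal), Group.IsNilpotent N ∧
      Group.IsNilpotent (Y ⧸ N) ∧ V.Mem (Wr (Y ⧸ N) T) := by
  rw [mem_mul', mem_Nil'] at h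
  have h1 : V.res (Wr Y T) ≤ Wr.base ⊤ := Wr.le_base_of_nilpotent _ hY
  have h2 : V.Mem (Wr (Y ⧸ Wr.coord (V.res (Wr Y T))) T) := by
    refine mem_of_res_le (Wr.map (QuotientGroup.mk' (Wr.coord (V.res (Wr Y T)))))
      (Wr.map_surjective _ (QuotientGroup.mk'_surjective _)) ?_
    intro w hw
    exact Wr.map_mk_eq_one hw (Wr.mem_base_top.1 (h1 hw))
  exact ⟨Wr.coord (V.res (Wr Y T)), inferInstance, Wr.coord_nilpotent _,
    nilpotent_of_wr_mem hV hT _ _ rfl h2, h2⟩

lemma NilNil_of {Y : Type} [Group Y] [Finite Y] (N : Subgroup Y) [N.Normal]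
    [Group.IsNilpotent N] [Group.IsNilpotent (Y ⧸ N)] : (Nil * Nil).Mem Y := by
  rw [mem_mul', mem_Nil']
  have h1 : Nil.res Y ≤ N := res_le ⟨inferInstance, inferInstance, inferInstance⟩
  exact Wr.isNilpotent_of_injective (Subgroup.inclusion h1) (Subgroup.inclusion_injective _)

theorem NilNil_of_wr_mem {V : Formation} {g : ℕ} (hV : ChiefBdd V g) {Y T : Type} [Group Y]
    [Finite Y] [Group T] [Finite T] (hT : g < Nat.card T) (h : (Nil * V).Mem (Wr Y T)) :
    (Nil * Nil).Mem Y := by
  by_cases hY : Group.IsNilpotent Y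
  · exact le_mul_right' _ _ _ (mem_Nil'.2 hY)
  · obtain ⟨N, _, h1, h2, _⟩ := exists_of_wr_mem hV hT h hY
    exact NilNil_of N

lemma solvable_of_NilNil {Y : Type} [Group Y] (h : (Nil * Nil).Mem Y) : Group.IsSolvable Y := by
  have := h.1
  rw [mem_mul', mem_Nil'] at h
  have h1 : Nil.Mem (Y ⧸ Nil.res Y) := mem_quot_res
  rw [mem_Nil'] at h1
  exact Group.isSolvable_of_ker_le_range (Subgroup.subtype (Nil.res Y))
    (QuotientGroup.mk' (Nil.res Y)) (by rw [QuotientGroup.ker_mk', Subgroup.range_subtype])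

namespace Wr

variable {K E T : Type} [Group K] [Group E] [Group T]

open Classical in
/-- The embedding of `K ≀ E` in `K ≀ T` for `E` embedded in `T`. -/
noncomputable def embTop (K : Type) [Group K] (j : E →* T) (hj : Function.Injective j) :
    Wr K E →* Wr K T where
  toFun w := ⟨Function.extend j w.f 1, j w.t⟩
  map_one' := by
    refine Wr.ext (funext fun x => ?_) (map_one j)
    by_cases h : ∃ e, j e = x
    · obtain ⟨e, rfl⟩ := h
      simp [hj.extend_apply]
    · simp [Function.extend_apply' _ _ _ h]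
  map_mul' a b := by
    refine Wr.ext (funext fun x => ?_) (map_mul j _ _)
    by_cases h : ∃ e, j e = x
    · obtain ⟨e, rfl⟩ := h
      simp only [hj.extend_apply, mul_f]
      rw [← map_inv, ← map_mul, hj.extend_apply]
    · have h' : ¬ ∃ e, j e = (j a.t)⁻¹ * x := by
        rintro ⟨e, he⟩
        exact h ⟨a.t * e, by rw [map_mul, he]; group⟩
      simp only [mul_f]
      rw [Function.extend_apply' _ _ _ h, Function.extend_apply' _ _ _ h,
        Function.extend_apply' _ _ _ h']
      simp

lemma embTop_injective (j : E →* T) (hj : Function.Injective j) :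
    Function.Injective (embTop K j hj) := by
  intro a b h
  have h1 : Function.extend j a.f 1 = Function.extend j b.f 1 := congrArg Wr.f h
  refine Wr.ext (funext fun e => ?_) (hj (congrArg Wr.t h))
  have := congrFun h1 (j e)
  rwa [hj.extend_apply, hj.extend_apply] at this

lemma card_wr [Finite T] : Nat.card (Wr K T) = Nat.card K ^ Nat.card T * Nat.card T := by
  have e : Wr K T ≃ (T → K) × T :=
    { toFun := fun w => (w.f, w.t)
      invFun := fun p => ⟨p.1, p.2⟩
      left_inv := fun _ => rfl
      right_inv := fun _ => rfl }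
  rw [Nat.card_congr e, Nat.card_prod, Nat.card_fun]

end Wr

/-- the class of `Z_q ≀ Z_q ^ m` is at least `m + 1` -/
theorem lcs_wr_ne_bot (q : ℕ) [Fact q.Prime] (m : ℕ) :
    (⊤ : Subgroup (Wr (Zp q) (Fin m → Zp q))).lowerCentralSeries m ≠ ⊥ := by
  classical
  obtain ⟨ζ, hζ⟩ := exists_ne (1 : Zp q)
  have key : ∀ i ≤ m, ∃ f : (Fin m → Zp q) → Zp q,
      Wr.inl f ∈ (⊤ : Subgroup (Wr (Zp q) (Fin m → Zp q))).lowerCentralSeries i ∧ f 1 ≠ 1 ∧
      ∀ x, f x ≠ 1 → ∀ j : Fin m, i ≤ j → x j = 1 := by
    intro i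
    induction i with
    | zero =>
      intro _
      refine ⟨Pi.mulSingle 1 ζ, Subgroup.mem_top _, by simpa using hζ, ?_⟩
      intro x hx j _
      by_contra h
      have : x ≠ 1 := by
        rintro rfl; exact h rfl
      rw [Pi.mulSingle_eq_of_ne this] at hx
      exact hx rfl
    | succ i ih =>
      intro hi
      obtain ⟨f, hf, hf1, hfs⟩ := ih (by omega)
      let z : Fin m → Zp q := Pi.mulSingle ⟨i, hi⟩ ζ
      refine ⟨fun x => f x * (f (z⁻¹ * x))⁻¹, ?_, ?_, ?_⟩
      · rw [Subgroup.lowerCentralSeries_succ]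
        have h1 := Subgroup.commutator_mem_commutator hf
          (Subgroup.mem_top (Wr.inr z : Wr (Zp q) (Fin m → Zp q)))
        convert h1 using 1
        rw [commutatorElement_def]
        refine Wr.ext (funext fun x => ?_) ?_
        · simp
        · simp
      · have h2 : f z⁻¹ = 1 := by
          by_contra h
          have := hfs _ h ⟨i, hi⟩ le_rfl
          simp only [z, Pi.inv_apply, Pi.mulSingle_eq_same, inv_eq_one] at this
          exact hζ this
        simp only [mul_one, h2, inv_one]
        exact hf1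
      · intro x hx j hj
        by_cases h : f x = 1
        · have h3 : f (z⁻¹ * x) ≠ 1 := by
            intro h4
            apply hx
            simp only [h, h4, inv_one, mul_one]
          have h5 := hfs _ h3 j (by omega)
          have h6 : j ≠ ⟨i, hi⟩ := by
            rintro rfl; simp at hj
          simpa [z, Pi.mulSingle_eq_of_ne h6] using h5
        · exact hfs x h j (by omega)
  obtain ⟨f, hf, hf1, -⟩ := key m le_rfl
  intro h
  rw [h, Subgroup.mem_bot] at hf
  exact hf1 (congrFun (congrArg Wr.f hf) 1)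

lemma exists_Zp_emb {q : ℕ} [hq : Fact q.Prime] {S : Type} [Group S] [Finite S]
    (h : q ∣ Nat.card S) : ∃ i : Zp q →* S, Function.Injective i := by
  obtain ⟨s, hs⟩ := exists_prime_orderOf_dvd_card' (G := S) q h
  have h1 : Nat.card (Subgroup.zpowers s) = q := by rw [Nat.card_zpowers, hs]
  let e : Zp q ≃* Subgroup.zpowers s := mulEquivOfPrimeCardEq (card_Zp q) h1
  exact ⟨(Subgroup.zpowers s).subtype.comp e.toMonoidHom,
    (Subgroup.subtype_injective _).comp e.injective⟩

theorem not_mem_wr_of_dvd {V : Formation} {c : ℕ} (hV : SubClosed V) (hc : ClassBdd V c) {q : ℕ}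
    [hq : Fact q.Prime] {S T : Type} [Group S] [Finite S] [Group T] (h : q ∣ Nat.card S)
    (j : (Fin c → S) →* T) (hj : Function.Injective j) : ¬ V.Mem (Wr (Zp q) T) := by
  intro hm
  obtain ⟨i, hi⟩ := exists_Zp_emb h
  let j' : (Fin c → Zp q) →* (Fin c → S) :=
    { toFun := fun f x => i (f x)
      map_one' := by ext; simp
      map_mul' := fun a b => by ext; simp }
  have hj' : Function.Injective j' := by
    intro a b hab
    ext x
    exact congrArg _ (hi (congrFun hab x))
  have h1 : V.Mem (Wr (Zp q) (Fin c → Zp q)) :=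
    hV (Wr.embTop (Zp q) (j.comp j') (hj.comp hj')) (Wr.embTop_injective _ _) hm
  refine lcs_wr_ne_bot q c (hc q _ h1 ?_)
  apply IsPGroup.of_card (n := Nat.card (Fin c → Zp q) + c)
  rw [Wr.card_wr, card_Zp, pow_add]
  congr 1
  rw [Nat.card_fun, card_Zp]
  simp

theorem exists_coprime {V : Formation} {g c : ℕ} (hV : SubClosed V) (hg : ChiefBdd V g)
    (hc : ClassBdd V c) {Y S T : Type} [Group Y]
    [Finite Y] [Group T] [Finite T] [Group S] [Finite S] (hT : g < Nat.card T)
    (j : (Fin c → S) →* T) (hj : Function.Injective j) (h : (Nil * V).Mem (Wr Y T))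
    (hY : ¬ Group.IsNilpotent Y) : ∃ (N : Subgroup Y) (_ : N.Normal), Group.IsNilpotent N ∧
      ∀ q : ℕ, q.Prime → q ∣ Nat.card S → ¬ q ∣ Nat.card (Y ⧸ N) := by
  obtain ⟨N, hN, h1, h2, h3⟩ := exists_of_wr_mem hg hT h hY
  refine ⟨N, hN, h1, fun q hq hqS hqN => ?_⟩
  have := Fact.mk hq
  obtain ⟨χ, hχ⟩ := exists_surj_of_nilpotent (p := q) hqN
  exact not_mem_wr_of_dvd hV hc hqS j hj (V.quot (Wr.map χ) (Wr.map_surjective _ hχ) h3)

end Pool.Agent.Helper46.Form
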