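import Pool.Agent.Helper46.Form.Defs

/-!
The Bryant-Bryce-Hartley lemma: if `N` is a nilpotent normal subgroup of the finite group `G` and
`H N = G` then `H` belongs to every formation containing `G`.
-/

namespace Pool.Agent.Helper46.Form

open Formation

/-- A filtration of a group. -/
structure Filt (G : Type) [Group G] (Γ : ℕ → Subgroup G) : Prop where
  zero : Γ 0 = ⊤
  anti : ∀ i, Γ (i + 1) ≤ Γ i
  comm : ∀ i j, ∀ a ∈ Γ i, ∀ b ∈ Γ j, a * b * a⁻¹ * b⁻¹ ∈ Γ (i + j)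

namespace Filt

variable {G : Type} [Group G] {Γ : ℕ → Subgroup G}

lemma conj (h : Filt G Γ) (i : ℕ) {a : G} (ha : a ∈ Γ i) (g : G) : g * a * g⁻¹ ∈ Γ i := by
  have h1 : g * a * g⁻¹ * a⁻¹ ∈ Γ (0 + i) := h.comm 0 i g (by rw [h.zero]; trivial) a ha
  rw [zero_add] at h1
  have := (Γ i).mul_mem h1 ha
  simpa using this

lemma normal (h : Filt G Γ) (i : ℕ) : (Γ i).Normal := ⟨fun _ ha g => h.conj i ha g⟩

/-- The group `G₁` of pairs congruent modulo `Γ 1`. -/
def pairs (h : Filt G Γ) : Subgroup (G × G) where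
  carrier := {p | p.1⁻¹ * p.2 ∈ Γ 1}
  one_mem' := by simp
  mul_mem' := by
    intro a b ha hb
    simp only [Set.mem_ofPred_eq, Prod.fst_mul, Prod.snd_mul, mul_inv_rev] at *
    have := (Γ 1).mul_mem (h.conj 1 ha b.1⁻¹) hb
    have e : b.1⁻¹ * a.1⁻¹ * (a.2 * b.2) = b.1⁻¹ * (a.1⁻¹ * a.2) * b.1⁻¹⁻¹ * (b.1⁻¹ * b.2) := by
      group
    rw [e]; exact this
  inv_mem' := by
    intro a ha
    simp only [Set.mem_ofPred_eq, Prod.fst_inv, Prod.snd_inv, inv_inv] at *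
    have := (Γ 1).inv_mem (h.conj 1 ha a.1)
    have e : (a.1 * (a.1⁻¹ * a.2) * a.1⁻¹)⁻¹ = a.1 * a.2⁻¹ := by group
    rwa [e] at this

lemma mem_pairs (h : Filt G Γ) {p : G × G} : p ∈ h.pairs ↔ p.1⁻¹ * p.2 ∈ Γ 1 := Iff.rfl

/-- The filtration on pairs. -/
def Γ' (h : Filt G Γ) (i : ℕ) : Subgroup h.pairs where
  carrier := {p | p.1.1 ∈ Γ i ∧ p.1.1⁻¹ * p.1.2 ∈ Γ (i + 1)}
  one_mem' := by simp
  mul_mem' := by
    rintro a b ⟨ha, ha'⟩ ⟨hb, hb'⟩
    refine ⟨(Γ i).mul_mem ha hb, ?_⟩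
    have := (Γ (i + 1)).mul_mem (h.conj (i + 1) ha' b.1.1⁻¹) hb'
    have e : (a.1 * b.1).1⁻¹ * (a.1 * b.1).2 =
      b.1.1⁻¹ * (a.1.1⁻¹ * a.1.2) * b.1.1⁻¹⁻¹ * (b.1.1⁻¹ * b.1.2) := by
      simp only [Prod.fst_mul, Prod.snd_mul]; group
    change (a.1 * b.1).1⁻¹ * (a.1 * b.1).2 ∈ Γ (i + 1)
    rw [e]; exact this
  inv_mem' := by
    rintro a ⟨ha, ha'⟩
    refine ⟨(Γ i).inv_mem ha, ?_⟩
    have := (Γ (i + 1)).inv_mem (h.conj (i + 1) ha' a.1.1)
    have e : (a.1.1 * (a.1.1⁻¹ * a.1.2) * a.1.1⁻¹)⁻¹ = (a.1⁻¹).1⁻¹ * (a.1⁻¹).2 := by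
      simp only [Prod.fst_inv, Prod.snd_inv]; group
    change (a.1⁻¹).1⁻¹ * (a.1⁻¹).2 ∈ Γ (i + 1)
    rwa [e] at this

lemma mem_Γ' (h : Filt G Γ) {i : ℕ} {p : h.pairs} :
    p ∈ h.Γ' i ↔ p.1.1 ∈ Γ i ∧ p.1.1⁻¹ * p.1.2 ∈ Γ (i + 1) := Iff.rfl

lemma comm_mod (h : Filt G Γ) (i j : ℕ) {a x c y : G} (ha : a ∈ Γ i) (hx : x ∈ Γ (i + 1))
    (hc : c ∈ Γ j) (hy : y ∈ Γ (j + 1)) :
    (a * c * a⁻¹ * c⁻¹)⁻¹ * ((a * x) * (c * y) * (a * x)⁻¹ * (c * y)⁻¹) ∈ Γ (i + j + 1) := by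
  have := h.normal (i + j + 1)
  have hxi : x ∈ Γ i := h.anti i hx
  have hyj : y ∈ Γ j := h.anti j hy
  have h1 : x * (c * y) * x⁻¹ * (c * y)⁻¹ ∈ Γ (i + 1 + j) :=
    h.comm (i + 1) j x hx (c * y) ((Γ j).mul_mem hc hyj)
  have h2 : a * y * a⁻¹ * y⁻¹ ∈ Γ (i + (j + 1)) := h.comm i (j + 1) a ha y hy
  rw [show i + 1 + j = i + j + 1 by ring] at h1
  rw [show i + (j + 1) = i + j + 1 by ring] at h2
  rw [← QuotientGroup.eq_one_iff] at h1 h2 ⊢
  simp only [QuotientGroup.mk_mul, QuotientGroup.mk_inv] at h1 h2 ⊢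
  set A : G ⧸ Γ (i + j + 1) := (a : G ⧸ Γ (i + j + 1))
  set B : G ⧸ Γ (i + j + 1) := (x : G ⧸ Γ (i + j + 1))
  set C : G ⧸ Γ (i + j + 1) := (c : G ⧸ Γ (i + j + 1))
  set D : G ⧸ Γ (i + j + 1) := (y : G ⧸ Γ (i + j + 1))
  have e1 : B * (C * D) = (C * D) * B := by
    have := congrArg (fun z => z * ((C * D) * B)) h1
    simpa [mul_assoc] using this
  have e2 : A * D = D * A := by
    have := congrArg (fun z => z * (D * A)) h2
    simpa [mul_assoc] using this
  have e3 : A * B * (C * D) = A * C * D * B := by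
    rw [mul_assoc A B, e1]; simp only [mul_assoc]
  rw [show A * B * (C * D) * (A * B)⁻¹ * (C * D)⁻¹ = A * C * A⁻¹ * C⁻¹ by
    rw [e3, mul_inv_rev, mul_inv_rev]
    have : A * C * D * B * (B⁻¹ * A⁻¹) = A * C * (D * A⁻¹) := by group
    rw [this]
    have e4 : D * A⁻¹ = A⁻¹ * D := by
      have := congrArg (fun z => A⁻¹ * z * A⁻¹) e2
      simpa [mul_assoc] using this
    rw [e4]; group]
  group

lemma filt' (h : Filt G Γ) : Filt h.pairs h.Γ' where
  zero := by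
    rw [eq_top_iff]
    intro p _
    rw [mem_Γ', h.zero]
    exact ⟨trivial, p.2⟩
  anti := by
    intro i p hp
    rw [mem_Γ'] at hp ⊢
    exact ⟨h.anti i hp.1, h.anti (i + 1) hp.2⟩
  comm := by
    intro i j a ha b hb
    rw [mem_Γ'] at ha hb ⊢
    refine ⟨h.comm i j _ ha.1 _ hb.1, ?_⟩
    have := h.comm_mod i j ha.1 ha.2 hb.1 hb.2
    simpa [mul_assoc] using this

end Filt

theorem BBH_aux (X : Formation) (k : ℕ) :
    ∀ (G : Type) [Group G] [Finite G] (Γ : ℕ → Subgroup G), Filt G Γ → X.Mem G →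
    ∀ H : Subgroup G, (∀ g, ∃ h ∈ H, h⁻¹ * g ∈ Γ 1) → ∀ (Q : Type) [Group Q] (ψ : H →* Q),
    Function.Surjective ψ → (∀ x : H, (x : G) ∈ Γ (k + 1) → ψ x = 1) → X.Mem Q := by
  induction k with
  | zero =>
    intro G _ _ Γ hΓ hG H hH Q _ ψ hψ hk
    have := hΓ.normal 1
    have hsurj : Function.Surjective ((QuotientGroup.mk' (Γ 1)).comp H.subtype) := by
      intro x
      obtain ⟨g, rfl⟩ := QuotientGroup.mk_surjective x
      obtain ⟨h, hh, hg⟩ := hH g
      refine ⟨⟨h, hh⟩, ?_⟩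
      simp only [MonoidHom.comp_apply, Subgroup.subtype_apply, QuotientGroup.mk'_apply]
      rw [QuotientGroup.eq]
      exact hg
    have hm : X.Mem (G ⧸ Γ 1) := X.quot (QuotientGroup.mk' (Γ 1))
      (QuotientGroup.mk'_surjective _) hG
    refine mem_of_res_le_ker ψ hψ (res_ker_of_mem _ hsurj hm) ?_
    intro x hx
    rw [MonoidHom.mem_ker] at hx ⊢
    apply hk
    simpa using hx
  | succ k ih =>
    intro G _ _ Γ hΓ hG H hH Q _ ψ hψ hk
    have hG₁ : X.Mem hΓ.pairs := by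
      refine mem_of_two (G := hΓ.pairs) ((MonoidHom.fst G G).comp hΓ.pairs.subtype)
        ((MonoidHom.snd G G).comp hΓ.pairs.subtype) ?_ ?_ hG hG (MonoidHom.id _)
        Function.surjective_id ?_
      · intro g
        exact ⟨⟨(g, g), by simp [hΓ.mem_pairs]⟩, rfl⟩
      · intro g
        exact ⟨⟨(g, g), by simp [hΓ.mem_pairs]⟩, rfl⟩
      · intro x h1 h2
        apply Subtype.ext
        exact Prod.ext h1 h2
    let H₁ : Subgroup hΓ.pairs := H.comap ((MonoidHom.fst G G).comp hΓ.pairs.subtype)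
    have hH₁ : ∀ p : hΓ.pairs, p ∈ H₁ ↔ p.1.1 ∈ H := fun p => Iff.rfl
    have hN : (hΓ.Γ' (k + 1)).Normal := hΓ.filt'.normal _
    have hQ₁ : X.Mem (H₁ ⧸ (hΓ.Γ' (k + 1)).subgroupOf H₁) := by
      refine ih hΓ.pairs hΓ.Γ' hΓ.filt' hG₁ H₁ ?_ _
        (QuotientGroup.mk' ((hΓ.Γ' (k + 1)).subgroupOf H₁)) (QuotientGroup.mk'_surjective _) ?_
      · intro p
        obtain ⟨h, hh, hg⟩ := hH p.1.1
        -- `p = (h, b γ⁻¹) (γ, γ)` with `γ = h⁻¹ p.1`
        have hp := hΓ.mem_pairs.1 p.2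
        have hmem : ((h, p.1.2 * (h⁻¹ * p.1.1)⁻¹) : G × G) ∈ hΓ.pairs := by
          rw [hΓ.mem_pairs]
          have := hΓ.conj 1 hp (h⁻¹ * p.1.1)
          have e : h⁻¹ * p.1.1 * (p.1.1⁻¹ * p.1.2) * (h⁻¹ * p.1.1)⁻¹ =
            h⁻¹ * (p.1.2 * (h⁻¹ * p.1.1)⁻¹) := by group
          rw [e] at this
          exact this
        refine ⟨⟨_, hmem⟩, hh, ?_⟩
        rw [hΓ.mem_Γ']
        refine ⟨hg, ?_⟩
        have e : ((((⟨_, hmem⟩ : hΓ.pairs)⁻¹ * p : hΓ.pairs)).1.1)⁻¹ *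
          (((⟨_, hmem⟩ : hΓ.pairs)⁻¹ * p : hΓ.pairs)).1.2 = 1 := by
          simp only [Subgroup.coe_mul, Subgroup.coe_inv, Prod.fst_mul, Prod.fst_inv,
            Prod.snd_mul, Prod.snd_inv]
          group
        rw [e]
        exact one_mem _
      · intro x hx
        rw [QuotientGroup.mk'_apply, QuotientGroup.eq_one_iff]
        exact hx
    let f₁ : H₁ →* H :=
      (((MonoidHom.fst G G).comp hΓ.pairs.subtype).comp H₁.subtype).codRestrict H fun x => x.2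
    refine mem_of_two (G := H₁) (((MonoidHom.snd G G).comp hΓ.pairs.subtype).comp H₁.subtype)
      (QuotientGroup.mk' ((hΓ.Γ' (k + 1)).subgroupOf H₁)) ?_ (QuotientGroup.mk'_surjective _)
      hG hQ₁ (ψ.comp f₁) ?_ ?_
    · intro g
      obtain ⟨h, hh, hg⟩ := hH g
      exact ⟨⟨⟨(h, g), hg⟩, hh⟩, rfl⟩
    · refine hψ.comp ?_
      rintro ⟨h, hh⟩
      exact ⟨⟨⟨(h, h), by simp [hΓ.mem_pairs]⟩, hh⟩, rfl⟩
    · intro x hx1 hx2
      rw [QuotientGroup.mk'_apply, QuotientGroup.eq_one_iff, Subgroup.mem_subgroupOf,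
        hΓ.mem_Γ'] at hx2
      apply hk
      change x.1.1.1 ∈ _
      have h1 : x.1.1.2 = 1 := hx1
      have h2 := hx2.2
      rw [h1, mul_one] at h2
      simpa using h2

lemma three_subgroups_le {G : Type} [Group G] (H₁ H₂ H₃ K : Subgroup G) [K.Normal]
    (h1 : ⁅⁅H₂, H₃⁆, H₁⁆ ≤ K) (h2 : ⁅⁅H₃, H₁⁆, H₂⁆ ≤ K) : ⁅⁅H₁, H₂⁆, H₃⁆ ≤ K := by
  have key : ∀ L : Subgroup G, L ≤ K ↔ L.map (QuotientGroup.mk' K) = ⊥ := by
    intro L
    rw [Subgroup.map_eq_bot_iff, QuotientGroup.ker_mk']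
  rw [key] at *
  rw [Subgroup.map_commutator, Subgroup.map_commutator] at *
  exact Subgroup.commutator_commutator_eq_bot_of_rotate h1 h2

lemma commutator_lcs_le {G : Type} [Group G] (N : Subgroup G) [N.Normal] (j : ℕ) :
    ∀ i, ⁅N.lowerCentralSeries i, N.lowerCentralSeries j⁆ ≤ N.lowerCentralSeries (i + j + 1) := by
  induction j with
  | zero => intro i; simp [Subgroup.lowerCentralSeries_succ]
  | succ j ih =>
    intro i
    rw [Subgroup.lowerCentralSeries_succ N j,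
      Subgroup.commutator_comm (N.lowerCentralSeries i)]
    apply three_subgroups_le
    · rw [Subgroup.commutator_comm N, ← Subgroup.lowerCentralSeries_succ]
      refine (ih (i + 1)).trans (le_of_eq ?_)
      congr 1; ring
    · refine (Subgroup.commutator_mono (ih i) le_rfl).trans (le_of_eq ?_)
      rw [← Subgroup.lowerCentralSeries_succ]
      congr 1

/-- The filtration attached to a normal subgroup. -/
def lcsFilt {G : Type} [Group G] (N : Subgroup G) : ℕ → Subgroup G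
  | 0 => ⊤
  | n + 1 => N.lowerCentralSeries n

lemma lcsFilt_filt {G : Type} [Group G] (N : Subgroup G) [N.Normal] : Filt G (lcsFilt N) where
  zero := rfl
  anti := by
    intro i
    cases i with
    | zero => exact le_top
    | succ n => exact N.lowerCentralSeries_antitone (Nat.le_succ n)
  comm := by
    intro i j a ha b hb
    have key : ⁅lcsFilt N i, lcsFilt N j⁆ ≤ lcsFilt N (i + j) := by
      cases i with
      | zero =>
        cases j with
        | zero => exact le_top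
        | succ j =>
          rw [zero_add]
          change ⁅(⊤ : Subgroup G), N.lowerCentralSeries j⁆ ≤ N.lowerCentralSeries j
          exact Subgroup.commutator_le_right _ _
      | succ i =>
        cases j with
        | zero =>
          rw [add_zero]
          change ⁅N.lowerCentralSeries i, (⊤ : Subgroup G)⁆ ≤ N.lowerCentralSeries i
          exact Subgroup.commutator_le_left _ _
        | succ j =>
          have := commutator_lcs_le N j i
          rw [show i + 1 + (j + 1) = (i + j + 1) + 1 by ring]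
          exact this
    have := key (Subgroup.commutator_mem_commutator ha hb)
    simpa [commutatorElement_def] using this

/-- Bryant-Bryce-Hartley. -/
theorem BBH (X : Formation) {G : Type} [Group G] [Finite G] (N : Subgroup G) [N.Normal]
    [Group.IsNilpotent N] (H : Subgroup G) (hH : ∀ g, ∃ h ∈ H, h⁻¹ * g ∈ N) (hG : X.Mem G) :
    X.Mem H := by
  obtain ⟨n, hn⟩ := (Subgroup.isNilpotent_iff_lowerCentralSeries N).1 inferInstance
  refine BBH_aux X n G (lcsFilt N) (lcsFilt_filt N) hG H ?_ H (MonoidHom.id H)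
    Function.surjective_id ?_
  · exact hH
  · intro x hx
    have hx' : (x : G) ∈ N.lowerCentralSeries n := hx
    rw [hn, Subgroup.mem_bot] at hx'
    exact Subtype.ext hx'

/-- Bryant-Bryce-Hartley for an injective homomorphism. -/
theorem BBH_hom (X : Formation) {G H : Type} [Group G] [Finite G] [Group H] (N : Subgroup G)
    [N.Normal] [Group.IsNilpotent N] (i : H →* G) (hi : Function.Injective i)
    (hH : ∀ g, ∃ h, (i h)⁻¹ * g ∈ N) (hG : X.Mem G) : X.Mem H := by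
  have h1 : X.Mem i.range := by
    refine BBH X N i.range ?_ hG
    intro g
    obtain ⟨h, hh⟩ := hH g
    exact ⟨i h, ⟨h, rfl⟩, hh⟩
  exact (mem_iso (MonoidHom.ofInjective hi)).2 h1

/-- A formation of nilpotent groups is closed under subgroups. -/
theorem mem_of_injective_of_nilpotent (X : Formation) {G H : Type} [Group G] [Finite G] [Group H]
    [Group.IsNilpotent G] (i : H →* G) (hi : Function.Injective i) (hG : X.Mem G) : X.Mem H := by
  have : Group.IsNilpotent (⊤ : Subgroup G) := inferInstance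
  exact BBH_hom X ⊤ i hi (fun g => ⟨1, Subgroup.mem_top _⟩) hG

end Pool.Agent.Helper46.Form
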