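import Pool.Agent.Helper46.Form.Wr2

/-!
Homomorphisms to cyclic groups of prime order.
-/

namespace Pool.Agent.Helper46.Form

open Formation

/-- the cyclic group of order `p` -/
abbrev Zp (p : ℕ) : Type := Multiplicative (ZMod p)

instance (p : ℕ) [Fact p.Prime] : Finite (Zp p) := inferInstance

lemma card_Zp (p : ℕ) [Fact p.Prime] : Nat.card (Zp p) = p := by
  simp

lemma Zp_pow (p : ℕ) [Fact p.Prime] (x : Zp p) : x ^ p = 1 := by
  have := pow_card_eq_one' (x := x)
  rwa [card_Zp] at this

instance (p : ℕ) [Fact p.Prime] : Nontrivial (Zp p) := inferInstance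

/-- a nontrivial homomorphism to `Zp p` is surjective -/
lemma surjective_of_ne_one {p : ℕ} [Fact p.Prime] {G : Type} [Group G] (χ : G →* Zp p) (g : G)
    (hg : χ g ≠ 1) : Function.Surjective χ := by
  have h2 : χ.range = ⊥ ∨ χ.range = ⊤ := by
    have : IsSimpleGroup (Zp p) := isSimpleGroup_of_prime_card (card_Zp p)
    exact (inferInstance : χ.range.Normal).eq_bot_or_eq_top
  rcases h2 with h | h
  · exfalso
    apply hg
    have : χ g ∈ χ.range := ⟨g, rfl⟩
    rwa [h, Subgroup.mem_bot] at this
  · exact MonoidHom.range_eq_top.1 h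

lemma exists_dual_ne {K V : Type} [Field K] [AddCommGroup V] [Module K V] {v : V} (hv : v ≠ 0) :
    ∃ f : V →ₗ[K] K, f v ≠ 0 := Module.Projective.exists_dual_ne_zero K hv

/-- Elementary abelian groups have enough homomorphisms to `Zp p`. -/
lemma exists_char {p : ℕ} [Fact p.Prime] {Q : Type} [CommGroup Q] (h : ∀ x : Q, x ^ p = 1) {q : Q}
    (hq : q ≠ 1) : ∃ χ : Q →* Zp p, χ q ≠ 1 := by
  let _ : Module (ZMod p) (Additive Q) := AddCommGroup.zmodModule (n := p) (G := Additive Q)
    (fun x => by
      have := h x.toMul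
      exact this)
  have hne : (Additive.ofMul q : Additive Q) ≠ 0 := by
    intro h
    exact hq (by simpa using h)
  obtain ⟨φ, hφ⟩ := exists_dual_ne (K := ZMod p) (V := Additive Q) hne
  refine ⟨AddMonoidHom.toMultiplicativeRight φ.toAddMonoidHom, ?_⟩
  intro h
  exact hφ h

/-- The `p`-th power endomorphism of a commutative group. -/
lemma exists_surj_of_comm {p : ℕ} [hp : Fact p.Prime] {A : Type} [CommGroup A] [Finite A]
    (h : p ∣ Nat.card A) : ∃ χ : A →* Zp p, Function.Surjective χ := by
  have h1 : (powMonoidHom p : A →* A).range ≠ ⊤ := by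
    intro h2
    have h3 : Function.Surjective (powMonoidHom p : A →* A) := MonoidHom.range_eq_top.1 h2
    have h4 : Function.Injective (powMonoidHom p : A →* A) := Finite.injective_iff_surjective.2 h3
    obtain ⟨x, hx⟩ := exists_prime_orderOf_dvd_card' (G := A) p h
    have h5 : x ^ p = 1 := by rw [← hx]; exact pow_orderOf_eq_one x
    have h6 : x = 1 := h4 (by simpa using h5)
    rw [h6, orderOf_one] at hx
    exact hp.out.one_lt.ne hx
  obtain ⟨a, ha⟩ : ∃ a, a ∉ (powMonoidHom p : A →* A).range := by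
    by_contra hcon
    push Not at hcon
    exact h1 (eq_top_iff.2 fun x _ => hcon x)
  obtain ⟨χ, hχ⟩ := exists_char (p := p) (Q := A ⧸ (powMonoidHom p : A →* A).range)
    (fun x => by
      obtain ⟨y, rfl⟩ := QuotientGroup.mk_surjective x
      rw [← QuotientGroup.mk_pow, QuotientGroup.eq_one_iff]
      exact ⟨y, rfl⟩) (q := (a : A ⧸ (powMonoidHom p : A →* A).range))
    (by rwa [Ne, QuotientGroup.eq_one_iff])
  exact ⟨χ.comp (QuotientGroup.mk' _), surjective_of_ne_one _ a hχ⟩

/-- A nontrivial finite solvable group has a quotient of prime order. -/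
lemma exists_surj_of_solvable {U : Type} [Group U] [Finite U] [Nontrivial U]
    [Group.IsSolvable U] : ∃ p, p.Prime ∧ p ∣ Nat.card U ∧
      ∃ χ : U →* Zp p, Function.Surjective χ := by
  have h1 : commutator U < ⊤ := Group.IsSolvable.commutator_lt_top_of_nontrivial U
  have h2 : Nontrivial (Abelianization U) := by
    rw [← not_subsingleton_iff_nontrivial]
    intro h
    have := QuotientGroup.subsingleton_iff.1 h
    exact h1.ne this
  have h3 : Nat.card (Abelianization U) ≠ 1 := by
    have := Finite.one_lt_card (α := Abelianization U)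
    omega
  obtain ⟨p, hp, hd⟩ := Nat.exists_prime_and_dvd h3
  have := Fact.mk hp
  obtain ⟨χ, hχ⟩ := exists_surj_of_comm (p := p) hd
  refine ⟨p, hp, hd.trans ?_, χ.comp Abelianization.of, hχ.comp (QuotientGroup.mk_surjective)⟩
  exact Subgroup.card_quotient_dvd_card _

/-- A finite nilpotent group of order divisible by `p` has a quotient of order `p`. -/
lemma exists_surj_of_nilpotent {p : ℕ} [hp : Fact p.Prime] {U : Type} [Group U] [Finite U]
    [hU : Group.IsNilpotent U] (h : p ∣ Nat.card U) :
    ∃ χ : U →* Zp p, Function.Surjective χ := by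
  obtain ⟨e⟩ := (Group.isNilpotent_of_finite_tfae (G := U)).out 0 4 |>.1 hU
  have hpm : p ∈ (Nat.card U).primeFactors := by
    rw [Nat.mem_primeFactors]
    exact ⟨hp.out, h, Nat.card_pos.ne'⟩
  let P : Sylow p U := default
  let f₁ : (∀ P : Sylow p U, (↑P : Subgroup U)) →* (↑P : Subgroup U) :=
    Pi.evalMonoidHom (fun P : Sylow p U => (↑P : Subgroup U)) P
  have hf₁ : Function.Surjective f₁ :=
    Function.surjective_eval (β := fun P : Sylow p U => (↑P : Subgroup U)) P
  let f₂ : (∀ p : (Nat.card U).primeFactors, ∀ P : Sylow p U, (↑P : Subgroup U)) →*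
      (∀ P : Sylow p U, (↑P : Subgroup U)) := Pi.evalMonoidHom
        (fun p : (Nat.card U).primeFactors => ∀ P : Sylow p U, (↑P : Subgroup U)) ⟨p, hpm⟩
  have hf₂ : Function.Surjective f₂ := Function.surjective_eval
    (β := fun p : (Nat.card U).primeFactors => ∀ P : Sylow p U, (↑P : Subgroup U)) ⟨p, hpm⟩
  let f : U →* (↑P : Subgroup U) := (f₁.comp f₂).comp e.symm.toMonoidHom
  have hf : Function.Surjective f := (hf₁.comp hf₂).comp e.symm.surjective
  have hP : Nontrivial P := by
    rw [← not_subsingleton_iff_nontrivial]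
    intro hs
    have h1 := P.dvd_card_of_dvd_card h
    rw [Nat.card_of_subsingleton (1 : (↑P : Subgroup U))] at h1
    exact hp.out.one_lt.ne' (Nat.dvd_one.1 h1)
  have hPn : Group.IsNilpotent P := P.isPGroup'.isNilpotent
  obtain ⟨q, hq, hqd, χ, hχ⟩ := exists_surj_of_solvable (U := P)
  have : q = p := by
    obtain ⟨n, hn⟩ := (IsPGroup.iff_card (p := p)).1 P.isPGroup'
    rw [hn] at hqd
    exact (Nat.prime_dvd_prime_iff_eq hq hp.out).1 (hq.dvd_of_dvd_pow hqd)
  subst this
  exact ⟨χ.comp f, hχ.comp hf⟩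

end Pool.Agent.Helper46.Form
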