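import Pool.Agent.Helper46.Form.Full

/-!
Comparison lemmas.
-/

namespace Pool.Agent.Helper46.Form

open Formation

lemma commute_of_nilpotent {N : Type} [Group N] [Finite N] [Group.IsNilpotent N] {r q : ℕ}
    [Fact r.Prime] [Fact q.Prime] (hrq : r ≠ q) {x y : N} {a b : ℕ} (hx : x ^ r ^ a = 1)
    (hy : y ^ q ^ b = 1) : Commute x y := by
  have h1 : IsPGroup r (Subgroup.zpowers x) := by
    rintro ⟨z, hz⟩
    obtain ⟨k, rfl⟩ := Subgroup.mem_zpowers_iff.1 hz
    refine ⟨a, Subtype.ext ?_⟩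
    simp only [SubmonoidClass.coe_pow, OneMemClass.coe_one]
    rw [← zpow_natCast, ← zpow_mul, mul_comm, zpow_mul, zpow_natCast, hx, one_zpow]
  have h2 : IsPGroup q (Subgroup.zpowers y) := by
    rintro ⟨z, hz⟩
    obtain ⟨k, rfl⟩ := Subgroup.mem_zpowers_iff.1 hz
    refine ⟨b, Subtype.ext ?_⟩
    simp only [SubmonoidClass.coe_pow, OneMemClass.coe_one]
    rw [← zpow_natCast, ← zpow_mul, mul_comm, zpow_mul, zpow_natCast, hy, one_zpow]
  obtain ⟨P, hP⟩ := h1.exists_le_sylow
  obtain ⟨Q, hQ⟩ := h2.exists_le_sylow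
  have hd : Disjoint (P : Subgroup N) (Q : Subgroup N) :=
    IsPGroup.disjoint_of_ne r q hrq _ _ P.isPGroup' Q.isPGroup'
  exact Subgroup.commute_of_normal_of_disjoint _ _ inferInstance inferInstance hd x y
    (hP (Subgroup.mem_zpowers x)) (hQ (Subgroup.mem_zpowers y))

lemma isPGroup_of_prime_dvd {q : ℕ} {H : Type} [Group H] [Finite H]
    (h : ∀ r, r.Prime → r ∣ Nat.card H → r = q) : IsPGroup q H :=
  IsPGroup.of_card (Nat.eq_prime_pow_of_unique_prime_dvd Nat.card_pos.ne' fun {d} hd hdc =>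
    h d hd hdc)

theorem isPGroup_map_right_aux {q : ℕ} [hq : Fact q.Prime] {T : Type} [Group T] [Finite T]
    (R : Subgroup (Wr (Zp q) T)) [hR : R.Normal] [Group.IsNilpotent R] :
    IsPGroup q (R.map Wr.right) := by
  classical
  apply isPGroup_of_prime_dvd
  intro r hr hrd
  have hrf := Fact.mk hr
  by_contra hrq
  obtain ⟨⟨n, hn⟩, hn'⟩ := exists_prime_orderOf_dvd_card' (G := R.map Wr.right) r hrd
  rw [Subgroup.orderOf_mk] at hn'
  obtain ⟨w₀, hw₀, rfl⟩ := hn
  rw [Wr.right_apply] at hn'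
  -- pass to an `r`-element
  obtain ⟨a, m, hm, hord⟩ := Nat.exists_eq_pow_mul_and_not_dvd (orderOf_pos w₀).ne' r hr.ne_one
  set w := w₀ ^ m with hw
  have hwR : w ∈ R := R.pow_mem hw₀ m
  have hwr : w ^ r ^ a = 1 := by
    rw [hw, ← pow_mul, mul_comm, ← hord, pow_orderOf_eq_one]
  have hwt : w.t = w₀.t ^ m := map_pow Wr.right w₀ m
  have hwt1 : w.t ≠ 1 := by
    rw [hwt]
    intro h
    rw [← orderOf_dvd_iff_pow_eq_one, hn'] at h
    exact hm h
  have hwtr : w.t ^ r = 1 := by
    rw [hwt, ← pow_mul, mul_comm, pow_mul, ← hn', pow_orderOf_eq_one, one_pow]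
  obtain ⟨ζ, hζ⟩ := exists_ne (1 : Zp q)
  have hu := Wr.comm_single_mem hwR 1 ζ
  set u : Wr (Zp q) T := ⟨fun y => Pi.mulSingle (M := fun _ => Zp q) 1 ζ y *
      Pi.mulSingle (M := fun _ => Zp q) (w.t * 1) (w.f (w.t * 1) * ζ⁻¹ * (w.f (w.t * 1))⁻¹) y, 1⟩
    with hudef
  have huf : ∀ y, u.f y = Pi.mulSingle (M := fun _ => Zp q) 1 ζ y *
      Pi.mulSingle (M := fun _ => Zp q) w.t ζ⁻¹ y := by
    intro y
    rw [hudef]
    simp only [mul_one]
    congr 2
    rw [mul_comm (w.f w.t), mul_inv_cancel_right]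
  have huq : u ^ q ^ 1 = 1 := by
    rw [pow_one]
    have h1 : u = Wr.inl u.f := (Wr.inl_of_t_eq_one rfl).symm
    rw [h1, ← map_pow]
    have h2 : u.f ^ q = 1 := by
      ext1 y
      rw [Pi.pow_apply, Pi.one_apply, Zp_pow]
    rw [h2, map_one]
  have hcomm : Commute (⟨w, hwR⟩ : R) ⟨u, hu⟩ := by
    refine commute_of_nilpotent (r := r) (q := q) hrq (a := a) (b := 1) ?_ ?_
    · exact Subtype.ext hwr
    · exact Subtype.ext huq
  have hcomm' : w * u = u * w := congrArg Subtype.val hcomm.eq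
  have hut : u.t = 1 := rfl
  have hx : ∀ x, u.f (w.t⁻¹ * x) = u.f x := by
    intro x
    have h1 := congrFun (congrArg Wr.f hcomm') x
    simp only [Wr.mul_f, hut, inv_one, one_mul] at h1
    rw [mul_comm (u.f x)] at h1
    exact mul_left_cancel h1
  have h1 := hx w.t
  rw [inv_mul_cancel, huf, huf, Pi.mulSingle_eq_same, Pi.mulSingle_eq_same,
    Pi.mulSingle_eq_of_ne hwt1, Pi.mulSingle_eq_of_ne (Ne.symm hwt1), mul_one, one_mul] at h1
  have h2 := hx 1
  rw [mul_one, huf 1, Pi.mulSingle_eq_same, Pi.mulSingle_eq_of_ne (Ne.symm hwt1), mul_one,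
    huf] at h2
  have h3 : w.t⁻¹ = w.t := by
    by_contra h4
    have h5 : w.t⁻¹ ≠ 1 := by simpa using hwt1
    rw [Pi.mulSingle_eq_of_ne h4, Pi.mulSingle_eq_of_ne h5, mul_one] at h2
    exact hζ h2.symm
  have h6 : r = 2 := by
    have h7 : orderOf w.t = r := orderOf_eq_prime hwtr hwt1
    have h8 : w.t ^ 2 = 1 := by
      rw [pow_two]
      nth_rewrite 1 [← h3]
      rw [inv_mul_cancel]
    have h9 := orderOf_dvd_of_pow_eq_one h8
    rw [h7] at h9
    exact (Nat.prime_dvd_prime_iff_eq hr Nat.prime_two).1 h9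
  have h10 : q = 2 := by
    have h7 : orderOf ζ = q := orderOf_eq_prime (Zp_pow q ζ) hζ
    have h8 : ζ ^ 2 = 1 := by
      rw [pow_two]
      nth_rewrite 1 [h1]
      rw [inv_mul_cancel]
    have h9 := orderOf_dvd_of_pow_eq_one h8
    rw [h7] at h9
    exact (Nat.prime_dvd_prime_iff_eq hq.out Nat.prime_two).1 h9
  exact hrq (h6.trans h10.symm)

/-- A nilpotent normal subgroup of `K ≀ T`, with `K` having a quotient of order `q`, projects to a
`q`-group. -/
theorem isPGroup_map_right {q : ℕ} [hq : Fact q.Prime] {K T : Type} [Group K] [Group T] [Finite K]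
    [Finite T] (χ : K →* Zp q) (hχ : Function.Surjective χ)
    (R : Subgroup (Wr K T)) [hR : R.Normal] [Group.IsNilpotent R] :
    IsPGroup q (R.map Wr.right) := by
  have h1 : (R.map (Wr.map χ : Wr K T →* Wr (Zp q) T)).Normal :=
    Subgroup.Normal.map hR _ (Wr.map_surjective χ hχ)
  have h2 : Group.IsNilpotent (R.map (Wr.map χ : Wr K T →* Wr (Zp q) T)) :=
    Group.nilpotent_of_surjective ((Wr.map χ).subgroupMap R) (MonoidHom.subgroupMap_surjective _ _)
  have h3 := isPGroup_map_right_aux (R.map (Wr.map χ : Wr K T →* Wr (Zp q) T))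
  rw [Subgroup.map_map] at h3
  exact h3

/-- A finite group with two normal nilpotent subgroups of coprime indices is nilpotent. -/
theorem nilpotent_of_two {X : Type} [Group X] [Finite X] (N₁ N₂ : Subgroup X) [N₁.Normal]
    [N₂.Normal] [Group.IsNilpotent N₁] [Group.IsNilpotent N₂]
    (h : ∀ r : ℕ, r.Prime → ¬ r ∣ Nat.card (X ⧸ N₁) ∨ ¬ r ∣ Nat.card (X ⧸ N₂)) :
    Group.IsNilpotent X := by
  have q := (Group.isNilpotent_of_finite_tfae (G := X)).out 0 3
  rw [q]
  intro r hr P
  have key : ∀ (N : Subgroup X) [N.Normal] [Group.IsNilpotent N], ¬ r ∣ Nat.card (X ⧸ N) →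
      (P : Subgroup X).Normal := by
    intro N _ _ hN
    have hle : ∀ Q : Sylow r X, (Q : Subgroup X) ≤ N := by
      intro Q
      have h1 : (Q : Subgroup X).map (QuotientGroup.mk' N) = ⊥ := by
        have h2 : IsPGroup r ((Q : Subgroup X).map (QuotientGroup.mk' N)) := Q.isPGroup'.map _
        obtain ⟨n, hn⟩ := IsPGroup.iff_card.1 h2
        cases n with
        | zero =>
          rw [pow_zero] at hn
          exact Subgroup.card_eq_one.1 hn
        | succ n =>
          exfalso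
          apply hN
          refine dvd_trans ?_ (Subgroup.card_subgroup_dvd_card
            ((Q : Subgroup X).map (QuotientGroup.mk' N)))
          rw [hn]
          exact dvd_pow_self r (Nat.succ_ne_zero n)
      rw [Subgroup.map_eq_bot_iff, QuotientGroup.ker_mk'] at h1
      exact h1
    have hsub : Subsingleton (Sylow r X) := by
      constructor
      intro Q Q'
      have h3 : (Q.subtype (hle Q)) = Q'.subtype (hle Q') := by
        have h4 : ((Q.subtype (hle Q) : Sylow r N) : Subgroup N).Normal := inferInstance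
        have h5 := Sylow.unique_of_normal (Q.subtype (hle Q)) h4
        exact Subsingleton.elim _ _
      exact Sylow.subtype_injective h3
    exact P.normal_of_subsingleton
  rcases h r hr.out with h1 | h1
  · exact key N₁ h1
  · exact key N₂ h1

lemma res_map_right {B : Formation} {K T : Type} [Group K] [Group T] [Finite K] [Finite T] :
    (B.res (Wr K T)).map Wr.right = B.res T :=
  map_res Wr.right Wr.right_surjective

theorem S3 {V : Formation} {g c : ℕ} (hV : SubClosed V) (hg : ChiefBdd V g)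
    (hc : ClassBdd V c) {A B C D : Formation} (hABCD : A * B = C * D) (hAB : A * B ≤ Nil * V)
    (hB1 : B ≠ 1) (hD1 : D ≠ 1) (hNB : NA B) (hND : NA D) (hC : ¬ C ≤ Nil) : D ≤ B := by
  obtain ⟨X, _, hXC, hX⟩ : ∃ (X : Type) (_ : Group X), C.Mem X ∧ ¬ Nil.Mem X := by
    by_contra hcon
    push Not at hcon
    exact hC fun X _ h => hcon X _ h
  have hXf := C.finite hXC
  rw [mem_Nil'] at hX
  intro T _ hT
  by_contra hTB
  obtain ⟨T₀, _, hT₀⟩ := exists_good g hND hD1 (Nat.card X) Nat.card_pos.ne'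
  have hDle : D ≤ Nil * V := fun G _ hG => hAB G (hABCD ▸ le_mul_right' C D G hG)
  have hSD : D.Mem (T × T₀) := mem_prod hT hT₀.1
  have hT'D : D.Mem (Fin (c + 1) → T × T₀) := mem_pow hSD
  have hT'f := D.finite hT'D
  have hTf := D.finite hT
  have hT₀f := D.finite hT₀.1
  let π₀ : (Fin (c + 1) → T × T₀) →* T × T₀ := Pi.evalMonoidHom _ 0
  have hπ₀ : Function.Surjective π₀ := Function.surjective_eval _
  have hgood : Good g D (Nat.card X) (Fin (c + 1) → T × T₀) :=
    hT₀.mono hT'D ((MonoidHom.snd T T₀).comp π₀) (Prod.snd_surjective.comp hπ₀)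
  have hWCD : (C * D).Mem (Wr X (Fin (c + 1) → T × T₀)) :=
    (mem_mul_wr_iff hg hDle hgood).2 hXC
  have hT'B : ¬ B.Mem (Fin (c + 1) → T × T₀) := fun h =>
    hTB (B.quot ((MonoidHom.fst T T₀).comp π₀) (Prod.fst_surjective.comp hπ₀) h)
  rw [← hABCD] at hWCD
  let j : (Fin c → T × T₀) →* (Fin (c + 1) → T × T₀) :=
    { toFun := fun f => Fin.cons 1 f
      map_one' := by
        ext i : 1
        refine Fin.cases ?_ (fun i => ?_) i
        · rfl
        · rfl
      map_mul' := fun a b => by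
        ext i : 1
        refine Fin.cases ?_ (fun i => ?_) i
        · simp
        · simp }
  have hj : Function.Injective j := by
    intro a b hab
    ext1 i
    exact congrFun hab i.succ
  obtain ⟨N₁, hN₁, hN₁n, hcop⟩ := exists_coprime hV hg hc (S := T × T₀) hgood.2.1 j hj
    (hAB _ hWCD) hX
  -- the residual
  have hA : A ≤ Nil * Nil := left_le_NilNil hg hB1 hNB hAB
  set T' := (Fin (c + 1) → T × T₀) with hT'
  have hR : (Nil * Nil).Mem (B.res (Wr X T')) := hA _ (mem_mul'.1 hWCD)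
  rw [mem_mul', mem_Nil'] at hR
  have hN₂ : Group.IsNilpotent ((Nil * B).res (Wr X T')) := by
    rw [res_mul]
    exact Group.nilpotent_of_mulEquiv
      (Subgroup.equivMapOfInjective _ _ (Subgroup.subtype_injective (B.res (Wr X T'))))
  have hN₂b : (Nil * B).res (Wr X T') ≤ Wr.base ⊤ := Wr.le_base_of_nilpotent _ hX
  set N₃ := Wr.coord ((Nil * B).res (Wr X T')) with hN₃
  have hN₃n : Group.IsNilpotent N₃ := Wr.coord_nilpotent _
  have hR₄ : (Nil * B).Mem (Wr (X ⧸ N₃) T') := by
    refine mem_of_res_le (Wr.map (QuotientGroup.mk' N₃))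
      (Wr.map_surjective _ (QuotientGroup.mk'_surjective _)) ?_
    intro w hw
    exact Wr.map_mk_eq_one hw (Wr.mem_base_top.1 (hN₂b hw))
  rw [mem_mul', mem_Nil'] at hR₄
  have hproj : (B.res (Wr (X ⧸ N₃) T')).map Wr.right = B.res T' := res_map_right
  have hN₀ : B.res T' ≠ ⊥ := fun h => hT'B (res_eq_bot_iff.1 h)
  obtain ⟨n, hn, hn1⟩ : ∃ n ∈ B.res T', n ≠ 1 := by
    by_contra hcon
    push Not at hcon
    exact hN₀ ((Subgroup.eq_bot_iff_forall _).2 hcon)
  have hn' := hn
  rw [← hproj] at hn'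
  obtain ⟨w, hw, rfl⟩ := hn'
  have hXN₃ : Group.IsNilpotent (X ⧸ N₃) := by
    have h1 := Wr.coord_nilpotent (B.res (Wr (X ⧸ N₃) T'))
    rw [Wr.coord_eq_top_of_not_le hw hn1] at h1
    exact Group.nilpotent_of_mulEquiv (Subgroup.topEquiv : (⊤ : Subgroup (X ⧸ N₃)) ≃* (X ⧸ N₃))
  apply hX
  refine nilpotent_of_two N₁ N₃ fun r hr => ?_
  by_cases hr3 : r ∣ Nat.card (X ⧸ N₃)
  · left
    have hrf := Fact.mk hr
    obtain ⟨χ, hχ⟩ := exists_surj_of_nilpotent (p := r) hr3
    have h1 := isPGroup_map_right χ hχ (B.res (Wr (X ⧸ N₃) T'))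
    rw [hproj] at h1
    refine hcop r hr ?_
    obtain ⟨k, hk⟩ := IsPGroup.iff_card.1 h1
    have h2 : r ∣ Nat.card (B.res T') := by
      cases k with
      | zero =>
        rw [pow_zero] at hk
        exact absurd (Subgroup.card_eq_one.1 hk) hN₀
      | succ k => rw [hk]; exact dvd_pow_self r (Nat.succ_ne_zero k)
    have h3 : r ∣ Nat.card T' := h2.trans (Subgroup.card_subgroup_dvd_card _)
    rw [hT', Nat.card_fun] at h3
    exact hr.dvd_of_dvd_pow h3
  · exact Or.inr hr3

/-- Formations of nilpotent groups: wreath products. -/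
theorem mem_mul_wr_of_nil {C D : Formation} (hC : C ≤ Nil) {X T : Type} [Group X] [Group T]
    (hX : C.Mem X) (hT : D.Mem T) : (C * D).Mem (Wr X T) := by
  have := C.finite hX
  have := D.finite hT
  have hXn : Group.IsNilpotent X := (hC _ hX).2
  rw [mem_mul']
  have h1 : C.Mem (T → X) := mem_pow hX
  let f : D.res (Wr X T) →* (T → X) :=
    { toFun := fun w => w.1.f
      map_one' := rfl
      map_mul' := fun a b => by
        have := Wr.mem_base_top.1 (res_wr_le_base hT a.2)
        ext x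
        simp [this] }
  refine mem_of_injective_of_nilpotent C f ?_ h1
  intro a b hab
  apply Subtype.ext
  refine Wr.ext hab ?_
  rw [Wr.mem_base_top.1 (res_wr_le_base hT a.2), Wr.mem_base_top.1 (res_wr_le_base hT b.2)]

theorem S4 {A B C D : Formation} (hABCD : A * B = C * D) (hA : A ≤ Nil) (hC : C ≤ Nil)
    {X T : Type} [Group X] [Group T] (hX : C.Mem X) (hT : D.Mem T) {q : ℕ} [Fact q.Prime]
    (hq : q ∣ Nat.card X) : IsPGroup q (B.res T) := by
  have := C.finite hX
  have := D.finite hT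
  have hXn : Group.IsNilpotent X := (hC _ hX).2
  have h1 := mem_mul_wr_of_nil hC hX hT
  rw [← hABCD, mem_mul'] at h1
  have h2 := (hA _ h1).2
  obtain ⟨χ, hχ⟩ := exists_surj_of_nilpotent (p := q) hq
  have h3 := isPGroup_map_right χ hχ (B.res (Wr X T))
  rwa [res_map_right] at h3

end Pool.Agent.Helper46.Form
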