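import Mathlib

/-!
Formations of finite groups, residuals and products.
-/

namespace Pool.Agent.Helper46.Form

/-- A formation of finite groups: a class of finite groups containing the trivial groups, closed
under surjective homomorphic images (hence under isomorphisms) and such that
`G ⧸ N₁, G ⧸ N₂` in the class implies `G ⧸ (N₁ ⊓ N₂)` in the class. -/
@[ext]
structure Formation where
  /-- membership of a group in the class -/
  Mem : (G : Type) → [Group G] → Prop
  finite : ∀ {G : Type} [Group G], Mem G → Finite G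
  triv : ∀ {G : Type} [Group G], Subsingleton G → Mem G
  quot : ∀ {G H : Type} [Group G] [Group H] (f : G →* H), Function.Surjective f → Mem G → Mem H
  subdirect : ∀ {G : Type} [Group G] [Finite G] (N₁ N₂ : Subgroup G) [N₁.Normal] [N₂.Normal],
    Mem (G ⧸ N₁) → Mem (G ⧸ N₂) → Mem (G ⧸ (N₁ ⊓ N₂))

namespace Formation

instance : LE Formation := ⟨fun A B => ∀ (G : Type) [Group G], A.Mem G → B.Mem G⟩

lemma le_def {A B : Formation} : A ≤ B ↔ ∀ (G : Type) [Group G], A.Mem G → B.Mem G := Iff.rfl

lemma le_antisymm' {A B : Formation} (h₁ : A ≤ B) (h₂ : B ≤ A) : A = B := by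
  ext G inst
  exact ⟨h₁ G, h₂ G⟩

/-- The residual: the intersection of all normal subgroups `N` with `G ⧸ N` in the formation
(for finite `G` it is the smallest such `N`). -/
def res (X : Formation) (G : Type) [Group G] : Subgroup G :=
  sInf {N : Subgroup G | ∃ _ : N.Normal, X.Mem (G ⧸ N)}

/-- `N` is normal with quotient in `X`. -/
def Res (X : Formation) {G : Type} [Group G] (N : Subgroup G) : Prop :=
  ∃ _ : N.Normal, X.Mem (G ⧸ N)

variable {X Y Z : Formation} {G H : Type} [Group G] [Group H]

lemma mem_iso (e : G ≃* H) : X.Mem G ↔ X.Mem H :=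
  ⟨X.quot e.toMonoidHom e.surjective, X.quot e.symm.toMonoidHom e.symm.surjective⟩

lemma Res.normal {N : Subgroup G} (h : X.Res N) : N.Normal := h.1

lemma Res.inf [Finite G] {N₁ N₂ : Subgroup G} (h₁ : X.Res N₁) (h₂ : X.Res N₂) :
    X.Res (N₁ ⊓ N₂) := by
  obtain ⟨i₁, h₁⟩ := h₁
  obtain ⟨i₂, h₂⟩ := h₂
  exact ⟨inferInstance, X.subdirect N₁ N₂ h₁ h₂⟩

lemma Res.mono {N₁ N₂ : Subgroup G} (h₁ : X.Res N₁) (h : N₁ ≤ N₂) (h₂ : N₂.Normal) :
    X.Res N₂ := by
  obtain ⟨i₁, h₁⟩ := h₁
  refine ⟨h₂, X.quot (QuotientGroup.map N₁ N₂ (MonoidHom.id G) h) ?_ h₁⟩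
  intro x
  obtain ⟨g, rfl⟩ := QuotientGroup.mk_surjective x
  exact ⟨(g : G ⧸ N₁), rfl⟩

lemma res_ker_of_mem (f : G →* H) (hf : Function.Surjective f) (hH : X.Mem H) :
    X.Res f.ker :=
  ⟨inferInstance, (mem_iso (QuotientGroup.quotientKerEquivOfSurjective f hf)).2 hH⟩

lemma mem_of_res_ker (f : G →* H) (hf : Function.Surjective f) (h : X.Res f.ker) :
    X.Mem H := by
  obtain ⟨_, h⟩ := h
  exact (mem_iso (QuotientGroup.quotientKerEquivOfSurjective f hf)).1 h

lemma mem_of_res_le_ker (f : G →* H) (hf : Function.Surjective f) {N : Subgroup G}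
    (h : X.Res N) (hN : N ≤ f.ker) : X.Mem H :=
  mem_of_res_ker f hf (h.mono hN inferInstance)

lemma Res.top : X.Res (⊤ : Subgroup G) :=
  ⟨inferInstance, X.triv QuotientGroup.subsingleton_quotient_top⟩

lemma Res.finset_inf [Finite G] {ι : Type} (s : Finset ι) (N : ι → Subgroup G)
    (h : ∀ i ∈ s, X.Res (N i)) : X.Res (s.inf N) := by
  classical
  induction s using Finset.induction_on with
  | empty => simpa using Res.top
  | insert a s ha ih =>
    rw [Finset.inf_insert]
    exact (h a (by simp)).inf (ih fun i hi => h i (by simp [hi]))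

lemma Res.iInf [Finite G] {ι : Type} [Finite ι] (N : ι → Subgroup G)
    (h : ∀ i, X.Res (N i)) : X.Res (⨅ i, N i) := by
  classical
  have := Fintype.ofFinite ι
  have := Res.finset_inf (X := X) Finset.univ N (fun i _ => h i)
  rwa [Finset.inf_univ_eq_iInf] at this

/-- The main closure property: a quotient of a subdirect product of members is a member. -/
lemma mem_of_family [Finite G] {ι : Type} [Finite ι] {K : ι → Type} [∀ i, Group (K i)]
    (φ : ∀ i, G →* K i) (hφ : ∀ i, Function.Surjective (φ i)) (hK : ∀ i, X.Mem (K i))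
    (ψ : G →* H) (hψ : Function.Surjective ψ) (hker : ∀ x, (∀ i, φ i x = 1) → ψ x = 1) :
    X.Mem H := by
  refine mem_of_res_le_ker ψ hψ (Res.iInf (X := X) (fun i => (φ i).ker) fun i =>
    res_ker_of_mem (φ i) (hφ i) (hK i)) ?_
  intro x hx
  rw [MonoidHom.mem_ker]
  apply hker
  intro i
  rw [Subgroup.mem_iInf] at hx
  exact hx i

lemma mem_of_two [Finite G] {K₁ K₂ : Type} [Group K₁] [Group K₂]
    (φ₁ : G →* K₁) (φ₂ : G →* K₂) (h₁ : Function.Surjective φ₁) (h₂ : Function.Surjective φ₂)
    (m₁ : X.Mem K₁) (m₂ : X.Mem K₂)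
    (ψ : G →* H) (hψ : Function.Surjective ψ) (hker : ∀ x, φ₁ x = 1 → φ₂ x = 1 → ψ x = 1) :
    X.Mem H := by
  refine mem_of_res_le_ker ψ hψ ((res_ker_of_mem φ₁ h₁ m₁).inf (res_ker_of_mem φ₂ h₂ m₂)) ?_
  intro x hx
  exact hker x hx.1 hx.2

lemma mem_of_ker_bot (f : G →* H) (hf : Function.Surjective f) (hG : X.Mem G) : X.Mem H :=
  X.quot f hf hG

instance res_normal : (X.res G).Normal := by
  constructor
  intro n hn g
  rw [res, Subgroup.mem_sInf] at hn ⊢
  rintro N ⟨hN, hX⟩
  exact hN.conj_mem n (hn N ⟨hN, hX⟩) g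

lemma res_le {N : Subgroup G} (h : X.Res N) : X.res G ≤ N := sInf_le h

lemma Res_res [Finite G] : X.Res (X.res G) := by
  have : X.res G = ⨅ N : {N : Subgroup G // X.Res N}, N.1 := by
    rw [res, sInf_eq_iInf']; rfl
  rw [this]
  have : Finite (Subgroup G) := inferInstance
  exact Res.iInf _ fun N => N.2

lemma mem_quot_res [Finite G] : X.Mem (G ⧸ X.res G) := by
  obtain ⟨_, h⟩ := Res_res (X := X) (G := G)
  exact h

lemma res_le_iff [Finite G] {N : Subgroup G} (hN : N.Normal) : X.res G ≤ N ↔ X.Res N :=
  ⟨fun h => Res_res.mono h hN, res_le⟩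

lemma res_le_ker (f : G →* H) (hf : Function.Surjective f) (hH : X.Mem H) :
    X.res G ≤ f.ker := res_le (res_ker_of_mem f hf hH)

lemma mem_of_res_le [Finite G] (f : G →* H) (hf : Function.Surjective f)
    (h : X.res G ≤ f.ker) : X.Mem H :=
  mem_of_res_le_ker f hf Res_res h

lemma map_res [Finite G] (f : G →* H) (hf : Function.Surjective f) :
    (X.res G).map f = X.res H := by
  have : Finite H := Finite.of_surjective f hf
  apply le_antisymm
  · rw [Subgroup.map_le_iff_le_comap]
    obtain ⟨_, h⟩ := Res_res (X := X) (G := H)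
    have := res_le_ker ((QuotientGroup.mk' (X.res H)).comp f)
      ((QuotientGroup.mk'_surjective _).comp hf) h
    rwa [← MonoidHom.comap_ker, QuotientGroup.ker_mk'] at this
  · have hn : ((X.res G).map f).Normal := Subgroup.Normal.map inferInstance f hf
    apply res_le
    refine ⟨hn, ?_⟩
    refine mem_of_res_le ((QuotientGroup.mk' ((X.res G).map f)).comp f)
      ((QuotientGroup.mk'_surjective _).comp hf) ?_
    rw [← MonoidHom.comap_ker, QuotientGroup.ker_mk']
    exact Subgroup.le_comap_map _ _

/-- A surjective homomorphism restricted to residuals. -/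
def resMap [Finite G] (X : Formation) (f : G →* H) (hf : Function.Surjective f) :
    X.res G →* X.res H :=
  (f.comp (X.res G).subtype).codRestrict (X.res H) fun x => by
    rw [← map_res f hf]; exact Subgroup.mem_map_of_mem f x.2

@[simp] lemma resMap_coe [Finite G] (f : G →* H) (hf : Function.Surjective f) (x : X.res G) :
    (resMap X f hf x : H) = f x := rfl

lemma resMap_surjective [Finite G] (f : G →* H) (hf : Function.Surjective f) :
    Function.Surjective (resMap X f hf) := by
  rintro ⟨y, hy⟩
  rw [← map_res f hf] at hy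
  obtain ⟨x, hx, rfl⟩ := hy
  exact ⟨⟨x, hx⟩, rfl⟩

lemma res_eq_bot_iff [Finite G] : X.res G = ⊥ ↔ X.Mem G := by
  constructor
  · intro h
    have := mem_of_res_le (X := X) (MonoidHom.id G) Function.surjective_id
      (by rw [h]; exact bot_le)
    exact this
  · intro h
    rw [eq_bot_iff]
    have := res_le_ker (X := X) (MonoidHom.id G) Function.surjective_id h
    rwa [MonoidHom.ker_id] at this

/-- The product of formations: `G` is in `X * Y` iff its `Y`-residual is in `X`. -/
instance : Mul Formation where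
  mul X Y :=
    { Mem := fun G _ => Finite G ∧ X.Mem (Y.res G)
      finite := fun h => h.1
      triv := fun {G} _ h => by
        refine ⟨inferInstance, X.triv ?_⟩
        exact ⟨fun a b => Subtype.ext (Subsingleton.elim _ _)⟩
      quot := fun {G H} _ _ f hf ⟨h₁, h₂⟩ => by
        have : Finite H := Finite.of_surjective f hf
        exact ⟨this, X.quot (resMap Y f hf) (resMap_surjective f hf) h₂⟩
      subdirect := fun {G} _ _ N₁ N₂ _ _ ⟨_, h₁⟩ ⟨_, h₂⟩ => by
        refine ⟨inferInstance, ?_⟩
        refine mem_of_two (G := Y.res G) (resMap Y (QuotientGroup.mk' N₁)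
          (QuotientGroup.mk'_surjective _)) (resMap Y (QuotientGroup.mk' N₂)
          (QuotientGroup.mk'_surjective _)) (resMap_surjective _ _) (resMap_surjective _ _) h₁ h₂
          (resMap Y (QuotientGroup.mk' (N₁ ⊓ N₂)) (QuotientGroup.mk'_surjective _))
          (resMap_surjective _ _) ?_
        intro x hx₁ hx₂
        have e₁ : (x : G) ∈ N₁ := by
          have := congrArg Subtype.val hx₁
          simpa using this
        have e₂ : (x : G) ∈ N₂ := by
          have := congrArg Subtype.val hx₂
          simpa using this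
        apply Subtype.ext
        simpa using Subgroup.mem_inf.2 ⟨e₁, e₂⟩ }

lemma mem_mul : (X * Y).Mem G ↔ Finite G ∧ X.Mem (Y.res G) := Iff.rfl

lemma mem_mul' [Finite G] : (X * Y).Mem G ↔ X.Mem (Y.res G) :=
  ⟨fun h => h.2, fun h => ⟨inferInstance, h⟩⟩

lemma res_mul [Finite G] : (X * Y).res G = (X.res (Y.res G)).map (Y.res G).subtype := by
  have hn : ((X.res (Y.res G)).map (Y.res G).subtype).Normal := by
    constructor
    rintro _ ⟨x, hx, rfl⟩ g
    refine ⟨⟨g * x * g⁻¹, (res_normal (X := Y)).conj_mem _ x.2 g⟩, ?_, rfl⟩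
    have e : X.res (Y.res G) = (X.res (Y.res G)).map
      (MulAut.conjNormal (H := Y.res G) g).toMonoidHom := by
      rw [map_res]
      exact (MulAut.conjNormal (H := Y.res G) g).surjective
    rw [e]
    refine ⟨x, hx, ?_⟩
    apply Subtype.ext
    simp
  apply le_antisymm
  · apply res_le
    refine ⟨hn, inferInstance, ?_⟩
    refine mem_of_res_le (G := Y.res G) (resMap Y (QuotientGroup.mk'
      ((X.res (Y.res G)).map (Y.res G).subtype)) (QuotientGroup.mk'_surjective _))
      (resMap_surjective _ _) ?_
    intro x hx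
    rw [MonoidHom.mem_ker]
    apply Subtype.ext
    simp only [resMap_coe, QuotientGroup.mk'_apply, OneMemClass.coe_one]
    rw [QuotientGroup.eq_one_iff]
    exact ⟨x, hx, rfl⟩
  · obtain ⟨hN, h⟩ := Res_res (X := X * Y) (G := G)
    rw [Subgroup.map_le_iff_le_comap]
    have h' := h.2
    have := res_le_ker (X := X) (resMap Y (QuotientGroup.mk' ((X * Y).res G))
      (QuotientGroup.mk'_surjective _)) (resMap_surjective _ _) h'
    refine this.trans ?_
    intro x hx
    rw [MonoidHom.mem_ker] at hx
    have := congrArg Subtype.val hx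
    rw [Subgroup.mem_comap]
    simpa using this

/-- The formation of trivial groups. -/
instance : One Formation where
  one :=
    { Mem := fun G _ => Subsingleton G
      finite := fun h => inferInstance
      triv := fun h => h
      quot := fun {G H} _ _ f hf h => by
        exact hf.subsingleton
      subdirect := fun {G} _ _ N₁ N₂ _ _ h₁ h₂ => by
        rw [QuotientGroup.subsingleton_iff] at *
        rw [h₁, h₂, inf_idem] }

lemma mem_one : (1 : Formation).Mem G ↔ Subsingleton G := Iff.rfl

lemma one_le : (1 : Formation) ≤ X := fun _ _ h => X.triv h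

lemma res_one [Finite G] : (1 : Formation).res G = ⊤ := by
  rw [eq_top_iff]
  apply le_sInf
  rintro N ⟨_, h⟩
  rw [mem_one, QuotientGroup.subsingleton_iff] at h
  rw [h]

lemma subsingleton_iff_bot' (N : Subgroup G) : Subsingleton N ↔ N = ⊥ :=
  ⟨fun _ => N.eq_bot_of_subsingleton, fun h => by rw [h]; infer_instance⟩

instance : Monoid Formation where
  mul_assoc X Y Z := by
    ext G _
    constructor
    · rintro ⟨h, h₁, h₂⟩
      refine ⟨h, ?_⟩
      rw [res_mul]
      exact (mem_iso (Subgroup.equivMapOfInjective _ _ (Subgroup.subtype_injective _))).1 h₂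
    · rintro ⟨h, h₂⟩
      rw [res_mul] at h₂
      refine ⟨h, inferInstance, ?_⟩
      exact (mem_iso (Subgroup.equivMapOfInjective _ _ (Subgroup.subtype_injective _))).2 h₂
  one_mul X := by
    ext G _
    constructor
    · rintro ⟨h, h₁⟩
      rw [mem_one, subsingleton_iff_bot'] at h₁
      exact res_eq_bot_iff.1 h₁
    · intro h
      have := X.finite h
      refine ⟨this, ?_⟩
      rw [mem_one, subsingleton_iff_bot']
      exact res_eq_bot_iff.2 h
  mul_one X := by
    ext G _
    constructor
    · rintro ⟨h, h₁⟩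
      rw [res_one] at h₁
      exact (mem_iso Subgroup.topEquiv).1 h₁
    · intro h
      have := X.finite h
      refine ⟨this, ?_⟩
      rw [res_one]
      exact (mem_iso Subgroup.topEquiv).2 h

/-- A formation is non-decomposable if it is not trivial and is not a product of two nontrivial
formations. -/
def NonDecomposable (X : Formation) : Prop :=
  X ≠ 1 ∧ ∀ A B : Formation, X = A * B → A = 1 ∨ B = 1

/-- A formation is saturated if `G ⧸ Φ(G)` in the formation implies `G` in the formation
(`Φ(G)` is the Frattini subgroup). -/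
def Saturated (X : Formation) : Prop :=
  ∀ (G : Type) [Group G] [Finite G], X.Mem (G ⧸ frattini G) → X.Mem G

/-- A saturated formation is one-generated if, for some finite group `G₀`, it is the intersection
of all saturated formations containing `G₀`. -/
def OneGenerated (M : Formation) : Prop :=
  ∃ (G₀ : Type) (_ : Group G₀) (_ : Finite G₀), ∀ (G : Type) [Group G],
    M.Mem G ↔ ∀ S : Formation, S.Saturated → S.Mem G₀ → S.Mem G

end Formation

end Pool.Agent.Helper46.Form
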