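import Pool.Agent.Helper46.Form.Bdd

/-!
Full wreath products, cancellation.
-/

namespace Pool.Agent.Helper46.Form

open Formation

/-- `B` does not absorb `EA p` for any prime `p`. -/
def NA (B : Formation) : Prop :=
  ∀ p, p.Prime → ∃ (T : Type) (_ : Group T), B.Mem T ∧ ¬ B.Mem (Wr (Zp p) T)

/-- `T` is large in `B` with respect to `g` and the primes dividing `n`. -/
def Good (g : ℕ) (B : Formation) (n : ℕ) (T : Type) [Group T] : Prop :=
  B.Mem T ∧ g < Nat.card T ∧ ∀ p, p.Prime → p ∣ n → ¬ B.Mem (Wr (Zp p) T)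

lemma Good.mono {g n : ℕ} {B : Formation} {T T' : Type} [Group T] [Group T'] (h : Good g B n T)
    (h' : B.Mem T') (π : T' →* T) (hπ : Function.Surjective π) : Good g B n T' := by
  have := B.finite h'
  refine ⟨h', h.2.1.trans_le (Nat.card_le_card_of_surjective π hπ), fun p hp hpn hm => ?_⟩
  exact h.2.2 p hp hpn (Wr.mem_wr_of_surjective π hπ hm)

lemma exists_good_aux {B : Formation} (hNA : NA B) (s : Finset ℕ) (hs : ∀ p ∈ s, p.Prime) :
    ∃ (T : Type) (_ : Group T), B.Mem T ∧ ∀ p ∈ s, ¬ B.Mem (Wr (Zp p) T) := by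
  classical
  induction s using Finset.induction_on with
  | empty => exact ⟨Unit, inferInstance, B.triv inferInstance, by simp⟩
  | insert p s hp ih =>
    obtain ⟨T₁, _, h1, h2⟩ := ih fun q hq => hs q (by simp [hq])
    obtain ⟨T₂, _, h3, h4⟩ := hNA p (hs p (by simp))
    have h5 := mem_prod h1 h3
    have := B.finite h5
    refine ⟨T₁ × T₂, inferInstance, h5, ?_⟩
    intro q hq hm
    rw [Finset.mem_insert] at hq
    rcases hq with rfl | hq
    · exact h4 (Wr.mem_wr_of_surjective (MonoidHom.snd T₁ T₂) Prod.snd_surjective hm)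
    · exact h2 q hq (Wr.mem_wr_of_surjective (MonoidHom.fst T₁ T₂) Prod.fst_surjective hm)

lemma exists_good (g : ℕ) {B : Formation} (hNA : NA B) (hB : B ≠ 1) (n : ℕ) (hn : n ≠ 0) :
    ∃ (T : Type) (_ : Group T), Good g B n T := by
  obtain ⟨T₁, _, h1, h2⟩ := exists_good_aux hNA n.primeFactors
    fun p hp => Nat.prime_of_mem_primeFactors hp
  obtain ⟨T₂, _, h3, h4⟩ := ne_one_iff.1 hB
  have h5 : B.Mem (Fin g → T₂) := mem_pow h3
  have h6 := mem_prod h1 h5
  have := B.finite h6
  have := B.finite h3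
  have := B.finite h1
  refine ⟨T₁ × (Fin g → T₂), inferInstance, h6, ?_, ?_⟩
  · rw [Nat.card_prod, Nat.card_fun]
    have h7 : 1 < Nat.card T₂ := Finite.one_lt_card
    have h8 : 0 < Nat.card T₁ := Nat.card_pos
    have h9 : g < Nat.card T₂ ^ g := Nat.lt_pow_self h7
    simp only [Nat.card_eq_fintype_card, Fintype.card_fin] at *
    nlinarith
  · intro p hp hpn hm
    refine h2 p ?_ (Wr.mem_wr_of_surjective (MonoidHom.fst T₁ _) Prod.fst_surjective hm)
    rw [Nat.mem_primeFactors]
    exact ⟨hp, hpn, hn⟩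

lemma res_wr_le_base {B : Formation} {K T : Type} [Group K] [Group T] (h : B.Mem T) :
    B.res (Wr K T) ≤ Wr.base ⊤ := by
  rw [Wr.base_top_eq_ker]
  exact res_le_ker Wr.right Wr.right_surjective h

theorem coord_res_eq_top {V : Formation} {g : ℕ} (hg : ChiefBdd V g) {B : Formation}
    (hB : B ≤ Nil * V) {K T : Type} [Group K] [Finite K] [Group T]
    (h : Good g B (Nat.card K) T) : Wr.coord (B.res (Wr K T)) = ⊤ := by
  have hT := B.finite h.1
  by_contra hne
  have hnt : Nontrivial (K ⧸ Wr.coord (B.res (Wr K T))) := by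
    rw [← not_subsingleton_iff_nontrivial]
    intro hs
    exact hne (QuotientGroup.subsingleton_iff.1 hs)
  have h1 : B.Mem (Wr (K ⧸ Wr.coord (B.res (Wr K T))) T) := by
    refine mem_of_res_le (Wr.map (QuotientGroup.mk' _))
      (Wr.map_surjective _ (QuotientGroup.mk'_surjective _)) ?_
    intro w hw
    exact Wr.map_mk_eq_one hw (Wr.mem_base_top.1 (res_wr_le_base h.1 hw))
  have h2 := solvable_of_NilNil (NilNil_of_wr_mem hg h.2.1 (hB _ h1))
  obtain ⟨p, hp, hd, χ, hχ⟩ := exists_surj_of_solvable (U := K ⧸ Wr.coord (B.res (Wr K T)))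
  refine h.2.2 p hp (hd.trans (Subgroup.card_quotient_dvd_card _)) ?_
  exact B.quot (Wr.map χ) (Wr.map_surjective _ hχ) h1

theorem mem_mul_wr_iff {V : Formation} {g : ℕ} (hg : ChiefBdd V g) {A B : Formation}
    (hB : B ≤ Nil * V) {K T : Type} [Group K] [Finite K] [Group T]
    (h : Good g B (Nat.card K) T) : (A * B).Mem (Wr K T) ↔ A.Mem K := by
  have hT := B.finite h.1
  rw [mem_mul', Wr.mem_coord_iff _ (res_wr_le_base h.1), coord_res_eq_top hg hB h]
  exact mem_iso Subgroup.topEquiv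

theorem cancel_le {V : Formation} {g : ℕ} (hg : ChiefBdd V g) {A B C : Formation}
    (hB : B ≤ Nil * V) (hB1 : B ≠ 1) (hNA : NA B) (h : A * B ≤ C * B) : A ≤ C := by
  intro K _ hK
  have := A.finite hK
  obtain ⟨T, _, hT⟩ := exists_good g hNA hB1 (Nat.card K) Nat.card_pos.ne'
  rw [← mem_mul_wr_iff hg hB hT] at hK ⊢
  exact h _ hK

theorem cancel_right {V : Formation} {g : ℕ} (hg : ChiefBdd V g) {A B C : Formation}
    (hB : B ≤ Nil * V) (hB1 : B ≠ 1) (hNA : NA B) (h : A * B = C * B) : A = C :=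
  Formation.le_antisymm' (cancel_le hg hB hB1 hNA (h ▸ fun _ _ h => h))
    (cancel_le hg hB hB1 hNA (h ▸ fun _ _ h => h))

/-- the diagonal embedding in the base group -/
def diagHom (K T : Type) [Group K] [Group T] : K →* Wr K T where
  toFun k := ⟨fun _ => k, 1⟩
  map_one' := rfl
  map_mul' a b := by ext <;> simp

lemma diagHom_injective (K T : Type) [Group K] [Group T] : Function.Injective (diagHom K T) := by
  intro a b h
  exact congrFun (congrArg Wr.f h) 1

theorem left_le {V : Formation} {g : ℕ} (hVs : SubClosed V) (hg : ChiefBdd V g)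
    {A B : Formation} (hB1 : B ≠ 1) (hNA : NA B) (h : A * B ≤ Nil * V) : A ≤ Nil * V := by
  intro K _ hK
  have := A.finite hK
  obtain ⟨T, _, hT⟩ := exists_good g hNA hB1 (Nat.card K) Nat.card_pos.ne'
  have hB : B ≤ Nil * V := fun G _ hG => h G (le_mul_right' A B G hG)
  rw [← mem_mul_wr_iff (A := A) hg hB hT] at hK
  exact (Nil_subClosed.mul hVs) (diagHom K T) (diagHom_injective K T) (h _ hK)

theorem left_le_NilNil {V : Formation} {g : ℕ} (hg : ChiefBdd V g)
    {A B : Formation} (hB1 : B ≠ 1) (hNA : NA B) (h : A * B ≤ Nil * V) : A ≤ Nil * Nil := by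
  intro K _ hK
  have := A.finite hK
  obtain ⟨T, _, hT⟩ := exists_good g hNA hB1 (Nat.card K) Nat.card_pos.ne'
  have := B.finite hT.1
  have hB : B ≤ Nil * V := fun G _ hG => h G (le_mul_right' A B G hG)
  rw [← mem_mul_wr_iff (A := A) hg hB hT] at hK
  exact NilNil_of_wr_mem hg hT.2.1 (h _ hK)

theorem EA_mul_eq {B : Formation} {p : ℕ} [Fact p.Prime]
    (h : ∀ (T : Type) [Group T], B.Mem T → B.Mem (Wr (Zp p) T)) : EA p * B = B := by
  apply Formation.le_antisymm' _ (le_mul_right' _ _)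
  rintro G _ ⟨hG, h1⟩
  exact Wr.kk_mem (A := Zp p) (B.res G) (fun x hx => EA_sep h1 x hx) (h _ mem_quot_res)

theorem NA_of_nonDecomposable {B : Formation} (h : B.NonDecomposable) : NA B := by
  intro p hp
  have := Fact.mk hp
  by_contra hcon
  push Not at hcon
  rcases h.2 (EA p) B (EA_mul_eq (fun T _ hT => hcon T _ hT)).symm with h1 | h1
  · have h2 := Zp_mem_EA p
    rw [h1, mem_one] at h2
    exact not_subsingleton (Zp p) h2
  · exact h.1 h1

end Pool.Agent.Helper46.Form
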