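import Pool.Agent.Helper46.Form.Pi

/-!
Uniqueness of factorizations.
-/

namespace Pool.Agent.Helper46.Form

open Formation

lemma mem_res_mul_of_nil {A B C D : Formation} (hABCD : A * B = C * D) (hC : C ≤ Nil)
    {X T : Type} [Group X] [Group T] (hX : C.Mem X) (hT : D.Mem T) :
    (A * B).Mem (Wr X T) := by
  rw [hABCD]; exact mem_mul_wr_of_nil hC hX hT

theorem thmP {V : Formation} {g : ℕ} (hg : ChiefBdd V g)
    {A B C D : Formation} (hABCD : A * B = C * D) (hAB : A * B ≤ Nil * V) (hBD : B ≤ D)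
    (hNB : NA B) (hB1 : B ≠ 1) (hC : C ≤ Nil) {X : Type} [Group X] (hX : PiCond C X)
    (hD : D.NonDecomposable) : B = D := by
  have hXf := C.finite hX.1
  have hXn : Group.IsNilpotent X := (hC _ hX.1).2
  have hB : B ≤ Nil * V := fun G _ hG => hAB G (le_mul_right' A B G hG)
  obtain ⟨T₀, _, hT₀⟩ := exists_good g hNB hB1 (Nat.card X) Nat.card_pos.ne'
  have hT₀f := B.finite hT₀.1
  have E₁ : ∀ (T : Type) [Group T], D.Mem T → A.Mem (Wr X (B.res T)) := by
    intro T _ hT
    have hTf := D.finite hT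
    have h1 : D.Mem (T × T₀) := mem_prod hT (hBD _ hT₀.1)
    have h2 := mem_res_mul_of_nil hABCD hC hX.1 h1
    rw [lemmaW hg hB hT₀ (MonoidHom.snd T T₀) Prod.snd_surjective] at h2
    exact Wr.top_quot (resMap B (MonoidHom.fst T T₀) Prod.fst_surjective)
      (resMap_surjective _ _) h2
  have E₂ : ∀ (T : Type) [Group T], Finite T → A.Mem (Wr X (B.res T)) → D.Mem T := by
    intro T _ hTf hT
    have hinj : Function.Injective (resMap B (MonoidHom.fst T T₀) Prod.fst_surjective) := by
      rw [injective_iff_map_eq_one]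
      rintro ⟨⟨x, y⟩, hxy⟩ h
      have h1 : x = 1 := congrArg Subtype.val h
      have h2 : y = 1 := res_le_ker (X := B) (MonoidHom.snd T T₀) Prod.snd_surjective hT₀.1 hxy
      apply Subtype.ext
      exact Prod.ext h1 h2
    let e : B.res (T × T₀) ≃* B.res T :=
      MulEquiv.ofBijective (resMap B (MonoidHom.fst T T₀) Prod.fst_surjective)
        ⟨hinj, resMap_surjective _ _⟩
    have h3 : A.Mem (Wr X (B.res (T × T₀))) := (mem_iso (Wr.congrTop e)).2 hT
    rw [← lemmaW hg hB hT₀ (MonoidHom.snd T T₀) Prod.snd_surjective, hABCD] at h3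
    exact D.quot (MonoidHom.fst T T₀) Prod.fst_surjective (PropPi' hC hX h3)
  have E₀ : A.Mem X := by
    have h1 := E₁ Unit (D.triv inferInstance)
    have : Unique (B.res Unit) := ⟨⟨1⟩, fun a => Subtype.ext (Subsingleton.elim _ _)⟩
    exact Wr.mem_unit_iff.1 h1
  let E : Formation :=
    { Mem := fun G _ => Finite G ∧ A.Mem (Wr X G)
      finite := fun h => h.1
      triv := fun {G} _ h => by
        refine ⟨inferInstance, ?_⟩
        have : Unique G := ⟨⟨1⟩, fun a => Subsingleton.elim _ _⟩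
        exact Wr.mem_unit_iff.2 E₀
      quot := fun {G H} _ _ f hf ⟨h, h'⟩ => ⟨Finite.of_surjective f hf, Wr.top_quot f hf h'⟩
      subdirect := by
        intro G _ _ N₁ N₂ _ _ ⟨_, h₁⟩ ⟨_, h₂⟩
        refine ⟨inferInstance, ?_⟩
        obtain ⟨S₁, _, hS₁⟩ := exists_good g hNB hB1 (Nat.card (Wr X (G ⧸ N₁))) Nat.card_pos.ne'
        obtain ⟨S₂, _, hS₂⟩ := exists_good g hNB hB1 (Nat.card (Wr X (G ⧸ N₂))) Nat.card_pos.ne'
        obtain ⟨S₃, _, hS₃⟩ := exists_good g hNB hB1 (Nat.card (G ⧸ (N₁ ⊓ N₂))) Nat.card_pos.ne'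
        have hS : B.Mem (S₁ × (S₂ × S₃)) := mem_prod hS₁.1 (mem_prod hS₂.1 hS₃.1)
        have hSf := B.finite hS
        have g₁ := hS₁.mono hS (MonoidHom.fst S₁ (S₂ × S₃)) Prod.fst_surjective
        have g₂ := hS₂.mono hS ((MonoidHom.fst S₂ S₃).comp (MonoidHom.snd S₁ (S₂ × S₃)))
          (Prod.fst_surjective.comp Prod.snd_surjective)
        have g₃ := hS₃.mono hS ((MonoidHom.snd S₂ S₃).comp (MonoidHom.snd S₁ (S₂ × S₃)))
          (Prod.snd_surjective.comp Prod.snd_surjective)
        rw [← mem_mul_wr_iff hg hB g₁, hABCD] at h₁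
        rw [← mem_mul_wr_iff hg hB g₂, hABCD] at h₂
        have d₁ := PropPi hC hX (hBD _ hS) _ (G ⧸ N₁) rfl h₁
        have d₂ := PropPi hC hX (hBD _ hS) _ (G ⧸ N₂) rfl h₂
        let f₁ : G ⧸ (N₁ ⊓ N₂) →* G ⧸ N₁ :=
          QuotientGroup.map (N₁ ⊓ N₂) N₁ (MonoidHom.id G) inf_le_left
        let f₂ : G ⧸ (N₁ ⊓ N₂) →* G ⧸ N₂ :=
          QuotientGroup.map (N₁ ⊓ N₂) N₂ (MonoidHom.id G) inf_le_right
        have hf₁ : Function.Surjective f₁ := by
          intro x
          obtain ⟨y, rfl⟩ := QuotientGroup.mk_surjective x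
          exact ⟨(y : G ⧸ (N₁ ⊓ N₂)), rfl⟩
        have hf₂ : Function.Surjective f₂ := by
          intro x
          obtain ⟨y, rfl⟩ := QuotientGroup.mk_surjective x
          exact ⟨(y : G ⧸ (N₁ ⊓ N₂)), rfl⟩
        have hf : ∀ x, f₁ x = 1 → f₂ x = 1 → x = 1 := by
          intro x h1 h2
          obtain ⟨y, rfl⟩ := QuotientGroup.mk_surjective x
          rw [QuotientGroup.eq_one_iff, Subgroup.mem_inf]
          exact ⟨(QuotientGroup.eq_one_iff y).1 h1, (QuotientGroup.eq_one_iff y).1 h2⟩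
        have d : D.Mem (Wr (G ⧸ (N₁ ⊓ N₂)) (S₁ × (S₂ × S₃))) := by
          refine mem_of_two (G := Wr (G ⧸ (N₁ ⊓ N₂)) (S₁ × (S₂ × S₃))) (Wr.map f₁) (Wr.map f₂)
            (Wr.map_surjective _ hf₁) (Wr.map_surjective _ hf₂) d₁ d₂ (MonoidHom.id _)
            Function.surjective_id ?_
          intro w h1 h2
          rw [Wr.map_eq_one_iff] at h1 h2
          exact (Wr.eq_one_iff' _).2 ⟨h1.1, fun x => hf _ (h1.2 x) (h2.2 x)⟩
        have a := E₁ _ d
        have hc := coord_res_eq_top hg hB g₃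
        let t := (Subgroup.topEquiv : (⊤ : Subgroup (G ⧸ (N₁ ⊓ N₂))) ≃* _)
        have hs : Function.Surjective ((Wr.coord (B.res (Wr (G ⧸ (N₁ ⊓ N₂))
            (S₁ × (S₂ × S₃))))).subtype.comp
          (Wr.toCoord (B.res (Wr (G ⧸ (N₁ ⊓ N₂)) (S₁ × (S₂ × S₃)))) (res_wr_le_base hS))) := by
          intro x
          have hx : x ∈ Wr.coord (B.res (Wr (G ⧸ (N₁ ⊓ N₂)) (S₁ × (S₂ × S₃)))) := by
            rw [hc]; trivial
          obtain ⟨y, hy⟩ := Wr.toCoord_surjective _ (res_wr_le_base hS) ⟨x, hx⟩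
          exact ⟨y, congrArg Subtype.val hy⟩
        exact Wr.top_quot _ hs a }
  have hDE : D = E * B := by
    ext T _
    constructor
    · intro hT
      have hTf := D.finite hT
      exact ⟨hTf, inferInstance, E₁ T hT⟩
    · rintro ⟨hTf, _, hT⟩
      exact E₂ T hTf hT
  rcases hD.2 E B hDE with h | h
  · rw [hDE, h, one_mul]
  · exact absurd h hB1

theorem prod_ne_PG {V : Formation} {g : ℕ} (hg : ChiefBdd V g) {p : ℕ} [hp : Fact p.Prime]
    (L : List Formation) (hL : ∀ F ∈ L, F.NonDecomposable) : L.prod ≠ PG p := by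
  induction L using List.reverseRecOn with
  | nil =>
    intro h
    rw [List.prod_nil] at h
    have h1 := Zp_mem_PG p
    rw [← h, mem_one] at h1
    exact not_subsingleton (Zp p) h1
  | append_singleton L B ih =>
    intro h
    rw [List.prod_append, List.prod_singleton] at h
    have hBn : B.NonDecomposable := hL B (by simp)
    have hB : B ≤ PG p := h ▸ le_mul_right' L.prod B
    have hPB : PG p * B = PG p := by
      apply Formation.le_antisymm'
      · rintro G _ ⟨hG, h1⟩
        refine ⟨hG, ?_⟩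
        have h2 : (PG p).Mem (G ⧸ B.res G) := hB _ mem_quot_res
        intro x
        obtain ⟨k, hk⟩ := h2.2 (x : G ⧸ B.res G)
        rw [← QuotientGroup.mk_pow, QuotientGroup.eq_one_iff] at hk
        obtain ⟨l, hl⟩ := h1.2 ⟨_, hk⟩
        refine ⟨k + l, ?_⟩
        have := congrArg Subtype.val hl
        simp only [SubmonoidClass.coe_pow, OneMemClass.coe_one] at this
        rw [pow_add, pow_mul, this]
      · intro G _ hG
        have hf := hG.1
        rw [mem_mul']
        exact PG_subClosed (B.res G).subtype (Subgroup.subtype_injective _) hG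
    have hBV : B ≤ Nil * V := by
      intro G _ hG
      have h1 : Nil.Mem G := PG_le_Nil p G (hB G hG)
      have h2 := h1.1
      rw [mem_mul']
      exact Nil_subClosed (V.res G).subtype (Subgroup.subtype_injective _) h1
    refine ih (fun F hF => hL F (by simp [hF])) ?_
    exact cancel_right hg hBV hBn.1 (NA_of_nonDecomposable hBn) (h.trans hPB.symm)

lemma Zp_mem_of_dvd {C : Formation} (hC : C ≤ Nil) {p : ℕ} [Fact p.Prime] {X : Type} [Group X]
    (hX : C.Mem X) (h : p ∣ Nat.card X) : C.Mem (Zp p) := by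
  have := C.finite hX
  have : Group.IsNilpotent X := (hC _ hX).2
  obtain ⟨χ, hχ⟩ := exists_surj_of_nilpotent (p := p) h
  exact C.quot χ hχ hX

lemma top_isPGroup_of_wr {C : Formation} (hC : C ≤ Nil) {p : ℕ} [Fact p.Prime] {X L : Type}
    [Group X] [Group L] [Finite X] [Finite L] (χ : X →* Zp p) (hχ : Function.Surjective χ)
    (h : C.Mem (Wr X L)) : IsPGroup p L := by
  have h1 : Group.IsNilpotent (Wr X L) := (hC _ h).2
  have h2 := isPGroup_map_right χ hχ (⊤ : Subgroup (Wr X L))
  have h3 : (⊤ : Subgroup (Wr X L)).map Wr.right = ⊤ := by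
    rw [← MonoidHom.range_eq_map, MonoidHom.range_eq_top.2 Wr.right_surjective]
  rw [h3] at h2
  exact h2.of_injective (Subgroup.topEquiv (G := L)).symm.toMonoidHom
    (Subgroup.topEquiv (G := L)).symm.injective

lemma finite_of_wr {X L : Type} [Group X] [Group L] (h : Finite (Wr X L)) : Finite L :=
  Finite.of_surjective _ (Wr.right_surjective (K := X) (T := L))

theorem exists_pi {V : Formation} {g : ℕ} (hg : ChiefBdd V g) (L : List Formation)
    (hL : ∀ F ∈ L, F.NonDecomposable) (hC : L.prod ≤ Nil) (hC1 : L.prod ≠ 1) :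
    ∃ (X : Type) (_ : Group X), PiCond L.prod X := by
  set C := L.prod with hCdef
  by_cases h : ∃ p q : ℕ, p.Prime ∧ q.Prime ∧ p ≠ q ∧ C.Mem (Zp p) ∧ C.Mem (Zp q)
  · obtain ⟨p, q, hp, hq, hpq, h1, h2⟩ := h
    have := Fact.mk hp
    have := Fact.mk hq
    refine ⟨Zp p × Zp q, inferInstance, mem_prod h1 h2, ?_⟩
    intro L _ hLn hm
    have hLf : Finite L := finite_of_wr (C.finite hm)
    have h3 := top_isPGroup_of_wr hC (MonoidHom.fst (Zp p) (Zp q)) Prod.fst_surjective hm
    have h4 := top_isPGroup_of_wr hC (MonoidHom.snd (Zp p) (Zp q)) Prod.snd_surjective hm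
    have h5 := dvd_card_of_isPGroup h4
    obtain ⟨k, hk⟩ := IsPGroup.iff_card.1 h3
    rw [hk] at h5
    exact hpq ((Nat.prime_dvd_prime_iff_eq hq hp).1 (hq.dvd_of_dvd_pow h5)).symm
  · push Not at h
    obtain ⟨K, _, hK, hKn⟩ := ne_one_iff.1 hC1
    have hKf := C.finite hK
    obtain ⟨p, hp, hpK⟩ := Nat.exists_prime_and_dvd (n := Nat.card K) (by
      have := Finite.one_lt_card (α := K)
      omega)
    have hpf := Fact.mk hp
    have hpC := Zp_mem_of_dvd hC hK hpK
    have hCp : C ≤ PG p := by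
      intro X _ hX
      have hXf := C.finite hX
      refine ⟨hXf, isPGroup_of_prime_dvd fun r hr hrX => ?_⟩
      by_contra hne
      have hrf := Fact.mk hr
      exact h r p hr hp hne (Zp_mem_of_dvd hC hX hrX) hpC
    have hCne : C ≠ PG p := prod_ne_PG hg L hL
    obtain ⟨X, _, hX, hX'⟩ : ∃ (X : Type) (_ : Group X), C.Mem X ∧ ¬ C.Mem (Wr X (Zp p)) := by
      by_contra hcon
      push Not at hcon
      apply hCne
      apply Formation.le_antisymm' hCp
      have key : ∀ n : ℕ, ∀ (P : Type) [Group P] [Finite P], Nat.card P = n → IsPGroup p P →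
          C.Mem P := by
        intro n
        induction n using Nat.strong_induction_on with
        | _ n ih =>
          intro P _ _ hn hP
          rcases subsingleton_or_nontrivial P with hs | hs
          · exact C.triv hs
          have hPn := hP.isNilpotent
          obtain ⟨χ, hχ⟩ := exists_surj_of_nilpotent (p := p) (dvd_card_of_isPGroup hP)
          have hker : C.Mem χ.ker := by
            refine ih (Nat.card χ.ker) ?_ χ.ker rfl (hP.to_subgroup _)
            rw [← hn, Subgroup.card_eq_card_quotient_mul_card_subgroup χ.ker]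
            refine lt_mul_of_one_lt_left Nat.card_pos ?_
            rw [Nat.card_congr (QuotientGroup.quotientKerEquivOfSurjective χ hχ).toEquiv, card_Zp]
            exact hp.one_lt
          have h1 := hcon _ _ hker
          have h2 : C.Mem (Wr χ.ker (P ⧸ χ.ker)) :=
            (mem_iso (Wr.congrTop (QuotientGroup.quotientKerEquivOfSurjective χ hχ))).2 h1
          have : Group.IsNilpotent (Wr χ.ker (P ⧸ χ.ker)) := (hC _ h2).2
          exact mem_of_injective_of_nilpotent C _ (Wr.kk_id_injective χ.ker) h2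
      intro P _ hP
      have := hP.1
      exact key _ P rfl hP.2
    refine ⟨X, inferInstance, hX, ?_⟩
    intro L _ hLn hm
    have hLf : Finite L := finite_of_wr (C.finite hm)
    have hLp : IsPGroup p L := ((hCp _ hm).2).of_surjective _ Wr.right_surjective
    obtain ⟨i, hi⟩ := exists_Zp_emb (dvd_card_of_isPGroup hLp)
    have hmf := C.finite hm
    have : Group.IsNilpotent (Wr X L) := (hC _ hm).2
    exact hX' (mem_of_injective_of_nilpotent C _ (Wr.embTop_injective i hi) hm)

/-- Incomparable last factors are impossible when the remaining factors are nilpotent. -/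
theorem comparable {V : Formation} {g : ℕ} (hg : ChiefBdd V g) {L₁ L₂ : List Formation}
    (hL₂ : ∀ F ∈ L₂, F.NonDecomposable) {B D : Formation}
    (hABCD : L₁.prod * B = L₂.prod * D) (hA : L₁.prod ≤ Nil) (hC : L₂.prod ≤ Nil)
    (hC1 : L₂.prod ≠ 1) (hDB : ¬ D ≤ B) : B ≤ D := by
  set A := L₁.prod with hAdef
  set C := L₂.prod with hCdef
  by_contra hBD
  -- the primes
  obtain ⟨K, _, hK, hKn⟩ := ne_one_iff.1 hC1
  have hKf := C.finite hK
  obtain ⟨p, hp, hpK⟩ := Nat.exists_prime_and_dvd (n := Nat.card K) (by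
    have := Finite.one_lt_card (α := K)
    omega)
  have hpf := Fact.mk hp
  obtain ⟨S, _, hSB, hSD⟩ : ∃ (S : Type) (_ : Group S), B.Mem S ∧ ¬ D.Mem S := by
    by_contra hcon
    push Not at hcon
    exact hBD fun S _ h => hcon S _ h
  -- a minimal element of `D \ B`
  have hex : ∃ n, ∃ (T : Type) (_ : Group T), Nat.card T = n ∧ D.Mem T ∧ ¬ B.Mem T := by
    by_contra hcon
    push Not at hcon
    apply hDB
    intro T _ h
    by_contra hT
    exact hT (hcon _ T _ rfl h)
  classical
  obtain ⟨T, _, hTn, hTD, hTB⟩ := Nat.find_spec hex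
  have hTmin : ∀ (T' : Type) [Group T'], Nat.card T' < Nat.card T → D.Mem T' → B.Mem T' := by
    intro T' _ hlt hD
    by_contra hB
    rw [hTn] at hlt
    exact Nat.find_min hex hlt ⟨T', _, rfl, hD, hB⟩
  have hTf := D.finite hTD
  have hSf := B.finite hSB
  have hN₀ : B.res T ≠ ⊥ := fun h => hTB (res_eq_bot_iff.1 h)
  have hM₀ : D.res S ≠ ⊥ := fun h => hSD (res_eq_bot_iff.1 h)
  have hN₀p : IsPGroup p (B.res T) := S4 hABCD hA hC hK hTD hpK
  have hN₀n : Nontrivial (B.res T) := (Subgroup.nontrivial_iff_ne_bot _).2 hN₀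
  -- `C` consists of `p`-groups
  have hCp : ∀ (X : Type) [Group X], C.Mem X → IsPGroup p X := by
    intro X _ hX
    have hXf := C.finite hX
    refine isPGroup_of_prime_dvd fun r hr hrX => ?_
    have hrf := Fact.mk hr
    have h1 : IsPGroup r (B.res T) := S4 hABCD hA hC hX hTD hrX
    have h2 := dvd_card_of_isPGroup h1
    obtain ⟨k, hk⟩ := IsPGroup.iff_card.1 hN₀p
    rw [hk] at h2
    exact (Nat.prime_dvd_prime_iff_eq hr hp).1 (hr.dvd_of_dvd_pow h2)
  -- `U₀`
  have hU₀D : D.Mem (T ⧸ B.res T) := D.quot _ (QuotientGroup.mk'_surjective _) hTD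
  have hU₀B : B.Mem (T ⧸ B.res T) := mem_quot_res
  have hU₀ : ¬ B.Mem (Wr (Zp p) (T ⧸ B.res T)) := by
    intro h
    apply hTB
    refine Wr.kk_mem (A := Zp p) (B.res T) (fun x hx => ?_) h
    refine sep_of_sepKer ?_ x hx
    by_contra hne
    have h1 : B.Mem (T ⧸ sepKer (B.res T) p) :=
      hTmin _ (card_quot_lt hne) (D.quot _ (QuotientGroup.mk'_surjective _) hTD)
    have h2 : B.res T ≤ sepKer (B.res T) p := res_le ⟨inferInstance, h1⟩
    exact sepKer_ne hN₀ hN₀p (le_antisymm sepKer_le h2)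
  -- `C ≤ A`
  have hCA : C ≤ A := by
    intro K' _ hK'
    have hK'f := C.finite hK'
    have h1 := mem_res_mul_of_nil hABCD hC hK' hU₀D
    rw [mem_mul', Wr.mem_coord_iff _ (res_wr_le_base hU₀B)] at h1
    have h2 : Wr.coord (B.res (Wr K' (T ⧸ B.res T))) = ⊤ := by
      by_contra hne
      have hnt : Nontrivial (K' ⧸ Wr.coord (B.res (Wr K' (T ⧸ B.res T)))) := by
        rw [← not_subsingleton_iff_nontrivial]
        intro hs
        exact hne (QuotientGroup.subsingleton_iff.1 hs)
      have h3 : B.Mem (Wr (K' ⧸ Wr.coord (B.res (Wr K' (T ⧸ B.res T)))) (T ⧸ B.res T)) := by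
        refine mem_of_res_le (Wr.map (QuotientGroup.mk' _))
          (Wr.map_surjective _ (QuotientGroup.mk'_surjective _)) ?_
        intro w hw
        exact Wr.map_mk_eq_one hw (Wr.mem_base_top.1 (res_wr_le_base hU₀B hw))
      have h4 : IsPGroup p (K' ⧸ Wr.coord (B.res (Wr K' (T ⧸ B.res T)))) :=
        (hCp K' hK').to_quotient _
      have h5 := h4.isNilpotent
      obtain ⟨χ, hχ⟩ := exists_surj_of_nilpotent (p := p) (dvd_card_of_isPGroup h4)
      exact hU₀ (B.quot (Wr.map χ) (Wr.map_surjective _ hχ) h3)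
    rw [h2] at h1
    exact (mem_iso Subgroup.topEquiv).1 h1
  obtain ⟨X, _, hX⟩ := exists_pi hg L₂ hL₂ hC hC1
  apply hBD
  intro T' _ hT'
  have hT'f := B.finite hT'
  have h1 := mem_mul_wr_of_nil (D := B) hA (hCA X hX.1) hT'
  rw [hABCD] at h1
  exact PropPi' hC hX h1

theorem last_eq {V : Formation} {g c : ℕ} (hV : SubClosed V) (hg : ChiefBdd V g)
    (hc : ClassBdd V c) {L₁ L₂ : List Formation} (hL₁ : ∀ F ∈ L₁, F.NonDecomposable)
    (hL₂ : ∀ F ∈ L₂, F.NonDecomposable) {B D : Formation} (hBn : B.NonDecomposable)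
    (hDn : D.NonDecomposable) (hABCD : L₁.prod * B = L₂.prod * D)
    (hAB : L₁.prod * B ≤ Nil * V) : B = D := by
  have hNB := NA_of_nonDecomposable hBn
  have hND := NA_of_nonDecomposable hDn
  by_cases hA1 : L₁.prod = 1
  · rw [hA1, one_mul] at hABCD
    rcases hBn.2 _ _ hABCD with h | h
    · rw [h, one_mul] at hABCD; exact hABCD
    · exact absurd h hDn.1
  by_cases hC1 : L₂.prod = 1
  · rw [hC1, one_mul] at hABCD
    rcases hDn.2 _ _ hABCD.symm with h | h
    · exact absurd h hA1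
    · exact absurd h hBn.1
  have hCD : L₂.prod * D ≤ Nil * V := hABCD ▸ hAB
  by_cases hA : L₁.prod ≤ Nil
  · by_cases hC : L₂.prod ≤ Nil
    · by_cases hDB : D ≤ B
      · obtain ⟨X, _, hX⟩ := exists_pi hg L₁ hL₁ hA hA1
        exact (thmP hg hABCD.symm hCD hDB hND hDn.1 hA hX hBn).symm
      · have hBD := comparable hg hL₂ hABCD hA hC hC1 hDB
        obtain ⟨X, _, hX⟩ := exists_pi hg L₂ hL₂ hC hC1
        exact thmP hg hABCD hAB hBD hNB hBn.1 hC hX hDn
    · have hDB := S3 hV hg hc hABCD hAB hBn.1 hDn.1 hNB hND hC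
      obtain ⟨X, _, hX⟩ := exists_pi hg L₁ hL₁ hA hA1
      exact (thmP hg hABCD.symm hCD hDB hND hDn.1 hA hX hBn).symm
  · have hBD := S3 hV hg hc hABCD.symm hCD hDn.1 hBn.1 hND hNB hA
    by_cases hC : L₂.prod ≤ Nil
    · obtain ⟨X, _, hX⟩ := exists_pi hg L₂ hL₂ hC hC1
      exact thmP hg hABCD hAB hBD hNB hBn.1 hC hX hDn
    · exact Formation.le_antisymm' hBD (S3 hV hg hc hABCD hAB hBn.1 hDn.1 hNB hND hC)

theorem unique_aux {V : Formation} {g c : ℕ} (hV : SubClosed V) (hg : ChiefBdd V g)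
    (hc : ClassBdd V c) (L₁ : List Formation) : ∀ (L₂ : List Formation),
    (∀ F ∈ L₁, F.NonDecomposable) → (∀ F ∈ L₂, F.NonDecomposable) → L₁.prod = L₂.prod →
    L₁.prod ≤ Nil * V → L₁ = L₂ := by
  induction L₁ using List.reverseRecOn with
  | nil =>
    intro L₂ _ hL₂ h _
    induction L₂ using List.reverseRecOn with
    | nil => rfl
    | append_singleton L D _ =>
      exfalso
      rw [List.prod_nil, List.prod_append, List.prod_singleton] at h
      exact mul_ne_one_right (hL₂ D (by simp)).1 h.symm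
  | append_singleton L₁ B ih =>
    intro L₂ hL₁ hL₂ h hV'
    induction L₂ using List.reverseRecOn with
    | nil =>
      exfalso
      rw [List.prod_nil, List.prod_append, List.prod_singleton] at h
      exact mul_ne_one_right (hL₁ B (by simp)).1 h
    | append_singleton L₂ D _ =>
      rw [List.prod_append, List.prod_singleton, List.prod_append, List.prod_singleton] at h
      rw [List.prod_append, List.prod_singleton] at hV'
      have hBn := hL₁ B (by simp)
      have hDn := hL₂ D (by simp)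
      have hL₁' : ∀ F ∈ L₁, F.NonDecomposable := fun F hF => hL₁ F (by simp [hF])
      have hL₂' : ∀ F ∈ L₂, F.NonDecomposable := fun F hF => hL₂ F (by simp [hF])
      have hBD : B = D := last_eq hV hg hc hL₁' hL₂' hBn hDn h hV'
      subst hBD
      have hNB := NA_of_nonDecomposable hBn
      have hB : B ≤ Nil * V := fun G _ hG => hV' G (le_mul_right' _ B G hG)
      have h1 : L₁.prod = L₂.prod := cancel_right hg hB hBn.1 hNB h
      have h2 : L₁.prod ≤ Nil * V := left_le hV hg hBn.1 hNB hV'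
      rw [ih L₂ hL₁' hL₂' h1 h2]

/-- Uniqueness of factorizations into non-decomposable factors, for subformations of one-generated
saturated formations. -/
theorem unique_factorization (M : Formation) (hM : M.OneGenerated) (F : Formation) (hF : F ≤ M)
    (L₁ L₂ : List Formation) (h₁ : ∀ X ∈ L₁, X.NonDecomposable)
    (h₂ : ∀ X ∈ L₂, X.NonDecomposable) (e₁ : F = L₁.prod) (e₂ : F = L₂.prod) : L₁ = L₂ := by
  obtain ⟨G₀, _, _, hG₀⟩ := hM
  obtain ⟨c, hc⟩ := QSP_classBdd G₀
  refine unique_aux (QSP_subClosed G₀) (QSP_chiefBdd G₀) hc L₁ L₂ h₁ h₂ (e₁ ▸ e₂) ?_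
  intro G _ hG
  rw [← e₁] at hG
  exact (hG₀ G).1 (hF G hG) _ (saturated_Nil_mul (QSP G₀))
    (le_mul_right' Nil (QSP G₀) G₀ (self_mem_QSP G₀))

end Pool.Agent.Helper46.Form
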