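import Pool.Agent.Helper46.Form.Comp

/-!
The central proposition on iterated wreath products.
-/

namespace Pool.Agent.Helper46.Form

open Formation

/-- `X` is in `C` but `X ≀ L` is not in `C` for every nontrivial `L`. -/
def PiCond (C : Formation) (X : Type) [Group X] : Prop :=
  C.Mem X ∧ ∀ (L : Type) [Group L], Nontrivial L → ¬ C.Mem (Wr X L)

/-- The joint kernel of all homomorphisms to `Zp p` of a subgroup. -/
def sepKer {G : Type} [Group G] (L : Subgroup G) (p : ℕ) : Subgroup G :=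
  (⨅ l : L →* Zp p, l.ker).map L.subtype

lemma mem_sepKer {G : Type} [Group G] {L : Subgroup G} {p : ℕ} {x : G} :
    x ∈ sepKer L p ↔ ∃ h : x ∈ L, ∀ l : L →* Zp p, l ⟨x, h⟩ = 1 := by
  constructor
  · rintro ⟨⟨y, hy⟩, hy', rfl⟩
    refine ⟨hy, fun l => ?_⟩
    have h1 : (⟨y, hy⟩ : L) ∈ ⨅ l : L →* Zp p, l.ker := hy'
    rw [Subgroup.mem_iInf] at h1
    exact h1 l
  · rintro ⟨h, h'⟩
    refine ⟨⟨x, h⟩, ?_, rfl⟩
    change (⟨x, h⟩ : L) ∈ ⨅ l : L →* Zp p, l.ker
    rw [Subgroup.mem_iInf]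
    exact h'

lemma sepKer_le {G : Type} [Group G] {L : Subgroup G} {p : ℕ} : sepKer L p ≤ L :=
  Subgroup.map_subtype_le _

instance sepKer_normal {G : Type} [Group G] {L : Subgroup G} [hL : L.Normal] {p : ℕ} :
    (sepKer L p).Normal := by
  constructor
  intro x hx g
  rw [mem_sepKer] at hx ⊢
  obtain ⟨h, h'⟩ := hx
  refine ⟨hL.conj_mem _ h g, fun l => ?_⟩
  have h1 := h' (l.comp (MulAut.conjNormal (H := L) g).toMonoidHom)
  have e : (MulAut.conjNormal (H := L) g) ⟨x, h⟩ = ⟨g * x * g⁻¹, hL.conj_mem _ h g⟩ := by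
    apply Subtype.ext
    simp
  rw [MonoidHom.comp_apply] at h1
  change l ((MulAut.conjNormal (H := L) g) ⟨x, h⟩) = 1 at h1
  rwa [e] at h1

lemma sep_of_sepKer {G : Type} [Group G] {L : Subgroup G} {p : ℕ} (h : sepKer L p = ⊥) (x : L)
    (hx : ∀ l : L →* Zp p, l x = 1) : x = 1 := by
  have h1 : (x : G) ∈ sepKer L p := mem_sepKer.2 ⟨x.2, hx⟩
  rw [h, Subgroup.mem_bot] at h1
  exact Subtype.ext h1

lemma dvd_card_of_isPGroup {G : Type} [Group G] [Finite G] [Nontrivial G] {p : ℕ} [Fact p.Prime]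
    (h : IsPGroup p G) : p ∣ Nat.card G := by
  obtain ⟨k, hk⟩ := IsPGroup.iff_card.1 h
  cases k with
  | zero =>
    have := Finite.one_lt_card (α := G)
    rw [hk] at this
    simp at this
  | succ k => rw [hk]; exact dvd_pow_self p (Nat.succ_ne_zero k)

lemma sepKer_ne {G : Type} [Group G] [Finite G] {L : Subgroup G} {p : ℕ} [hp : Fact p.Prime]
    (hL : L ≠ ⊥) (h : IsPGroup p L) : sepKer L p ≠ L := by
  intro he
  have hLn : Nontrivial L := (Subgroup.nontrivial_iff_ne_bot L).2 hL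
  have := h.isNilpotent
  obtain ⟨χ, hχ⟩ := exists_surj_of_nilpotent (p := p) (dvd_card_of_isPGroup h)
  obtain ⟨ζ, hζ⟩ := exists_ne (1 : Zp p)
  obtain ⟨x, hx⟩ := hχ ζ
  have h1 : (x : G) ∈ sepKer L p := by rw [he]; exact x.2
  obtain ⟨_, h2⟩ := mem_sepKer.1 h1
  exact hζ (hx ▸ h2 χ)

namespace Wr

lemma eq_one_iff' {K T : Type} [Group K] [Group T] (w : Wr K T) :
    w = 1 ↔ w.t = 1 ∧ ∀ x, w.f x = 1 := by
  constructor
  · rintro rfl
    simp
  · rintro ⟨h1, h2⟩
    exact Wr.ext (funext h2) h1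

end Wr

/-- The splitting lemma applied to iterated wreath products. -/
theorem split_wr {D : Formation} {K A G' S : Type} [Group K] [CommGroup A] [Group G'] [Group S]
    [Finite K] [Finite S] (hS : D.Mem S) (Ψ : K →* Wr A G') (hΨ : Function.Surjective Ψ)
    (M : Subgroup K) [M.Normal] (hM : ∀ m ∈ M, (Ψ m).t = 1)
    (hM' : ∀ a : G' → A, ∃ m ∈ M, Ψ m = Wr.inl a)
    (h1 : ∀ m ∈ M, m ∈ Wr.coord (D.res (Wr K S)) → Ψ m = 1)
    (h2 : ∀ m ∈ Wr.coord (D.res (Wr K S)), (Ψ m).t = 1) :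
    D.Mem (Wr (Wr A G') S) := by
  refine split_mem (W := Wr K S) (D.res (Wr K S)) (Wr.base M) Res_res (Wr.map Ψ)
    (Wr.map_surjective _ hΨ) (Wr.map (Wr.inr.comp Wr.right)) ?_ ?_ ?_ ?_ ?_ ?_
  · intro a b ha hb
    rw [Wr.map_eq_one_iff] at ha hb
    have ha2 : ∀ s, (a.f s).t = 1 := fun s => congrArg Wr.t (ha.2 s)
    have hb2 : ∀ s, (b.f s).t = 1 := fun s => congrArg Wr.t (hb.2 s)
    refine Wr.ext (funext fun s => ?_) (by simp [ha.1, hb.1])
    simp only [Wr.mul_f, ha.1, hb.1, inv_one, one_mul]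
    refine Wr.ext (funext fun x => ?_) (by simp [ha2, hb2])
    simp only [Wr.mul_f, ha2, hb2, inv_one, one_mul]
    exact mul_comm _ _
  · intro a
    refine Wr.ext (funext fun s => ?_) rfl
    simp
  · intro m hm
    rw [Wr.map_eq_one_iff]
    refine ⟨hm.1, fun s => ?_⟩
    simp [hM _ (hm.2 s)]
  · intro a ha
    rw [Wr.map_eq_one_iff] at ha
    have ha2 : ∀ s, (a.f s).t = 1 := fun s => congrArg Wr.t (ha.2 s)
    choose m hm hm2 using hM'
    refine ⟨⟨fun s => m (a.f s).f, 1⟩, ⟨rfl, fun s => hm _⟩, ?_⟩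
    refine Wr.ext (funext fun s => ?_) ha.1.symm
    simp only [Wr.map_f, hm2]
    exact Wr.inl_of_t_eq_one (ha2 s)
  · intro m hm hmR
    rw [Wr.map_eq_one_iff]
    exact ⟨hm.1, fun s => h1 _ (hm.2 s) (Wr.mem_coord_of_mem hmR hm.1 s)⟩
  · intro r hr
    have hrt : r.t = 1 := Wr.mem_base_top.1 (res_wr_le_base hS hr)
    rw [Wr.map_eq_one_iff]
    refine ⟨hrt, fun s => ?_⟩
    simp [h2 _ (Wr.mem_coord_of_mem hr hrt s)]

theorem PropPi {C D : Formation} (hC : C ≤ Nil) {X S : Type} [Group X] [Group S]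
    (hX : PiCond C X) (hS : D.Mem S) (n : ℕ) : ∀ (G : Type) [Group G] [Finite G],
    Nat.card G = n → (C * D).Mem (Wr (Wr X G) S) → D.Mem (Wr G S) := by
  have hSf := D.finite hS
  have hXf := C.finite hX.1
  have hXn : Group.IsNilpotent X := (hC _ hX.1).2
  induction n using Nat.strong_induction_on with
  | _ n ih =>
    intro G _ _ hn hG
    rcases subsingleton_or_nontrivial G with hsub | hnt
    · refine D.quot (Wr.inr : S →* Wr G S) ?_ hS
      intro w
      exact ⟨w.t, Wr.ext (funext fun _ => Subsingleton.elim _ _) rfl⟩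
    obtain ⟨L, hL⟩ := exists_minNormal G
    have hLn := hL.1
    have hLnt : Nontrivial L := (Subgroup.nontrivial_iff_ne_bot L).2 hL.2.1
    have hIH : D.Mem (Wr (G ⧸ L) S) :=
      ih (Nat.card (G ⧸ L)) (hn ▸ card_quot_lt hL.2.1) (G ⧸ L) rfl
        (Wr.top_quot_S (QuotientGroup.mk' L) (QuotientGroup.mk'_surjective L) hG)
    rw [mem_mul'] at hG
    have hRb : D.res (Wr (Wr X G) S) ≤ Wr.base ⊤ := res_wr_le_base hS
    have hR₁C : C.Mem (Wr.coord (D.res (Wr (Wr X G) S))) := (Wr.mem_coord_iff _ hRb).1 hG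
    set R₁ := Wr.coord (D.res (Wr (Wr X G) S)) with hR₁
    have hR₁n : Group.IsNilpotent R₁ := (hC _ hR₁C).2
    -- the projection to `G`
    have hkill : ∀ k ∈ R₁, k.t ∈ L := by
      intro k hk
      obtain ⟨F, hF, rfl⟩ := Wr.mem_coord.1 hk
      have h1 := res_le_ker (X := D) (Wr.map ((QuotientGroup.mk' L).comp Wr.right))
        (Wr.map_surjective _ ((QuotientGroup.mk'_surjective L).comp Wr.right_surjective)) hIH hF
      rw [MonoidHom.mem_ker, Wr.map_eq_one_iff] at h1
      have h2 := h1.2 1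
      exact (QuotientGroup.eq_one_iff _).1 h2
    have hN₀n : (R₁.map Wr.right).Normal := Subgroup.Normal.map inferInstance _ Wr.right_surjective
    have hN₀L : R₁.map Wr.right ≤ L := by
      rintro _ ⟨k, hk, rfl⟩
      exact hkill k hk
    rcases hL.2.2 _ hN₀n hN₀L with h0 | h0
    · -- trivial projection
      refine mem_of_res_le (G := Wr (Wr X G) S) (Wr.map Wr.right)
        (Wr.map_surjective _ Wr.right_surjective) ?_
      intro w hw
      have hwt := Wr.mem_base_top.1 (hRb hw)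
      rw [MonoidHom.mem_ker, Wr.map_eq_one_iff]
      refine ⟨hwt, fun s => ?_⟩
      have h1 : Wr.right (w.f s) ∈ R₁.map Wr.right :=
        Subgroup.mem_map_of_mem _ (Wr.mem_coord_of_mem hw hwt s)
      rwa [h0, Subgroup.mem_bot] at h1
    · have hGf := Fintype.ofFinite G
      have hNR : ∀ n ∈ L, ∃ w ∈ R₁, w.t = n := by
        intro n hn
        rw [← h0] at hn
        obtain ⟨w, hw, rfl⟩ := hn
        exact ⟨w, hw, rfl⟩
      rcases Wr.dichotomy R₁ L hkill hNR hL.2.1 with h3 | ⟨p, hp, χ, hpX, hχ, hker⟩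
      · exact absurd (C.quot _ (h3 1) hR₁C) (hX.2 L hLnt)
      · have h4 : D.Mem (Wr (Wr (Zp p) (G ⧸ L)) S) := by
          refine split_wr (K := Wr X G) hS (Wr.fold χ (QuotientGroup.mk' L))
            (Wr.fold_surjective _ _ hχ (QuotientGroup.mk'_surjective L)) (Wr.base ⊤) ?_ ?_ ?_ ?_
          · intro m hm
            rw [Wr.fold_t, Wr.mem_base_top.1 hm, map_one]
          · intro a
            obtain ⟨f, hf⟩ := Wr.fold_base_surjective χ (QuotientGroup.mk' L) hχ
              (QuotientGroup.mk'_surjective L) a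
            exact ⟨Wr.inl f, Wr.mem_base_top.2 rfl, Wr.ext (funext hf) (by simp)⟩
          · intro m hm hmR
            exact hker m hmR (Wr.mem_base_top.1 hm)
          · intro m hm
            rw [Wr.fold_t]
            exact (QuotientGroup.eq_one_iff _).2 (hkill m hm)
        have hLp : IsPGroup p L := by
          have := isPGroup_map_right χ hχ R₁
          rwa [h0] at this
        refine Wr.kk_S L (A := Zp p) (fun x hx => ?_) h4
        refine sep_of_sepKer ?_ x hx
        rcases hL.2.2 (sepKer L p) inferInstance sepKer_le with h5 | h5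
        · exact h5
        · exact absurd h5 (sepKer_ne hL.2.1 hLp)

/-- The case of a trivial top group. -/
theorem PropPi' {C D : Formation} (hC : C ≤ Nil) {X : Type} [Group X]
    (hX : PiCond C X) {G : Type} [Group G] [Finite G] (h : (C * D).Mem (Wr X G)) : D.Mem G := by
  rw [← Wr.mem_unit_iff (T := Unit)] at h ⊢
  exact PropPi hC hX (D.triv inferInstance) _ G rfl h

/-- Lemma W. -/
theorem lemmaW {V : Formation} {g : ℕ} (hg : ChiefBdd V g) {A B : Formation}
    (hB : B ≤ Nil * V) {X T T₀ : Type} [Group X] [Finite X] [Group T] [Finite T] [Group T₀]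
    (h : Good g B (Nat.card X) T₀) (π : T →* T₀) (hπ : Function.Surjective π) :
    (A * B).Mem (Wr X T) ↔ A.Mem (Wr X (B.res T)) := by
  by_cases hN : B.res T = ⊥
  · have hT : B.Mem T := res_eq_bot_iff.1 hN
    rw [mem_mul_wr_iff hg hB (h.mono hT π hπ)]
    have : Unique (B.res T) := by
      rw [hN]; infer_instance
    exact (Wr.mem_unit_iff).symm
  rw [mem_mul']
  have hGf := Fintype.ofFinite T
  have hproj : (B.res (Wr X T)).map Wr.right = B.res T := res_map_right
  have hRN : ∀ w ∈ B.res (Wr X T), w.t ∈ B.res T := by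
    intro w hw
    rw [← hproj]
    exact Subgroup.mem_map_of_mem Wr.right hw
  have hNR : ∀ n ∈ B.res T, ∃ w ∈ B.res (Wr X T), w.t = n := by
    intro n hn
    rw [← hproj] at hn
    obtain ⟨w, hw, rfl⟩ := hn
    exact ⟨w, hw, rfl⟩
  rcases Wr.dichotomy (B.res (Wr X T)) (B.res T) hRN hNR hN with h3 | ⟨p, hp, χ, hpX, hχ, hker⟩
  · constructor
    · exact A.quot _ (h3 1)
    · intro hA
      refine mem_of_family (G := B.res (Wr X T)) (ι := T) (K := fun _ => Wr X (B.res T))
        (fun x => Wr.orb (B.res (Wr X T)) (B.res T) hRN x) h3 (fun _ => hA) (MonoidHom.id _)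
        Function.surjective_id ?_
      intro r hr
      apply Subtype.ext
      refine Wr.ext (funext fun x => ?_) ?_
      · have h4 := congrFun (congrArg Wr.f (hr x)) 1
        simpa using h4
      · have h4 := congrArg (fun w : Wr X (B.res T) => (w.t : T)) (hr 1)
        simpa using h4
  · exfalso
    refine h.2.2 p hp.out hpX ?_
    have h4 : B.Mem (Wr (Zp p) (T ⧸ B.res T)) := by
      refine split_mem (W := Wr X T) (B.res (Wr X T)) (Wr.base ⊤) Res_res
        (Wr.fold χ (QuotientGroup.mk' (B.res T)))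
        (Wr.fold_surjective _ _ hχ (QuotientGroup.mk'_surjective _)) (Wr.inr.comp Wr.right)
        ?_ ?_ ?_ ?_ ?_ ?_
      · intro a b ha hb
        have ha2 : a.t = 1 := congrArg Wr.t ha
        have hb2 : b.t = 1 := congrArg Wr.t hb
        refine Wr.ext (funext fun x => ?_) (by simp [ha2, hb2])
        simp only [Wr.mul_f, ha2, hb2, inv_one, one_mul]
        exact mul_comm _ _
      · intro a
        rfl
      · intro m hm
        simp [Wr.mem_base_top.1 hm]
      · intro a ha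
        have ha2 : a.t = 1 := congrArg Wr.t ha
        obtain ⟨f, hf⟩ := Wr.fold_base_surjective χ (QuotientGroup.mk' (B.res T)) hχ
          (QuotientGroup.mk'_surjective _) a.f
        exact ⟨Wr.inl f, Wr.mem_base_top.2 rfl, Wr.ext (funext hf) (by simp [ha2])⟩
      · intro m hm hmR
        exact hker m hmR (Wr.mem_base_top.1 hm)
      · intro r hr
        have h5 : QuotientGroup.mk' (B.res T) r.t = 1 := (QuotientGroup.eq_one_iff _).2 (hRN r hr)
        simp only [MonoidHom.comp_apply, Wr.right_apply, Wr.fold_t, h5, map_one]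
    have h5 : B.res T ≤ π.ker := res_le_ker π hπ h.1
    refine Wr.mem_wr_of_surjective (QuotientGroup.lift (B.res T) π h5) ?_ h4
    intro y
    obtain ⟨x, rfl⟩ := hπ y
    exact ⟨(x : T ⧸ B.res T), rfl⟩

end Pool.Agent.Helper46.Form
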