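import Pool.Agent.Helper46.Form.Std

/-!
The class of quotients of subgroups of powers of a finite group.
-/

namespace Pool.Agent.Helper46.Form

open Formation

lemma sub_of_quot {G H' G' : Type} [Group G] [Group H'] [Group G'] (f : H' →* G)
    (hf : Function.Surjective f) (j : G' →* G) (hj : Function.Injective j) :
    ∃ (H : Type) (_ : Group H) (e : H →* H') (f' : H →* G'), Function.Injective e ∧
      Function.Surjective f' := by
  refine ⟨(j.range.comap f : Subgroup H'), inferInstance, (j.range.comap f).subtype,
    (MonoidHom.ofInjective hj).symm.toMonoidHom.comp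
      ((f.comp (j.range.comap f).subtype).codRestrict j.range fun x => x.2),
    Subgroup.subtype_injective _, ?_⟩
  refine (MonoidHom.ofInjective hj).symm.surjective.comp ?_
  rintro ⟨y, hy⟩
  obtain ⟨x, rfl⟩ := hf y
  exact ⟨⟨x, hy⟩, rfl⟩

/-- Quotients of subgroups of finite powers of `G₀`. -/
def QSP (G₀ : Type) [Group G₀] [Finite G₀] : Formation :=
  mkF (fun G _ => ∃ (ι : Type) (_ : Finite ι) (H : Type) (_ : Group H) (e : H →* (ι → G₀))
    (f : H →* G), Function.Injective e ∧ Function.Surjective f)
  (fun {G} _ h => ⟨Empty, inferInstance, Unit, inferInstance, 1, 1,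
    fun a b _ => Subsingleton.elim a b, fun x => ⟨1, Subsingleton.elim _ _⟩⟩)
  (fun {G H} _ _ f hf ⟨ι, hι, K, _, e, g, he, hg⟩ => ⟨ι, hι, K, _, e, f.comp g, he, hf.comp hg⟩)
  (fun {G G'} _ _ j hj ⟨ι, hι, K, _, e, g, he, hg⟩ => by
    obtain ⟨H, _, e', f', he', hf'⟩ := sub_of_quot g hg j hj
    exact ⟨ι, hι, H, _, e.comp e', f', he.comp he', hf'⟩)
  (fun {G G'} _ _ ⟨ι, hι, K, _, e, g, he, hg⟩ ⟨ι', hι', K', _, e', g', he', hg'⟩ => by
    refine ⟨ι ⊕ ι', inferInstance, K × K', inferInstance,
      { toFun := fun x => Sum.elim (e x.1) (e' x.2)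
        map_one' := by
          ext i
          cases i <;> simp
        map_mul' := fun x y => by
          ext i
          cases i <;> simp }, g.prodMap g', ?_, ?_⟩
    · rintro ⟨a, b⟩ ⟨c, d⟩ h
      have h' : Sum.elim (e a) (e' b) = Sum.elim (e c) (e' d) := h
      have h1 : e a = e c := funext fun i => congrFun h' (Sum.inl i)
      have h2 : e' b = e' d := funext fun i => congrFun h' (Sum.inr i)
      rw [he h1, he' h2]
    · rintro ⟨a, b⟩
      obtain ⟨x, rfl⟩ := hg a
      obtain ⟨y, rfl⟩ := hg' b
      exact ⟨(x, y), rfl⟩)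

lemma QSP_subClosed (G₀ : Type) [Group G₀] [Finite G₀] : SubClosed (QSP G₀) := mkF_subClosed

lemma self_mem_QSP (G₀ : Type) [Group G₀] [Finite G₀] : (QSP G₀).Mem G₀ := by
  refine ⟨inferInstance, Unit, inferInstance, G₀, inferInstance,
    { toFun := fun x _ => x
      map_one' := rfl
      map_mul' := fun _ _ => rfl }, MonoidHom.id _, ?_, Function.surjective_id⟩
  intro a b h
  exact congrFun h ()

/-- Centralizers of minimal normal subgroups have bounded index. -/
def ChiefBdd (V : Formation) (g : ℕ) : Prop :=
  ∀ (G : Type) [Group G], V.Mem G → ∀ M : Subgroup G, M.Normal → M ≠ ⊥ →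
    (∀ N : Subgroup G, N.Normal → N ≤ M → N = ⊥ ∨ N = M) →
    (Subgroup.centralizer (M : Set G)).index ≤ g

/-- `p`-groups have bounded class. -/
def ClassBdd (V : Formation) (c : ℕ) : Prop :=
  ∀ (p : ℕ) [Fact p.Prime] (G : Type) [Group G], V.Mem G → IsPGroup p G →
    (⊤ : Subgroup G).lowerCentralSeries c = ⊥

theorem QSP_chiefBdd (G₀ : Type) [Group G₀] [Finite G₀] : ChiefBdd (QSP G₀) (Nat.card G₀) := by
  classical
  rintro G _ ⟨hfin, ι, hι, H, _, e, f, he, hf⟩ M hM hM0 hmin
  have hHfin : Finite H := Finite.of_injective e he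
  let K : ι → Subgroup H := fun i => ((Pi.evalMonoidHom (fun _ => G₀) i).comp e).ker
  have hKn : ∀ i, ((K i).map f).Normal := fun i => Subgroup.Normal.map inferInstance f hf
  have hexists : ∃ i, ⁅M, (K i).map f⁆ = ⊥ := by
    by_contra hcon
    push Not at hcon
    have hall : ∀ i, ⁅M, (K i).map f⁆ = M := by
      intro i
      have := hKn i
      rcases hmin ⁅M, (K i).map f⁆ inferInstance (Subgroup.commutator_le_left _ _) with h | h
      · exact absurd h (hcon i)
      · exact h
    have hind : ∀ s : Finset ι, M ≤ (s.inf K).map f := by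
      intro s
      induction s using Finset.induction_on with
      | empty =>
        rw [Finset.inf_empty, ← MonoidHom.range_eq_map, MonoidHom.range_eq_top.2 hf]
        exact le_top
      | insert a s ha ih =>
        rw [Finset.inf_insert, ← hall a]
        refine (Subgroup.commutator_mono ih le_rfl).trans ?_
        rw [← Subgroup.map_commutator]
        apply Subgroup.map_mono
        refine le_inf ?_ ?_
        · exact Subgroup.commutator_le_right _ _
        · have : (s.inf K).Normal := by
            clear ih ha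
            induction s using Finset.induction_on with
            | empty => rw [Finset.inf_empty]; infer_instance
            | insert a s ha ih => rw [Finset.inf_insert]; infer_instance
          exact Subgroup.commutator_le_left _ _
    have := Fintype.ofFinite ι
    have h1 := hind Finset.univ
    have h2 : (Finset.univ : Finset ι).inf K = ⊥ := by
      rw [eq_bot_iff]
      intro x hx
      rw [Finset.inf_univ_eq_iInf, Subgroup.mem_iInf] at hx
      rw [Subgroup.mem_bot]
      apply he
      rw [map_one]
      ext i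
      exact hx i
    rw [h2, Subgroup.map_bot, le_bot_iff] at h1
    exact hM0 h1
  obtain ⟨i, hi⟩ := hexists
  rw [Subgroup.commutator_comm, Subgroup.commutator_eq_bot_iff_le_centralizer] at hi
  have h1 : (Subgroup.centralizer (M : Set G)).index ∣ ((K i).map f).index :=
    Subgroup.index_dvd_of_le hi
  have h2 : ((K i).map f).index ∣ (K i).index := Subgroup.index_map_dvd _ hf
  have h3 : (K i).index ≤ Nat.card G₀ := by
    rw [Subgroup.index_ker]
    exact Nat.card_le_card_of_injective _ (Subgroup.subtype_injective _)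
  have h4 : (K i).index ≠ 0 := Subgroup.FiniteIndex.index_ne_zero
  exact (Nat.le_of_dvd (Nat.pos_of_ne_zero h4) (h1.trans h2)).trans h3

theorem QSP_classBdd (G₀ : Type) [Group G₀] [Finite G₀] : ∃ c, ClassBdd (QSP G₀) c := by
  classical
  have := Fintype.ofFinite (Subgroup G₀)
  refine ⟨Finset.univ.sup fun S : Subgroup G₀ => Group.nilpotencyClass S, ?_⟩
  rintro p hp G _ ⟨hfin, ι, hι, H, _, e, f, he, hf⟩ hG
  set c := Finset.univ.sup fun S : Subgroup G₀ => Group.nilpotencyClass S
  have hHfin : Finite H := Finite.of_injective e he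
  let P : Sylow p H := default
  have hPG : (P : Subgroup H).map f = ⊤ := by
    have h1 : ((P : Subgroup H).map f).index ∣ (P : Subgroup H).index :=
      Subgroup.index_map_dvd _ hf
    have h2 := P.not_dvd_index
    obtain ⟨n, hn⟩ := IsPGroup.iff_card.1 hG
    have h3 : ((P : Subgroup H).map f).index ∣ p ^ n := hn ▸ Subgroup.index_dvd_card _
    obtain ⟨k, -, hk⟩ := (Nat.dvd_prime_pow hp.out).1 h3
    rw [← Subgroup.index_eq_one, hk]
    cases k with
    | zero => simp
    | succ k =>
      exfalso
      apply h2
      refine dvd_trans ?_ h1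
      rw [hk]
      exact dvd_pow_self p (Nat.succ_ne_zero k)
  have hP : (P : Subgroup H).lowerCentralSeries c = ⊥ := by
    rw [Subgroup.eq_bot_iff_forall]
    intro x hx
    apply he
    rw [map_one]
    ext i
    have h1 := Subgroup.mem_map_of_mem ((Pi.evalMonoidHom (fun _ => G₀) i).comp e) hx
    rw [Subgroup.map_lowerCentralSeries] at h1
    have h2 : IsPGroup p ((P : Subgroup H).map ((Pi.evalMonoidHom (fun _ => G₀) i).comp e)) :=
      P.isPGroup'.map _
    have h3 := h2.isNilpotent
    rw [Subgroup.lowerCentralSeries_eq_bot_of_nilpotencyClass_le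
      (Finset.le_sup (f := fun S : Subgroup G₀ => Group.nilpotencyClass S)
        (Finset.mem_univ _)), Subgroup.mem_bot] at h1
    exact h1
  rw [← hPG, ← Subgroup.map_lowerCentralSeries, hP, Subgroup.map_bot]

end Pool.Agent.Helper46.Form
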