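import Pool.Agent.Helper46.Form.Char

/-!
The splitting lemma and the orbit dichotomy.
-/

namespace Pool.Agent.Helper46.Form

open Formation

/-- The splitting lemma. -/
theorem split_mem {X : Formation} {W H : Type} [Group W] [Finite W] [Group H] (R M : Subgroup W)
    (hR : X.Res R) [hMn : M.Normal] (Ψ : W →* H) (hΨ : Function.Surjective Ψ) (τ : H →* H)
    (hcomm : ∀ a b, τ a = 1 → τ b = 1 → a * b = b * a)
    (hidem : ∀ a, τ (τ a) = τ a)
    (hM : ∀ m ∈ M, τ (Ψ m) = 1)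
    (hM' : ∀ a, τ a = 1 → ∃ m ∈ M, Ψ m = a)
    (hMR : ∀ m ∈ M, m ∈ R → Ψ m = 1)
    (hτR : ∀ r ∈ R, τ (Ψ r) = 1) : X.Mem H := by
  obtain ⟨hRn, hRX⟩ := hR
  let P : Subgroup (W × W) :=
    { carrier := {p | p.1 * p.2⁻¹ ∈ M}
      one_mem' := by simp
      mul_mem' := by
        intro a b ha hb
        simp only [Set.mem_ofPred_eq, Prod.fst_mul, Prod.snd_mul] at *
        have := M.mul_mem ha (hMn.conj_mem _ hb a.2)
        have e : a.1 * b.1 * (a.2 * b.2)⁻¹ = a.1 * a.2⁻¹ * (a.2 * (b.1 * b.2⁻¹) * a.2⁻¹) := by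
          group
        rw [e]; exact this
      inv_mem' := by
        intro a ha
        simp only [Set.mem_ofPred_eq, Prod.fst_inv, Prod.snd_inv] at *
        have := M.inv_mem (hMn.conj_mem _ ha a.2⁻¹)
        have e : (a.2⁻¹ * (a.1 * a.2⁻¹) * a.2⁻¹⁻¹)⁻¹ = a.1⁻¹ * a.2⁻¹⁻¹ := by group
        rw [e] at this; exact this }
  have hP : ∀ p, p ∈ P ↔ p.1 * p.2⁻¹ ∈ M := fun p => Iff.rfl
  let Φ : P →* H :=
    { toFun := fun p => Ψ (p.1.1 * p.1.2⁻¹) * τ (Ψ p.1.2)
      map_one' := by simp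
      map_mul' := by
        rintro ⟨⟨a₁, a₂⟩, ha⟩ ⟨⟨b₁, b₂⟩, hb⟩
        rw [hP] at ha hb
        simp only [MulMemClass.mk_mul_mk, Prod.mk_mul_mk] at ha hb ⊢
        have hb' : τ (Ψ (b₁ * b₂⁻¹)) = 1 := hM _ hb
        have hc : τ ((τ (Ψ a₂))⁻¹ * Ψ a₂) = 1 := by
          rw [map_mul, map_inv, hidem, inv_mul_cancel]
        have hcv := hcomm _ _ hc hb'
        have e1 : Ψ (a₁ * b₁ * (a₂ * b₂)⁻¹) =
          Ψ (a₁ * a₂⁻¹) * (Ψ a₂ * Ψ (b₁ * b₂⁻¹) * (Ψ a₂)⁻¹) := by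
          simp only [map_mul, map_inv, mul_inv_rev]
          group
        have e2 : Ψ a₂ * Ψ (b₁ * b₂⁻¹) * (Ψ a₂)⁻¹ * τ (Ψ a₂) =
            τ (Ψ a₂) * Ψ (b₁ * b₂⁻¹) := by
          have : Ψ a₂ * Ψ (b₁ * b₂⁻¹) * (Ψ a₂)⁻¹ * τ (Ψ a₂) =
            τ (Ψ a₂) * (((τ (Ψ a₂))⁻¹ * Ψ a₂) * Ψ (b₁ * b₂⁻¹)) * ((Ψ a₂)⁻¹ * τ (Ψ a₂)) := by
            group
          rw [this, hcv]
          group
        rw [e1, map_mul Ψ a₂ b₂, map_mul τ]
        calc Ψ (a₁ * a₂⁻¹) * (Ψ a₂ * Ψ (b₁ * b₂⁻¹) * (Ψ a₂)⁻¹) * (τ (Ψ a₂) * τ (Ψ b₂))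
            = Ψ (a₁ * a₂⁻¹) * (Ψ a₂ * Ψ (b₁ * b₂⁻¹) * (Ψ a₂)⁻¹ * τ (Ψ a₂)) * τ (Ψ b₂) := by
              group
          _ = _ := by rw [e2]; group }
  have hΦ : ∀ p : P, Φ p = Ψ (p.1.1 * p.1.2⁻¹) * τ (Ψ p.1.2) := fun p => rfl
  refine mem_of_two (G := P) (((QuotientGroup.mk' R).comp (MonoidHom.fst W W)).comp P.subtype)
    (((QuotientGroup.mk' R).comp (MonoidHom.snd W W)).comp P.subtype) ?_ ?_ hRX hRX Φ ?_ ?_
  · intro x
    obtain ⟨w, rfl⟩ := QuotientGroup.mk_surjective x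
    exact ⟨⟨(w, w), by simp [hP]⟩, rfl⟩
  · intro x
    obtain ⟨w, rfl⟩ := QuotientGroup.mk_surjective x
    exact ⟨⟨(w, w), by simp [hP]⟩, rfl⟩
  · intro h
    obtain ⟨v, hv⟩ := hΨ h
    obtain ⟨m, hm, hmh⟩ := hM' (h * (τ h)⁻¹) (by rw [map_mul, map_inv, hidem, mul_inv_cancel])
    refine ⟨⟨(m * v, v), by simpa [hP] using hm⟩, ?_⟩
    rw [hΦ]
    simp only [mul_inv_cancel_right]
    rw [hmh, hv]
    group
  · rintro ⟨⟨a, b⟩, hp⟩ h1 h2
    rw [hP] at hp
    have h1' : a ∈ R := (QuotientGroup.eq_one_iff a).1 h1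
    have h2' : b ∈ R := (QuotientGroup.eq_one_iff b).1 h2
    rw [hΦ]
    simp only
    rw [hMR _ hp (R.mul_mem h1' (R.inv_mem h2')), hτR _ h2', one_mul]

namespace Wr

open Classical in
/-- The orbit dichotomy. -/
theorem dichotomy {K T : Type} [Group K] [Group T] [Finite K] [Fintype T]
    (R : Subgroup (Wr K T)) [hR : R.Normal] (N : Subgroup T) [hN : N.Normal]
    (hRN : ∀ w ∈ R, w.t ∈ N) (hNR : ∀ n ∈ N, ∃ w ∈ R, w.t = n) (hNt : N ≠ ⊥) :
    (∀ x, Function.Surjective (orb R N hRN x)) ∨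
    ∃ (p : ℕ) (_ : Fact p.Prime) (χ : K →* Zp p), p ∣ Nat.card K ∧ Function.Surjective χ ∧
      ∀ w ∈ R, w.t = 1 → fold χ (QuotientGroup.mk' N) w = 1 := by
  by_cases hsurj : ∀ x, Function.Surjective (orb R N hRN x)
  · exact Or.inl hsurj
  right
  push Not at hsurj
  obtain ⟨x₀, hx₀⟩ := hsurj
  -- the subgroup `K'`
  let K' : Subgroup (T → K) :=
    { carrier := {h | ∃ f : T → K, (⟨f, 1⟩ : Wr K T) ∈ R ∧ ∀ m ∈ N, f (m * x₀) = h (m * x₀)}
      one_mem' := ⟨1, R.one_mem, fun m _ => rfl⟩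
      mul_mem' := by
        rintro a b ⟨f, hf, hfa⟩ ⟨g, hg, hgb⟩
        refine ⟨f * g, ?_, fun m hm => ?_⟩
        · have := R.mul_mem hf hg
          convert this using 1
          ext <;> simp
        · simp [hfa m hm, hgb m hm]
      inv_mem' := by
        rintro a ⟨f, hf, hfa⟩
        refine ⟨f⁻¹, ?_, fun m hm => ?_⟩
        · have := R.inv_mem hf
          convert this using 1
          ext <;> simp
        · simp [hfa m hm] }
  have hK' : ∀ h, h ∈ K' ↔ ∃ f : T → K, (⟨f, 1⟩ : Wr K T) ∈ R ∧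
    ∀ m ∈ N, f (m * x₀) = h (m * x₀) := fun h => Iff.rfl
  have hJK : ∀ f : T → K, (⟨f, 1⟩ : Wr K T) ∈ R → f ∈ K' := fun f hf => ⟨f, hf, fun _ _ => rfl⟩
  have hK'n : K'.Normal := by
    constructor
    rintro h ⟨f, hf, hfh⟩ u
    refine ⟨u * f * u⁻¹, ?_, fun m hm => ?_⟩
    · have := hR.conj_mem _ hf (inl u)
      convert this using 1
      ext <;> simp
    · simp [hfh m hm]
  let Y : Subgroup K := K'.comap (MonoidHom.mulSingle (fun _ : T => K) x₀)
  have hY : ∀ y, y ∈ Y ↔ Pi.mulSingle (M := fun _ : T => K) x₀ y ∈ K' := fun y => Iff.rfl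
  have hYn : Y.Normal := inferInstance
  -- claim 1
  have claim1 : ∀ m ∈ N, m ≠ 1 → ∀ k : K, ∃ c : K,
      Pi.mulSingle (M := fun _ : T => K) (m * x₀) k *
        Pi.mulSingle (M := fun _ : T => K) x₀ (c⁻¹ * k⁻¹ * c) ∈ K' := by
    intro m hm hm1 k
    obtain ⟨w, hw, hwt⟩ := hNR m hm
    have h1 := hJK _ (comm_single_mem hw x₀ ((w.f (m * x₀))⁻¹ * k * w.f (m * x₀)))
    rw [hwt] at h1
    refine ⟨w.f (m * x₀), ?_⟩
    have h2 := K'.inv_mem h1
    convert h2 using 1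
    have hne : m * x₀ ≠ x₀ := by
      intro h; exact hm1 (by simpa using h)
    ext y
    simp only [Pi.mul_apply, Pi.inv_apply]
    by_cases hy : y = x₀
    · subst hy
      rw [Pi.mulSingle_eq_of_ne hne.symm, Pi.mulSingle_eq_same, Pi.mulSingle_eq_same,
        Pi.mulSingle_eq_of_ne hne.symm]
      group
    · rw [Pi.mulSingle_eq_of_ne hy, Pi.mulSingle_eq_of_ne hy]
      by_cases hy2 : y = m * x₀
      · subst hy2
        rw [Pi.mulSingle_eq_same, Pi.mulSingle_eq_same]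
        group
      · rw [Pi.mulSingle_eq_of_ne hy2, Pi.mulSingle_eq_of_ne hy2]
        simp
  -- claim 2
  obtain ⟨m₁, hm₁, hm₁'⟩ : ∃ m ∈ N, m ≠ 1 := by
    by_contra hcon
    push Not at hcon
    exact hNt ((Subgroup.eq_bot_iff_forall N).2 hcon)
  have claim2 : ∀ a b : K, a * b * a⁻¹ * b⁻¹ ∈ Y := by
    intro a b
    rw [hY]
    obtain ⟨w, hw, hwt⟩ := hNR m₁ hm₁
    have h1 := hJK _ (comm_single_mem hw x₀ a)
    rw [hwt] at h1
    have h2 := K'.mul_mem h1 (K'.inv_mem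
      (hK'n.conj_mem _ h1 (Pi.mulSingle (M := fun _ : T => K) x₀ b)))
    convert h2 using 1
    have hne : m₁ * x₀ ≠ x₀ := by
      intro h; exact hm₁' (by simpa using h)
    ext y
    simp only [Pi.mul_apply, Pi.inv_apply]
    by_cases hy : y = x₀
    · subst hy
      simp only [Pi.mulSingle_eq_same, Pi.mulSingle_eq_of_ne hne.symm]
      group
    · simp only [Pi.mulSingle_eq_of_ne hy]
      simp
  let _ : CommGroup (K ⧸ Y) :=
    { (inferInstance : Group (K ⧸ Y)) with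
      mul_comm := by
        intro a b
        obtain ⟨a, rfl⟩ := QuotientGroup.mk_surjective a
        obtain ⟨b, rfl⟩ := QuotientGroup.mk_surjective b
        have h1 := (QuotientGroup.eq_one_iff _).2 (claim2 a b)
        simp only [QuotientGroup.mk_mul, QuotientGroup.mk_inv] at h1
        have h2 := congrArg (fun z => z * ((b : K ⧸ Y) * a)) h1
        simpa [mul_assoc] using h2 }
  let θ : (T → K) → K ⧸ Y := fun h =>
    (fold (QuotientGroup.mk' Y) (QuotientGroup.mk' N) (inl h)).f (QuotientGroup.mk' N x₀)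
  have hθ : ∀ h, θ h = ∏ x ∈ Finset.univ.filter
      (fun x => QuotientGroup.mk' N x = QuotientGroup.mk' N x₀),
      QuotientGroup.mk' Y (h x) := by
    intro h
    change (fold (QuotientGroup.mk' Y) (QuotientGroup.mk' N) (inl h)).f
      (QuotientGroup.mk' N x₀) = _
    rw [fold_f]
    congr!
  have hθ1 : θ 1 = 1 := by simp [hθ]
  have hθmul : ∀ a b, θ (a * b) = θ a * θ b := by
    intro a b
    simp only [hθ, Pi.mul_apply, map_mul, Finset.prod_mul_distrib]
  have hθinv : ∀ a, θ a⁻¹ = (θ a)⁻¹ := by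
    intro a
    simp only [hθ, Pi.inv_apply, map_inv, Finset.prod_inv_distrib]
  -- the subgroup `S`
  let S : Subgroup (T → K) :=
    { carrier := {h | ∃ y : K, QuotientGroup.mk' Y y = θ h ∧
        h * (Pi.mulSingle (M := fun _ : T => K) x₀ y)⁻¹ ∈ K'}
      one_mem' := ⟨1, by rw [hθ1, map_one], by
        rw [Pi.mulSingle_one, inv_one, mul_one]; exact K'.one_mem⟩
      mul_mem' := by
        rintro a b ⟨y, hy, hy'⟩ ⟨z, hz, hz'⟩
        refine ⟨y * z, by rw [map_mul, hy, hz, hθmul], ?_⟩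
        rw [Pi.mulSingle_mul]
        have := K'.mul_mem (hK'n.conj_mem _ hz' a) hy'
        have e : a * (b * (Pi.mulSingle (M := fun _ : T => K) x₀ z)⁻¹) * a⁻¹ *
          (a * (Pi.mulSingle (M := fun _ : T => K) x₀ y)⁻¹) = a * b *
          (Pi.mulSingle (M := fun _ : T => K) x₀ y * Pi.mulSingle (M := fun _ : T => K) x₀ z)⁻¹ := by
          group
        rwa [e] at this
      inv_mem' := by
        rintro a ⟨y, hy, hy'⟩
        refine ⟨y⁻¹, by rw [map_inv, hy, hθinv], ?_⟩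
        rw [Pi.mulSingle_inv, inv_inv]
        have := K'.inv_mem (hK'n.conj_mem _ hy' (Pi.mulSingle (M := fun _ : T => K) x₀ y)⁻¹)
        have e : ((Pi.mulSingle (M := fun _ : T => K) x₀ y)⁻¹ *
          (a * (Pi.mulSingle (M := fun _ : T => K) x₀ y)⁻¹) *
          (Pi.mulSingle (M := fun _ : T => K) x₀ y)⁻¹⁻¹)⁻¹ =
          a⁻¹ * Pi.mulSingle (M := fun _ : T => K) x₀ y := by group
        rwa [e] at this }
  have hS : ∀ h : T → K, ∃ y : K, QuotientGroup.mk' Y y = θ h ∧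
        h * (Pi.mulSingle (M := fun _ : T => K) x₀ y)⁻¹ ∈ K' := by
    intro h
    change h ∈ S
    apply Subgroup.pi_mem_of_mulSingle_mem
    intro x
    generalize h x = k
    by_cases hx : QuotientGroup.mk' N x = QuotientGroup.mk' N x₀
    · -- same orbit
      have hθk : θ (Pi.mulSingle x k) = QuotientGroup.mk' Y k := by
        rw [hθ, Finset.prod_eq_single x]
        · rw [Pi.mulSingle_eq_same]
        · intro y _ hyx
          rw [Pi.mulSingle_eq_of_ne hyx, map_one]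
        · intro hh
          exact (hh (by rw [Finset.mem_filter]; exact ⟨Finset.mem_univ _, hx⟩)).elim
      by_cases hxx : x = x₀
      · subst hxx
        refine ⟨k, hθk.symm, ?_⟩
        rw [mul_inv_cancel]
        exact K'.one_mem
      · have hm : x * x₀⁻¹ ∈ N := by
          have h3 : (x₀ : T ⧸ N) = x := hx.symm
          rw [QuotientGroup.eq] at h3
          have := hN.conj_mem _ h3 x₀
          have e : x₀ * (x₀⁻¹ * x) * x₀⁻¹ = x * x₀⁻¹ := by group
          rwa [e] at this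
        obtain ⟨c, hc⟩ := claim1 (x * x₀⁻¹) hm (by
          intro h; exact hxx (mul_inv_eq_one.1 h)) k
        rw [inv_mul_cancel_right] at hc
        refine ⟨c⁻¹ * k * c, ?_, ?_⟩
        · rw [hθk, map_mul, map_mul, mul_comm, ← mul_assoc, map_inv, mul_inv_cancel, one_mul]
        · rw [← Pi.mulSingle_inv]
          have e : (c⁻¹ * k * c)⁻¹ = c⁻¹ * k⁻¹ * c := by group
          rw [e]
          exact hc
    · refine ⟨1, ?_, ?_⟩
      · rw [map_one, hθ]
        symm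
        apply Finset.prod_eq_one
        intro y hy
        simp only [Finset.mem_filter, Finset.mem_univ, true_and] at hy
        have : y ≠ x := by
          rintro rfl; exact hx hy
        rw [Pi.mulSingle_eq_of_ne this, map_one]
      · rw [Pi.mulSingle_one, inv_one, mul_one]
        refine ⟨1, R.one_mem, fun m hm => ?_⟩
        have : m * x₀ ≠ x := by
          rintro rfl
          apply hx
          have e : QuotientGroup.mk' N m = 1 := (QuotientGroup.eq_one_iff m).2 hm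
          rw [map_mul, e, one_mul]
        rw [Pi.mulSingle_eq_of_ne this]
        rfl
  have hYtop : Y ≠ ⊤ := by
    intro hYt
    apply hx₀
    have hK'top : ∀ h : T → K, h ∈ K' := by
      intro h
      obtain ⟨y, _, hy⟩ := hS h
      have h2 : Pi.mulSingle (M := fun _ : T => K) x₀ y ∈ K' := by
        rw [← hY, hYt]; trivial
      have := K'.mul_mem hy h2
      rwa [inv_mul_cancel_right] at this
    intro v
    obtain ⟨r₀, hr₀, hr₀t⟩ := hNR v.t v.t.2
    obtain ⟨f, hf, hff⟩ := hK'top (fun x => if hx : x * x₀⁻¹ ∈ N then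
      v.f ⟨x * x₀⁻¹, hx⟩ * (r₀.f x)⁻¹ else 1)
    refine ⟨⟨⟨f, 1⟩ * r₀, R.mul_mem hf hr₀⟩, ?_⟩
    ext m
    · have h3 : f (m * x₀) = if hx : (m : T) * x₀ * x₀⁻¹ ∈ N then
        v.f ⟨m * x₀ * x₀⁻¹, hx⟩ * (r₀.f (m * x₀))⁻¹ else 1 := hff m m.2
      have hm : (m : T) * x₀ * x₀⁻¹ ∈ N := by
        rw [mul_inv_cancel_right]; exact m.2
      rw [dif_pos hm] at h3
      simp only [orb_f, mul_f, inv_one, one_mul, h3, inv_mul_cancel_right]
      congr 1
      apply Subtype.ext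
      simp
    · simp [hr₀t]
  have hnt : Nontrivial (K ⧸ Y) := by
    rw [← not_subsingleton_iff_nontrivial]
    intro h
    exact hYtop (QuotientGroup.subsingleton_iff.1 h)
  have hcard : Nat.card (K ⧸ Y) ≠ 1 := by
    have := Finite.one_lt_card (α := K ⧸ Y)
    omega
  obtain ⟨p, hp, hd⟩ := Nat.exists_prime_and_dvd hcard
  have hpf := Fact.mk hp
  obtain ⟨χ, hχ⟩ := exists_surj_of_comm (p := p) hd
  refine ⟨p, hpf, χ.comp (QuotientGroup.mk' Y), hd.trans (Subgroup.card_quotient_dvd_card _),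
    hχ.comp (QuotientGroup.mk'_surjective _), ?_⟩
  have hmain : ∀ w ∈ R, w.t = 1 → (fold (χ.comp (QuotientGroup.mk' Y))
      (QuotientGroup.mk' N) w).f (QuotientGroup.mk' N x₀) = 1 := by
    intro w hw hwt
    have e1 : (fold (χ.comp (QuotientGroup.mk' Y)) (QuotientGroup.mk' N) w).f
      (QuotientGroup.mk' N x₀) = χ (θ w.f) := by
      rw [hθ, fold_f, map_prod]
      congr!
    rw [e1]
    have hwK : w.f ∈ K' := by
      apply hJK
      have : (⟨w.f, 1⟩ : Wr K T) = w := by ext <;> simp [hwt]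
      rwa [this]
    obtain ⟨y, hy, hy'⟩ := hS w.f
    have h2 : Pi.mulSingle (M := fun _ : T => K) x₀ y ∈ K' := by
      have := K'.mul_mem (K'.inv_mem hy') hwK
      have e : (w.f * (Pi.mulSingle (M := fun _ : T => K) x₀ y)⁻¹)⁻¹ * w.f =
        Pi.mulSingle (M := fun _ : T => K) x₀ y := by group
      rwa [e] at this
    rw [← hY] at h2
    rw [← hy, QuotientGroup.mk'_apply, (QuotientGroup.eq_one_iff y).2 h2, map_one]
  intro w hw hwt
  refine Wr.ext (funext fun z => ?_) ?_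
  · obtain ⟨g, rfl⟩ := QuotientGroup.mk'_surjective N z
    have h1 := hmain _ (hR.conj_mem _ hw (inr (x₀ * g⁻¹))) (by simp [hwt])
    have e : fold (χ.comp (QuotientGroup.mk' Y)) (QuotientGroup.mk' N) (inr (x₀ * g⁻¹)) =
      inr (QuotientGroup.mk' N (x₀ * g⁻¹)) := by
      refine Wr.ext (funext fun y => ?_) ?_
      · rw [fold_f]; simp
      · simp
    rw [map_mul, map_mul, map_inv, e] at h1
    simp only [mul_f, mul_t, inr_f, one_mul, inr_t, inv_t, map_mul, map_inv, mul_inv_rev, inv_inv, inv_f,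
      inv_one, mul_one, inv_mul_cancel_right] at h1
    exact h1
  · simp [hwt]

end Wr

end Pool.Agent.Helper46.Form
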