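import Pool.Agent.Helper46.Form.Split

/-!
Standard formations.
-/

namespace Pool.Agent.Helper46.Form

open Formation

/-- The embedding of `G ⧸ (N₁ ⊓ N₂)` in the product. -/
def quotInfHom {G : Type} [Group G] (N₁ N₂ : Subgroup G) [N₁.Normal] [N₂.Normal] :
    G ⧸ (N₁ ⊓ N₂) →* (G ⧸ N₁) × (G ⧸ N₂) :=
  QuotientGroup.lift (N₁ ⊓ N₂) ((QuotientGroup.mk' N₁).prod (QuotientGroup.mk' N₂)) (by
    intro x hx
    rw [Subgroup.mem_inf] at hx
    rw [MonoidHom.mem_ker, MonoidHom.prod_apply, Prod.mk_eq_one]
    exact ⟨(QuotientGroup.eq_one_iff x).2 hx.1, (QuotientGroup.eq_one_iff x).2 hx.2⟩)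

lemma quotInfHom_injective {G : Type} [Group G] (N₁ N₂ : Subgroup G) [N₁.Normal] [N₂.Normal] :
    Function.Injective (quotInfHom N₁ N₂) := by
  rw [injective_iff_map_eq_one]
  intro x hx
  obtain ⟨g, rfl⟩ := QuotientGroup.mk_surjective x
  have h : ((g : G ⧸ N₁), (g : G ⧸ N₂)) = 1 := hx
  rw [Prod.mk_eq_one] at h
  rw [QuotientGroup.eq_one_iff, Subgroup.mem_inf]
  exact ⟨(QuotientGroup.eq_one_iff g).1 h.1, (QuotientGroup.eq_one_iff g).1 h.2⟩

/-- A formation from a class closed under quotients, subgroups and direct products. -/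
def mkF (P : (G : Type) → [Group G] → Prop)
    (triv : ∀ {G : Type} [Group G], Subsingleton G → P G)
    (quot : ∀ {G H : Type} [Group G] [Group H] (f : G →* H), Function.Surjective f → P G → P H)
    (sub : ∀ {G H : Type} [Group G] [Group H] (f : H →* G), Function.Injective f → P G → P H)
    (prod : ∀ {G H : Type} [Group G] [Group H], P G → P H → P (G × H)) : Formation where
  Mem G _ := Finite G ∧ P G
  finite h := h.1
  triv h := ⟨inferInstance, triv h⟩
  quot f hf h := by
    have := h.1
    exact ⟨Finite.of_surjective f hf, quot f hf h.2⟩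
  subdirect N₁ N₂ _ _ h₁ h₂ :=
    ⟨inferInstance, sub (quotInfHom N₁ N₂) (quotInfHom_injective N₁ N₂) (prod h₁.2 h₂.2)⟩

/-- closed under subgroups -/
def SubClosed (X : Formation) : Prop :=
  ∀ {G H : Type} [Group G] [Group H] (f : H →* G), Function.Injective f → X.Mem G → X.Mem H

lemma mkF_subClosed {P : (G : Type) → [Group G] → Prop} {triv quot sub prod} :
    SubClosed (mkF P triv quot sub prod) := by
  intro G H _ _ f hf h
  have := h.1
  exact ⟨Finite.of_injective f hf, sub f hf h.2⟩

/-- nilpotent groups -/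
def Nil : Formation := mkF (fun G _ => Group.IsNilpotent G)
  (fun h => inferInstance)
  (fun f hf h => Group.nilpotent_of_surjective f hf)
  (fun f hf h => Wr.isNilpotent_of_injective f hf)
  (fun h₁ h₂ => inferInstance)

lemma mem_Nil {G : Type} [Group G] : Nil.Mem G ↔ Finite G ∧ Group.IsNilpotent G := Iff.rfl

lemma mem_Nil' {G : Type} [Group G] [Finite G] : Nil.Mem G ↔ Group.IsNilpotent G :=
  ⟨fun h => h.2, fun h => ⟨inferInstance, h⟩⟩

lemma Nil_subClosed : SubClosed Nil := mkF_subClosed

/-- `p`-groups -/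
def PG (p : ℕ) : Formation := mkF (fun G _ => IsPGroup p G)
  (fun h g => ⟨0, Subsingleton.elim _ _⟩)
  (fun f hf h => h.of_surjective f hf)
  (fun f hf h => h.of_injective f hf)
  (fun {G H} _ _ h₁ h₂ => by
    rintro ⟨g, h⟩
    obtain ⟨k, hk⟩ := h₁ g
    obtain ⟨l, hl⟩ := h₂ h
    refine ⟨k + l, ?_⟩
    ext
    · simp only [Prod.pow_mk, Prod.fst_one]
      rw [pow_add, pow_mul, hk, one_pow]
    · simp only [Prod.pow_mk, Prod.snd_one]
      rw [add_comm, pow_add, pow_mul, hl, one_pow])

lemma mem_PG {p : ℕ} {G : Type} [Group G] : (PG p).Mem G ↔ Finite G ∧ IsPGroup p G := Iff.rfl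

lemma PG_subClosed {p : ℕ} : SubClosed (PG p) := mkF_subClosed

/-- elementary abelian `p`-groups -/
def EA (p : ℕ) : Formation := mkF (fun G _ => (∀ a b : G, a * b = b * a) ∧ ∀ a : G, a ^ p = 1)
  (fun h => ⟨fun a b => Subsingleton.elim _ _, fun a => Subsingleton.elim _ _⟩)
  (fun f hf h => ⟨fun a b => by
    obtain ⟨a, rfl⟩ := hf a
    obtain ⟨b, rfl⟩ := hf b
    rw [← map_mul, h.1, map_mul], fun a => by
    obtain ⟨a, rfl⟩ := hf a
    rw [← map_pow, h.2, map_one]⟩)
  (fun f hf h => ⟨fun a b => by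
    apply hf
    rw [map_mul, h.1, map_mul], fun a => by
    apply hf
    rw [map_pow, h.2, map_one]⟩)
  (fun h₁ h₂ => ⟨fun a b => Prod.ext (h₁.1 _ _) (h₂.1 _ _),
    fun a => Prod.ext (h₁.2 _) (h₂.2 _)⟩)

lemma mem_EA {p : ℕ} {G : Type} [Group G] :
    (EA p).Mem G ↔ Finite G ∧ (∀ a b : G, a * b = b * a) ∧ ∀ a : G, a ^ p = 1 := Iff.rfl

lemma EA_sep {p : ℕ} [Fact p.Prime] {G : Type} [Group G] (h : (EA p).Mem G) (x : G)
    (hx : ∀ l : G →* Zp p, l x = 1) : x = 1 := by
  by_contra hne
  let _ : CommGroup G := { (inferInstance : Group G) with mul_comm := h.2.1 }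
  obtain ⟨χ, hχ⟩ := exists_char (p := p) h.2.2 hne
  exact hχ (hx χ)

lemma Zp_mem_EA (p : ℕ) [Fact p.Prime] : (EA p).Mem (Zp p) :=
  ⟨inferInstance, fun a b => mul_comm a b, Zp_pow p⟩

lemma isPGroup_Zp (p : ℕ) [Fact p.Prime] : IsPGroup p (Zp p) := fun x =>
  ⟨1, by rw [pow_one]; exact Zp_pow p x⟩

lemma Zp_mem_PG (p : ℕ) [Fact p.Prime] : (PG p).Mem (Zp p) :=
  ⟨inferInstance, isPGroup_Zp p⟩

lemma PG_le_Nil (p : ℕ) [Fact p.Prime] : PG p ≤ Nil := by
  rintro G _ ⟨h1, h2⟩
  exact ⟨h1, h2.isNilpotent⟩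

lemma SubClosed.mul {X Y : Formation} (hX : SubClosed X) (hY : SubClosed Y) :
    SubClosed (X * Y) := by
  intro G H _ _ f hf h
  have hG := h.1
  have hH : Finite H := Finite.of_injective f hf
  rw [mem_mul'] at h ⊢
  have h1 : Y.res H ≤ (Y.res G).comap f := by
    rw [res_le_iff inferInstance]
    refine ⟨inferInstance, ?_⟩
    refine hY (QuotientGroup.map ((Y.res G).comap f) (Y.res G) f le_rfl) ?_ mem_quot_res
    rw [injective_iff_map_eq_one]
    intro x hx
    obtain ⟨g, rfl⟩ := QuotientGroup.mk_surjective x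
    rw [QuotientGroup.map_mk, QuotientGroup.eq_one_iff] at hx
    rw [QuotientGroup.eq_one_iff]
    exact hx
  refine hX ((f.comp (Y.res H).subtype).codRestrict (Y.res G) fun x => h1 x.2) ?_ h
  intro a b hab
  exact Subtype.ext (hf (congrArg Subtype.val hab))

lemma le_mul_right' (X Y : Formation) : Y ≤ X * Y := by
  intro G _ h
  have := Y.finite h
  rw [mem_mul', res_eq_bot_iff.2 h]
  exact X.triv inferInstance

lemma ne_one_iff {X : Formation} : X ≠ 1 ↔ ∃ (G : Type) (_ : Group G), X.Mem G ∧ Nontrivial G := by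
  constructor
  · intro h
    by_contra hcon
    push Not at hcon
    apply h
    apply Formation.le_antisymm' _ one_le
    intro G _ hG
    rw [mem_one]
    exact hcon G _ hG
  · rintro ⟨G, _, hG, hG'⟩ rfl
    rw [mem_one] at hG
    exact not_subsingleton G hG

lemma mul_ne_one_right {X Y : Formation} (h : Y ≠ 1) : X * Y ≠ 1 := by
  rw [ne_one_iff] at h ⊢
  obtain ⟨G, _, h1, h2⟩ := h
  exact ⟨G, _, le_mul_right' X Y G h1, h2⟩

lemma mem_prod {X : Formation} {G H : Type} [Group G] [Group H] (hG : X.Mem G) (hH : X.Mem H) :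
    X.Mem (G × H) := by
  have := X.finite hG
  have := X.finite hH
  exact mem_of_two (G := G × H) (MonoidHom.fst G H) (MonoidHom.snd G H)
    (fun g => ⟨(g, 1), rfl⟩) (fun g => ⟨(1, g), rfl⟩) hG hH (MonoidHom.id _)
    Function.surjective_id (fun x h1 h2 => Prod.ext h1 h2)

lemma mem_pow {X : Formation} {ι G : Type} [Finite ι] [Group G] (hG : X.Mem G) :
    X.Mem (ι → G) := by
  classical
  have := X.finite hG
  exact mem_of_family (G := ι → G) (K := fun _ => G) (fun i => Pi.evalMonoidHom (fun _ => G) i)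
    (fun i => Function.surjective_eval i) (fun _ => hG) (MonoidHom.id _)
    Function.surjective_id (fun x h => funext h)

/-- If `P` is a Sylow subgroup of a normal nilpotent-by-Frattini subgroup ... -/
theorem nilpotent_of_frattini {G : Type} [Group G] [Finite G] (N : Subgroup G) [N.Normal]
    (hΦ : frattini G ≤ N) [hN : Group.IsNilpotent (N.map (QuotientGroup.mk' (frattini G)))] :
    Group.IsNilpotent N := by
  have q := (Group.isNilpotent_of_finite_tfae (G := N)).out 0 3
  rw [q]
  intro p hp P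
  set π := QuotientGroup.mk' (frattini G) with hπ
  set R := N.map π with hR
  have hRn : R.Normal := Subgroup.Normal.map inferInstance _ (QuotientGroup.mk'_surjective _)
  let f : N →* R := π.subgroupMap N
  have hf : Function.Surjective f := π.subgroupMap_surjective N
  let S : Sylow p R := P.mapSurjective hf
  have hS : (S : Subgroup R).Normal := inferInstance
  have hSc : (S : Subgroup R).Characteristic := S.characteristic_of_normal hS
  have hSn : ((S : Subgroup R).map R.subtype).Normal := inferInstance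
  set P' : Subgroup G := (P : Subgroup N).map N.subtype with hP'
  have e1 : (S : Subgroup R).map R.subtype = P'.map π := by
    rw [hP', Subgroup.map_map]
    change ((P : Subgroup N).map f).map R.subtype = _
    rw [Subgroup.map_map]
    rfl
  rw [e1] at hSn
  have hK : (P' ⊔ frattini G).Normal := by
    have : P' ⊔ frattini G = (P'.map π).comap π := by
      rw [Subgroup.comap_map_eq, QuotientGroup.ker_mk']
    rw [this]
    infer_instance
  set K := P' ⊔ frattini G with hKdef
  have hP'N : P' ≤ N := Subgroup.map_subtype_le _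
  have hKN : K ≤ N := sup_le hP'N hΦ
  have hP'K : P' ≤ K := le_sup_left
  have hidx : ¬ p ∣ (P'.subgroupOf K).index := by
    intro hdvd
    have h1 : P'.relIndex K ∣ P'.relIndex N := by
      have := Subgroup.relIndex_mul_relIndex P' K N hP'K hKN
      exact ⟨_, this.symm⟩
    have h2 : P'.relIndex N = (P : Subgroup N).index := by
      rw [Subgroup.relIndex, hP', Subgroup.subgroupOf, Subgroup.comap_map_eq_self_of_injective
        (Subgroup.subtype_injective N)]
    have h3 := P.not_dvd_index
    exact h3 (h2 ▸ (hdvd.trans h1))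
  have hpP' : IsPGroup p P' := P.isPGroup'.map N.subtype
  have hpK : IsPGroup p (P'.subgroupOf K) := hpP'.comap_subtype
  let Q : Sylow p K := hpK.toSylow hidx
  have hQ : (Q : Subgroup K).map K.subtype = P' := by
    change (P'.subgroupOf K).map K.subtype = P'
    exact Subgroup.map_subgroupOf_eq_of_le hP'K
  have h4 := Sylow.normalizer_sup_eq_top Q
  rw [hQ] at h4
  have h5 : Subgroup.normalizer (P' : Set G) ⊔ frattini G = ⊤ := by
    rw [eq_top_iff, ← h4]
    refine sup_le le_sup_left ?_
    exact sup_le (Subgroup.le_normalizer.trans le_sup_left) le_sup_right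
  have h6 := frattini_nongenerating h5
  have h7 : P'.Normal := Subgroup.normalizer_eq_top_iff.1 h6
  exact h7.of_map_subtype

/-- `Nil * V` is saturated. -/
theorem saturated_Nil_mul (V : Formation) : (Nil * V).Saturated := by
  intro G _ _ h
  rw [mem_mul'] at h ⊢
  rw [mem_Nil'] at h ⊢
  have hN : (V.res (G ⧸ frattini G)) = (V.res G).map (QuotientGroup.mk' (frattini G)) :=
    (map_res _ (QuotientGroup.mk'_surjective _)).symm
  rw [hN] at h
  have h1 : (V.res G ⊔ frattini G).map (QuotientGroup.mk' (frattini G)) =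
      (V.res G).map (QuotientGroup.mk' (frattini G)) := by
    rw [Subgroup.map_sup]
    have : (frattini G).map (QuotientGroup.mk' (frattini G)) = ⊥ := by
      rw [Subgroup.map_eq_bot_iff, QuotientGroup.ker_mk']
    rw [this, sup_bot_eq]
  have h2 : Group.IsNilpotent ((V.res G ⊔ frattini G : Subgroup G).map
    (QuotientGroup.mk' (frattini G))) := by rw [h1]; exact h
  have h3 := nilpotent_of_frattini (V.res G ⊔ frattini G) le_sup_right
  exact Wr.isNilpotent_of_injective (Subgroup.inclusion (le_sup_left :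
    V.res G ≤ V.res G ⊔ frattini G)) (Subgroup.inclusion_injective _)

end Pool.Agent.Helper46.Form
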