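import Pool.Agent.Helper46.Form.BBH

/-!
Regular wreath products.
-/

namespace Pool.Agent.Helper46.Form

open Formation

/-- The regular wreath product of `K` and `T`. -/
@[ext]
structure Wr (K T : Type) where
  f : T → K
  t : T

namespace Wr

variable {K K' T : Type} [Group K] [Group K'] [Group T]

instance : Mul (Wr K T) := ⟨fun a b => ⟨fun x => a.f x * b.f (a.t⁻¹ * x), a.t * b.t⟩⟩
instance : One (Wr K T) := ⟨⟨fun _ => 1, 1⟩⟩
instance : Inv (Wr K T) := ⟨fun a => ⟨fun x => (a.f (a.t * x))⁻¹, a.t⁻¹⟩⟩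

@[simp] lemma mul_f (a b : Wr K T) (x : T) : (a * b).f x = a.f x * b.f (a.t⁻¹ * x) := rfl
@[simp] lemma mul_t (a b : Wr K T) : (a * b).t = a.t * b.t := rfl
@[simp] lemma one_f (x : T) : (1 : Wr K T).f x = 1 := rfl
@[simp] lemma one_t : (1 : Wr K T).t = 1 := rfl
@[simp] lemma inv_f (a : Wr K T) (x : T) : (a⁻¹).f x = (a.f (a.t * x))⁻¹ := rfl
@[simp] lemma inv_t (a : Wr K T) : (a⁻¹).t = a.t⁻¹ := rfl

instance : Group (Wr K T) where
  mul_assoc a b c := by ext <;> simp [mul_assoc]
  one_mul a := by ext <;> simp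
  mul_one a := by ext <;> simp
  inv_mul_cancel a := by ext <;> simp

instance [Finite K] [Finite T] : Finite (Wr K T) :=
  Finite.of_injective (fun w : Wr K T => (w.f, w.t)) (by
    intro a b h
    simp only [Prod.mk.injEq] at h
    exact Wr.ext h.1 h.2)

/-- projection to the top group -/
def right : Wr K T →* T where
  toFun w := w.t
  map_one' := rfl
  map_mul' _ _ := rfl

@[simp] lemma right_apply (w : Wr K T) : right w = w.t := rfl

lemma right_surjective : Function.Surjective (right : Wr K T →* T) := fun t => ⟨⟨fun _ => 1, t⟩, rfl⟩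

/-- the base group -/
def inl : (T → K) →* Wr K T where
  toFun f := ⟨f, 1⟩
  map_one' := rfl
  map_mul' _ _ := by ext <;> simp

@[simp] lemma inl_f (f : T → K) : (inl f : Wr K T).f = f := rfl
@[simp] lemma inl_t (f : T → K) : (inl f : Wr K T).t = 1 := rfl

/-- the top group -/
def inr : T →* Wr K T where
  toFun t := ⟨fun _ => 1, t⟩
  map_one' := rfl
  map_mul' _ _ := by ext <;> simp

@[simp] lemma inr_f (t x : T) : (inr t : Wr K T).f x = 1 := rfl
@[simp] lemma inr_t (t : T) : (inr t : Wr K T).t = t := rfl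

lemma inl_injective : Function.Injective (inl : (T → K) →* Wr K T) := by
  intro a b h
  exact congrArg Wr.f h

lemma inl_of_t_eq_one {w : Wr K T} (h : w.t = 1) : inl w.f = w := by
  ext <;> simp [h]

/-- functoriality in the bottom group -/
def map (φ : K →* K') : Wr K T →* Wr K' T where
  toFun w := ⟨fun x => φ (w.f x), w.t⟩
  map_one' := by ext <;> simp
  map_mul' _ _ := by ext <;> simp

@[simp] lemma map_f (φ : K →* K') (w : Wr K T) (x : T) : (map φ w).f x = φ (w.f x) := rfl
@[simp] lemma map_t (φ : K →* K') (w : Wr K T) : (map φ w).t = w.t := rfl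

lemma map_surjective (φ : K →* K') (h : Function.Surjective φ) :
    Function.Surjective (map φ : Wr K T →* Wr K' T) := by
  intro w
  choose g hg using h
  exact ⟨⟨fun x => g (w.f x), w.t⟩, by ext <;> simp [hg]⟩

lemma map_injective (φ : K →* K') (h : Function.Injective φ) :
    Function.Injective (map φ : Wr K T →* Wr K' T) := by
  intro a b hab
  ext x
  · exact h (congrFun (congrArg Wr.f hab) x)
  · exact (congrArg Wr.t hab :)

lemma map_eq_one_iff (φ : K →* K') (w : Wr K T) :
    map φ w = 1 ↔ w.t = 1 ∧ ∀ x, φ (w.f x) = 1 := by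
  constructor
  · intro h
    exact ⟨(congrArg Wr.t h :), fun x => congrFun (congrArg Wr.f h) x⟩
  · rintro ⟨h1, h2⟩
    ext x
    · simpa using h2 x
    · simpa using h1

/-- functoriality in the top group, for isomorphisms -/
def congrTop {T' : Type} [Group T'] (e : T ≃* T') : Wr K T ≃* Wr K T' where
  toFun w := ⟨fun x => w.f (e.symm x), e w.t⟩
  invFun w := ⟨fun x => w.f (e x), e.symm w.t⟩
  left_inv w := by ext <;> simp
  right_inv w := by ext <;> simp
  map_mul' a b := by ext <;> simp

/-- wreathing with a trivial group -/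
def unitEquiv (K T : Type) [Group K] [Group T] [Unique T] : Wr K T ≃* K where
  toFun w := w.f 1
  invFun k := ⟨fun _ => k, 1⟩
  left_inv w := by
    ext x
    · change w.f 1 = w.f x
      rw [Subsingleton.elim x 1]
    · exact Subsingleton.elim _ _
  right_inv k := rfl
  map_mul' a b := by
    simp only [mul_f]
    rw [Subsingleton.elim (a.t⁻¹ * 1) 1]

/-- The functions into `M` as a subgroup of the base. -/
def base (M : Subgroup K) : Subgroup (Wr K T) where
  carrier := {w | w.t = 1 ∧ ∀ x, w.f x ∈ M}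
  one_mem' := ⟨rfl, fun x => M.one_mem⟩
  mul_mem' := by
    rintro a b ⟨ha, ha'⟩ ⟨hb, hb'⟩
    refine ⟨by simp [ha, hb], fun x => ?_⟩
    exact M.mul_mem (ha' _) (hb' _)
  inv_mem' := by
    rintro a ⟨ha, ha'⟩
    refine ⟨by simp [ha], fun x => ?_⟩
    exact M.inv_mem (ha' _)

lemma mem_base {M : Subgroup K} {w : Wr K T} : w ∈ (base M : Subgroup (Wr K T)) ↔
    w.t = 1 ∧ ∀ x, w.f x ∈ M := Iff.rfl

lemma mem_base_top {w : Wr K T} : w ∈ (base ⊤ : Subgroup (Wr K T)) ↔ w.t = 1 := by
  simp [mem_base]

instance base_normal (M : Subgroup K) [hM : M.Normal] : (base M : Subgroup (Wr K T)).Normal := by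
  constructor
  rintro w ⟨h1, h2⟩ g
  refine ⟨by simp [h1], fun x => ?_⟩
  have := hM.conj_mem _ (h2 (g.t⁻¹ * x)) (g.f x)
  simpa [h1, mul_assoc] using this

lemma base_top_eq_ker : (base ⊤ : Subgroup (Wr K T)) = right.ker := by
  ext w
  rw [mem_base_top, MonoidHom.mem_ker, right_apply]

/-- the base over `M` embeds in functions to `M` -/
def baseHom (M : Subgroup K) : (base M : Subgroup (Wr K T)) →* (T → M) where
  toFun w := fun x => ⟨w.1.f x, w.2.2 x⟩
  map_one' := rfl
  map_mul' a b := by
    ext x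
    simp [a.2.1]

lemma baseHom_injective (M : Subgroup K) :
    Function.Injective (baseHom M : (base M : Subgroup (Wr K T)) →* (T → M)) := by
  intro a b h
  apply Subtype.ext
  ext x
  · have := congrArg Subtype.val (congrFun h x)
    exact this
  · rw [a.2.1, b.2.1]

lemma isNilpotent_of_injective {G H : Type} [Group G] [Group H] [Group.IsNilpotent H]
    (i : G →* H) (hi : Function.Injective i) : Group.IsNilpotent G :=
  Group.nilpotent_of_mulEquiv (MonoidHom.ofInjective hi).symm

instance base_nilpotent [Finite T] (M : Subgroup K) [Group.IsNilpotent M] :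
    Group.IsNilpotent (base M : Subgroup (Wr K T)) :=
  isNilpotent_of_injective (baseHom M) (baseHom_injective M)

/-- the first coordinate projection of (the base part of) a subgroup -/
def coord (R : Subgroup (Wr K T)) : Subgroup K :=
  (R.comap inl).map (Pi.evalMonoidHom (fun _ : T => K) 1)

lemma mem_coord {R : Subgroup (Wr K T)} {k : K} :
    k ∈ coord R ↔ ∃ f : T → K, (⟨f, 1⟩ : Wr K T) ∈ R ∧ f 1 = k := Iff.rfl

instance coord_normal (R : Subgroup (Wr K T)) [R.Normal] : (coord R).Normal :=
  Subgroup.Normal.map inferInstance _ (Function.surjective_eval 1)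

lemma translate_mem {R : Subgroup (Wr K T)} [hR : R.Normal] {f : T → K}
    (h : (⟨f, 1⟩ : Wr K T) ∈ R) (t : T) : (⟨fun x => f (t * x), 1⟩ : Wr K T) ∈ R := by
  have := hR.conj_mem _ h (inr t⁻¹)
  convert this using 1
  ext <;> simp

lemma mem_coord_of_mem {R : Subgroup (Wr K T)} [hR : R.Normal] {w : Wr K T} (hw : w ∈ R)
    (ht : w.t = 1) (x : T) : w.f x ∈ coord R := by
  have : (⟨w.f, 1⟩ : Wr K T) ∈ R := by
    have e : (⟨w.f, 1⟩ : Wr K T) = w := by ext <;> simp [ht]
    rwa [e]
  have := translate_mem this x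
  exact mem_coord.2 ⟨_, this, by simp⟩

/-- commutator of a single function and an element -/
lemma comm_single_mem [DecidableEq T] {R : Subgroup (Wr K T)} [hR : R.Normal] {w : Wr K T}
    (hw : w ∈ R) (x : T) (k : K) :
    (⟨fun y => Pi.mulSingle (M := fun _ => K) x k y *
      Pi.mulSingle (M := fun _ => K) (w.t * x) (w.f (w.t * x) * k⁻¹ * (w.f (w.t * x))⁻¹) y, 1⟩
      : Wr K T) ∈ R := by
  have h1 : inl (Pi.mulSingle x k) * w * (inl (Pi.mulSingle x k))⁻¹ ∈ R := hR.conj_mem _ hw _
  have h2 := R.mul_mem h1 (R.inv_mem hw)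
  convert h2 using 1
  ext y
  · simp only [mul_f, mul_t, inl_f, inl_t, inv_f, inv_t, inv_one, one_mul, mul_one]
    by_cases hy : y = w.t * x
    · subst hy
      simp
      group
    · have : w.t⁻¹ * y ≠ x := by
        intro h; apply hy; rw [← h]; group
      rw [Pi.mulSingle_eq_of_ne hy, Pi.mulSingle_eq_of_ne this]
      simp
  · simp

lemma coord_eq_top_of_not_le {R : Subgroup (Wr K T)} [hR : R.Normal] {w : Wr K T}
    (hw : w ∈ R) (ht : w.t ≠ 1) : coord R = ⊤ := by
  classical
  rw [eq_top_iff]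
  intro k _
  refine mem_coord.2 ⟨_, comm_single_mem hw 1 k, ?_⟩
  have h1 : (1 : T) ≠ w.t * 1 := by
    rw [mul_one]; exact fun h => ht h.symm
  rw [Pi.mulSingle_eq_same, Pi.mulSingle_eq_of_ne h1, mul_one]

/-- the homomorphism from the base part onto the coordinate -/
def toCoord (R : Subgroup (Wr K T)) (h : R ≤ base ⊤) : R →* coord R where
  toFun w := ⟨w.1.f 1, by
    refine mem_coord.2 ⟨w.1.f, ?_, rfl⟩
    have e : (⟨w.1.f, 1⟩ : Wr K T) = w.1 := by
      ext
      · rfl
      · exact (mem_base_top.1 (h w.2)).symm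
    rw [e]; exact w.2⟩
  map_one' := rfl
  map_mul' a b := by
    apply Subtype.ext
    simp [mem_base_top.1 (h a.2)]

lemma toCoord_surjective (R : Subgroup (Wr K T)) (h : R ≤ base ⊤) :
    Function.Surjective (toCoord R h) := by
  rintro ⟨k, hk⟩
  obtain ⟨f, hf, rfl⟩ := mem_coord.1 hk
  exact ⟨⟨_, hf⟩, rfl⟩

lemma coord_nilpotent (R : Subgroup (Wr K T)) [Group.IsNilpotent R] :
    Group.IsNilpotent (coord R) := by
  have h1 : Group.IsNilpotent (R.comap (inl : (T → K) →* Wr K T)) := by
    refine isNilpotent_of_injective (H := R)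
      ((inl.comp (R.comap (inl : (T → K) →* Wr K T)).subtype).codRestrict R fun x => x.2) ?_
    intro a b h
    have := congrArg Subtype.val h
    exact Subtype.ext (inl_injective this)
  exact Group.nilpotent_of_surjective
    ((Pi.evalMonoidHom (fun _ : T => K) 1).subgroupMap (R.comap inl))
    (MonoidHom.subgroupMap_surjective _ _)

/-- Nilpotent normal subgroups of a wreath product lie in the base group if the bottom group is
not nilpotent. -/
lemma le_base_of_nilpotent (R : Subgroup (Wr K T)) [R.Normal] [Group.IsNilpotent R]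
    (hK : ¬ Group.IsNilpotent K) : R ≤ base ⊤ := by
  intro w hw
  rw [mem_base_top]
  by_contra ht
  apply hK
  have h1 := coord_nilpotent R
  rw [coord_eq_top_of_not_le hw ht] at h1
  exact Group.nilpotent_of_mulEquiv (Subgroup.topEquiv : (⊤ : Subgroup K) ≃* K)

/-- the quotient of the wreath product by the coordinate -/
lemma map_mk_eq_one {R : Subgroup (Wr K T)} [R.Normal] {w : Wr K T} (hw : w ∈ R) (ht : w.t = 1) :
    map (QuotientGroup.mk' (coord R)) w = 1 := by
  rw [map_eq_one_iff]
  refine ⟨ht, fun x => ?_⟩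
  rw [QuotientGroup.mk'_apply, QuotientGroup.eq_one_iff]
  exact mem_coord_of_mem hw ht x

/-- coordinates as a family of homomorphisms -/
def evalAt (R : Subgroup (Wr K T)) [R.Normal] (h : R ≤ base ⊤) (x : T) : R →* coord R where
  toFun w := ⟨w.1.f x, mem_coord_of_mem w.2 (mem_base_top.1 (h w.2)) x⟩
  map_one' := rfl
  map_mul' a b := by
    apply Subtype.ext
    simp [mem_base_top.1 (h a.2)]

lemma evalAt_surjective (R : Subgroup (Wr K T)) [R.Normal] (h : R ≤ base ⊤) (x : T) :
    Function.Surjective (evalAt R h x) := by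
  rintro ⟨k, hk⟩
  obtain ⟨f, hf, rfl⟩ := mem_coord.1 hk
  refine ⟨⟨_, translate_mem hf x⁻¹⟩, ?_⟩
  apply Subtype.ext
  simp [evalAt]

lemma mem_coord_iff [Finite K] [Finite T] {X : Formation} (R : Subgroup (Wr K T)) [R.Normal]
    (h : R ≤ base ⊤) : X.Mem R ↔ X.Mem (coord R) := by
  constructor
  · exact X.quot (toCoord R h) (toCoord_surjective R h)
  · intro hX
    refine mem_of_family (G := R) (ι := T) (K := fun _ => coord R) (evalAt R h)
      (evalAt_surjective R h) (fun _ => hX) (MonoidHom.id R) Function.surjective_id ?_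
    intro w hw
    apply Subtype.ext
    ext x
    · exact congrArg Subtype.val (hw x)
    · simpa using mem_base_top.1 (h w.2)

end Wr

end Pool.Agent.Helper46.Form
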