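import Pool.Agent.Helper46.Form.Wr

/-!
Further constructions on regular wreath products.
-/

namespace Pool.Agent.Helper46.Form

open Formation

namespace Wr

section Fold

variable {K A T T' : Type} [Group K] [CommGroup A] [Group T] [Group T'] [Fintype T]

open Classical in
/-- Multiply the values (in an abelian quotient) along the fibres of a homomorphism. -/
noncomputable def fold (χ : K →* A) (π : T →* T') : Wr K T →* Wr A T' where
  toFun w := ⟨fun y => ∏ x ∈ Finset.univ.filter (fun x => π x = y), χ (w.f x), π w.t⟩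
  map_one' := by ext <;> simp
  map_mul' a b := by
    ext y
    · simp only [mul_f, map_mul, Finset.prod_mul_distrib]
      congr 1
      refine Finset.prod_equiv (Equiv.mulLeft a.t⁻¹) ?_ ?_
      · intro x
        simp only [Finset.mem_filter, Finset.mem_univ, true_and, Equiv.coe_mulLeft, map_mul,
          map_inv]
        constructor
        · rintro rfl; rfl
        · intro h; exact mul_left_cancel h
      · intro x _
        rfl
    · simp

open Classical in
lemma fold_f (χ : K →* A) (π : T →* T') (w : Wr K T) (y : T') :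
    (fold χ π w).f y = ∏ x ∈ Finset.univ.filter (fun x => π x = y), χ (w.f x) := rfl

@[simp] lemma fold_t (χ : K →* A) (π : T →* T') (w : Wr K T) : (fold χ π w).t = π w.t := rfl

lemma fold_base_surjective (χ : K →* A) (π : T →* T') (hχ : Function.Surjective χ)
    (hπ : Function.Surjective π) (a : T' → A) :
    ∃ f : T → K, ∀ y, (fold χ π (inl f)).f y = a y := by
  classical
  choose k hk using hχ
  choose s hs using hπ
  refine ⟨fun x => if x = s (π x) then k (a (π x)) else 1, fun y => ?_⟩
  rw [fold_f, Finset.prod_eq_single (s y)]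
  · simp [hs, hk]
  · intro x hx hxy
    simp only [Finset.mem_filter, Finset.mem_univ, true_and] at hx
    have : x ≠ s (π x) := by rw [hx]; exact hxy
    simp [this]
  · intro h
    exact absurd (by simp [hs]) h

lemma fold_surjective (χ : K →* A) (π : T →* T') (hχ : Function.Surjective χ)
    (hπ : Function.Surjective π) : Function.Surjective (fold χ π) := by
  intro w
  obtain ⟨f, hf⟩ := fold_base_surjective χ π hχ hπ w.f
  obtain ⟨t, ht⟩ := hπ w.t
  refine ⟨inl f * inr t, ?_⟩
  rw [map_mul]
  ext y
  · rw [mul_f, hf, fold_f]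
    simp
  · simp [ht]

end Fold

/-- Change of the top group: `Wr A T → Wr A T'` for abelian `A`. -/
lemma mem_wr_of_surjective {X : Formation} {A T T' : Type} [CommGroup A] [Group T] [Group T']
    [Finite T] (π : T →* T') (hπ : Function.Surjective π) (h : X.Mem (Wr A T)) :
    X.Mem (Wr A T') := by
  have := Fintype.ofFinite T
  exact X.quot (fold (MonoidHom.id A) π) (fold_surjective _ _ Function.surjective_id hπ) h

section Orb

variable {K T : Type} [Group K] [Group T]

/-- Restriction to an orbit of a subgroup. -/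
def orb (R : Subgroup (Wr K T)) (N : Subgroup T) (h : ∀ w ∈ R, w.t ∈ N) (x : T) : R →* Wr K N where
  toFun w := ⟨fun m => w.1.f (m * x), ⟨w.1.t, h _ w.2⟩⟩
  map_one' := rfl
  map_mul' a b := by
    ext m
    · simp [mul_assoc]
    · simp

@[simp] lemma orb_f (R : Subgroup (Wr K T)) (N : Subgroup T) (h : ∀ w ∈ R, w.t ∈ N) (x : T)
    (w : R) (m : N) : (orb R N h x w).f m = w.1.f (m * x) := rfl

@[simp] lemma orb_t (R : Subgroup (Wr K T)) (N : Subgroup T) (h : ∀ w ∈ R, w.t ∈ N) (x : T)
    (w : R) : ((orb R N h x w).t : T) = w.1.t := rfl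

end Orb

section TopQuot

variable {X : Formation} {K G G' S : Type} [Group K] [Group G] [Group G'] [Group S]

/-- fibre product used for passing to quotients of the top group -/
def fib (K : Type) [Group K] (π : G →* G') : Subgroup (Wr K G' × G) where
  carrier := {p | p.1.t = π p.2}
  one_mem' := by simp
  mul_mem' := by
    intro a b ha hb
    simp only [Set.mem_ofPred_eq, Prod.fst_mul, mul_t, Prod.snd_mul, map_mul] at *
    rw [ha, hb]
  inv_mem' := by
    intro a ha
    simp only [Set.mem_ofPred_eq, Prod.fst_inv, inv_t, Prod.snd_inv, map_inv] at *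
    rw [ha]

lemma mem_fib {π : G →* G'} {p : Wr K G' × G} : p ∈ fib K π ↔ p.1.t = π p.2 := Iff.rfl

/-- pull back functions -/
def fibHom (K : Type) [Group K] (π : G →* G') : fib K π →* Wr K G where
  toFun p := ⟨fun x => p.1.1.f (π x), p.1.2⟩
  map_one' := rfl
  map_mul' a b := by
    ext x
    · have := a.2
      rw [mem_fib] at this
      simp [this]
    · simp

lemma fibHom_injective (π : G →* G') (hπ : Function.Surjective π) :
    Function.Injective (fibHom K π) := by
  intro a b h
  have h1 : ∀ x, a.1.1.f (π x) = b.1.1.f (π x) := fun x => congrFun (congrArg Wr.f h) x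
  have h2 : a.1.2 = b.1.2 := congrArg Wr.t h
  apply Subtype.ext
  refine Prod.ext ?_ h2
  ext y
  · obtain ⟨x, rfl⟩ := hπ y
    exact h1 x
  · rw [mem_fib.1 a.2, mem_fib.1 b.2, h2]

/-- the projection to the wreath product with the quotient -/
def fibFst (K : Type) [Group K] (π : G →* G') : fib K π →* Wr K G' :=
  (MonoidHom.fst _ _).comp (fib K π).subtype

lemma fibFst_surjective (π : G →* G') (hπ : Function.Surjective π) :
    Function.Surjective (fibFst K π) := by
  intro w
  obtain ⟨g, hg⟩ := hπ w.t
  exact ⟨⟨(w, g), hg.symm⟩, rfl⟩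

/-- For nilpotent bottom groups, one can pass to quotients of the top group. -/
theorem top_quot_S [Finite K] [Group.IsNilpotent K] [Finite G] [Finite S] (π : G →* G')
    (hπ : Function.Surjective π) (h : X.Mem (Wr (Wr K G) S)) : X.Mem (Wr (Wr K G') S) := by
  have h1 : X.Mem (Wr (fib K π) S) := by
    refine BBH_hom X (base (base ⊤) : Subgroup (Wr (Wr K G) S)) (map (fibHom K π))
      (map_injective _ (fibHom_injective π hπ)) ?_ h
    intro W
    refine ⟨⟨fun s => ⟨(inr (π (W.f s).t), (W.f s).t), rfl⟩, W.t⟩, ?_⟩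
    rw [mem_base]
    refine ⟨by simp, fun s => ?_⟩
    rw [mem_base_top]
    simp [fibHom]
  exact X.quot (map (fibFst K π)) (map_surjective _ (fibFst_surjective π hπ)) h1

lemma mem_unit_iff {T : Type} [Group T] [Unique T] : X.Mem (Wr K T) ↔ X.Mem K :=
  mem_iso (unitEquiv K T)

theorem top_quot [Finite K] [Group.IsNilpotent K] [Finite G] (π : G →* G')
    (hπ : Function.Surjective π) (h : X.Mem (Wr K G)) : X.Mem (Wr K G') := by
  rw [← mem_unit_iff (T := Unit)] at h ⊢
  exact top_quot_S π hπ h

end TopQuot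

section KK

section KKdef

variable {A G : Type} [Group A] [Group G]

lemma kk_aux (L : Subgroup G) [L.Normal] (g : G) (x : G ⧸ L) :
    (Quotient.out x)⁻¹ * g * Quotient.out ((g : G ⧸ L)⁻¹ * x) ∈ L := by
  rw [← QuotientGroup.eq_one_iff]
  simp only [QuotientGroup.mk_mul, QuotientGroup.mk_inv]
  have h : ∀ y : G ⧸ L, ((Quotient.out y : G) : G ⧸ L) = y := fun y => QuotientGroup.out_eq' y
  rw [h, h]
  group

/-- The Krasner-Kaloujnine homomorphism followed by a homomorphism from `L` to `A`. -/
noncomputable def kk (L : Subgroup G) [L.Normal] (l : L →* A) : G →* Wr A (G ⧸ L) where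
  toFun g := ⟨fun x => l ⟨_, kk_aux L g x⟩, g⟩
  map_one' := by
    ext x
    · simp only [one_f]
      rw [← map_one l]
      congr 1
      apply Subtype.ext
      simp
    · rfl
  map_mul' g h := by
    ext x
    · simp only [mul_f]
      rw [← map_mul l]
      congr 1
      apply Subtype.ext
      simp only [QuotientGroup.mk_mul, Subgroup.coe_mul, mul_inv_rev]
      rw [mul_assoc (h : G ⧸ L)⁻¹]
      group
    · rfl

lemma kk_f (L : Subgroup G) [L.Normal] (l : L →* A) (g : G) (x : G ⧸ L) :
    (kk L l g).f x = l ⟨_, kk_aux L g x⟩ := rfl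

@[simp] lemma kk_t (L : Subgroup G) [L.Normal] (l : L →* A) (g : G) :
    (kk L l g).t = (g : G ⧸ L) := rfl

lemma kk_id_injective (L : Subgroup G) [L.Normal] :
    Function.Injective (kk L (MonoidHom.id L)) := by
  rw [injective_iff_map_eq_one]
  intro g hg
  have h1 : (g : G ⧸ L) = 1 := congrArg Wr.t hg
  have h3 := congrArg Subtype.val (congrFun (congrArg Wr.f hg) 1)
  simp only [kk_f, MonoidHom.id_apply, one_f, mul_one, OneMemClass.coe_one] at h3
  rw [h1, inv_one] at h3
  have h4 : ∀ a : G, a⁻¹ * g * a = 1 → g = 1 := by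
    intro a ha
    have e : g = a * (a⁻¹ * g * a) * a⁻¹ := by group
    rw [e, ha]
    group
  exact h4 _ h3

end KKdef

variable {X : Formation} {A G S : Type} [CommGroup A] [Group G] [Group S]

lemma kk_sep (L : Subgroup G) [L.Normal] (hL : ∀ x : L, (∀ l : L →* A, l x = 1) → x = 1) (g : G)
    (hg : ∀ l : L →* A, kk L l g = 1) : g = 1 := by
  have h1 : (g : G ⧸ L) = 1 := congrArg Wr.t (hg 1)
  have h2 : ∀ l : L →* A, l ⟨_, kk_aux L g 1⟩ = 1 := fun l =>
    congrFun (congrArg Wr.f (hg l)) 1
  have h3 := congrArg Subtype.val (hL _ h2)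
  simp only [mul_one, OneMemClass.coe_one] at h3
  rw [h1, inv_one] at h3
  have h4 : ∀ a : G, a⁻¹ * g * a = 1 → g = 1 := by
    intro a ha
    have e : g = a * (a⁻¹ * g * a) * a⁻¹ := by group
    rw [e, ha]
    group
  exact h4 _ h3

/-- If `L` is a normal subgroup of `G` whose homomorphisms to the abelian group `A` separate
points, then `G ≀ S` lies in every formation containing `(A ≀ (G ⧸ L)) ≀ S`. -/
theorem kk_S [Finite A] [Finite G] [Finite S] (L : Subgroup G) [L.Normal]
    (hL : ∀ x : L, (∀ l : L →* A, l x = 1) → x = 1) (h : X.Mem (Wr (Wr A (G ⧸ L)) S)) :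
    X.Mem (Wr G S) := by
  have : Finite (L →* A) := Finite.of_injective (fun f : L →* A => (f : L → A))
    DFunLike.coe_injective
  refine mem_of_family (G := Wr G S) (ι := L →* A)
    (K := fun l => (map (kk L l) : Wr G S →* Wr (Wr A (G ⧸ L)) S).range)
    (fun l => (map (kk L l)).rangeRestrict) (fun l => MonoidHom.rangeRestrict_surjective _) ?_
    (MonoidHom.id _) Function.surjective_id ?_
  · intro l
    refine BBH X (base (base ⊤) : Subgroup (Wr (Wr A (G ⧸ L)) S)) _ ?_ h
    intro W
    refine ⟨map (kk L l) ⟨fun s => Quotient.out (W.f s).t, W.t⟩, ⟨_, rfl⟩, ?_⟩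
    rw [mem_base]
    refine ⟨by simp, fun s => ?_⟩
    rw [mem_base_top]
    have e : ∀ y : G ⧸ L, ((Quotient.out y : G) : G ⧸ L) = y := fun y => QuotientGroup.out_eq' y
    simp [e]
  · intro w hw
    have h1 : ∀ l : L →* A, map (kk L l) w = 1 := fun l => congrArg Subtype.val (hw l)
    simp only [MonoidHom.id_apply]
    ext s
    · exact kk_sep L hL _ fun l => ((map_eq_one_iff _ _).1 (h1 l)).2 s
    · exact ((map_eq_one_iff _ _).1 (h1 1)).1

theorem kk_mem [Finite A] [Finite G] (L : Subgroup G) [L.Normal]
    (hL : ∀ x : L, (∀ l : L →* A, l x = 1) → x = 1) (h : X.Mem (Wr A (G ⧸ L))) :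
    X.Mem G := by
  rw [← mem_unit_iff (T := Unit)] at h ⊢
  exact kk_S L hL h

end KK

end Wr

end Pool.Agent.Helper46.Form
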